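import Mathlib
import Pool.Agent.H392Z.MO.Spec2

/-! Task E3: small multiples of rough numbers of normal size have small total weight. -/

set_option autoImplicit false

open Filter Topology Finset

namespace Pool.Agent.H950Z.MoE3

open Pool.Agent.H392Z.MO

lemma len_ge {A : ℝ} (hA1 : 1 ≤ A) {i : ℕ} (hi : 1 ≤ i) : HH A i ≤ tt A (i + 1) - tt A i := by
  have hx : (0 : ℝ) < i := by exact_mod_cast hi
  unfold HH tt
  have e1 : (i : ℝ) ^ A = i * (i : ℝ) ^ (A - 1) := by
    rw [Real.rpow_sub_one hx.ne']; field_simp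
  have e2 : ((i + 1 : ℕ) : ℝ) ^ A = (i + 1) * ((i : ℝ) + 1) ^ (A - 1) := by
    push_cast
    rw [Real.rpow_sub_one (by positivity)]; field_simp
  have h3 : (i : ℝ) ^ (A - 1) ≤ ((i : ℝ) + 1) ^ (A - 1) :=
    Real.rpow_le_rpow hx.le (by linarith) (by linarith)
  rw [e1, e2]
  nlinarith

lemma len_le {A : ℝ} (hA2 : A ≤ 2) {i : ℕ} (hi : 1 ≤ i) :
    tt A (i + 1) - tt A i ≤ 3 * HH A i := by
  have hx1 : (1 : ℝ) ≤ i := by exact_mod_cast hi
  have hx : (0 : ℝ) < i := by linarith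
  unfold HH tt
  have e1 : (i : ℝ) ^ A = i * (i : ℝ) ^ (A - 1) := by
    rw [Real.rpow_sub_one hx.ne']; field_simp
  have e2 : ((i + 1 : ℕ) : ℝ) ^ A = (i : ℝ) ^ A * (1 + 1 / i) ^ A := by
    rw [← Real.mul_rpow hx.le (by positivity)]
    congr 1; push_cast; field_simp
  have h3 : (1 + 1 / (i : ℝ)) ^ A ≤ (1 + 1 / (i : ℝ)) ^ (2 : ℝ) :=
    Real.rpow_le_rpow_of_exponent_le (by have : 0 < 1 / (i : ℝ) := by positivity
                                         linarith) hA2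
  have h4 : (1 + 1 / (i : ℝ)) ^ (2 : ℝ) ≤ 1 + 3 / i := by
    rw [Real.rpow_two]
    have a : 1 / (i : ℝ) ≤ 1 := by rw [div_le_one hx]; exact hx1
    have b : 0 < 1 / (i : ℝ) := by positivity
    have c : 3 / (i : ℝ) = 3 * (1 / i) := by ring
    rw [c]; nlinarith
  have h5 : 0 < (i : ℝ) ^ (A - 1) := by positivity
  have h6 : (i : ℝ) ^ A * (1 + 1 / i) ^ A ≤ (i : ℝ) ^ A * (1 + 3 / i) :=
    mul_le_mul_of_nonneg_left (h3.trans h4) (by positivity)
  have h7 : (i : ℝ) ^ A * (1 + 3 / i) = (i : ℝ) ^ A + 3 * (i : ℝ) ^ (A - 1) := by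
    rw [e1]; field_simp
  rw [e2]; linarith

theorem e3 : Pool.Agent.H392Z.MO.S_E3 := by
  classical
  intro CR A κ σ ε μ M hCR hR P hG θ hθ
  have hσ := P.s_pos
  have hσ1 : σ ≤ 1 / 100 := P.s_le.trans P.k_le
  have hA1 : 199 / 100 ≤ A := by have := P.A_ge; linarith
  have hA2 := P.A_lt
  have hε := P.e_pos
  have hε1 : ε ≤ 1 := by have := P.e_le; linarith
  obtain ⟨i0, hi0⟩ := hG (θ * σ / (12 * CR)) (by positivity)
  obtain ⟨j0, hj0⟩ := exists_nat_ge ((2 : ℝ) ^ (2 / σ))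
  refine ⟨max i0 (max j0 2), fun i₁ hi₁ g hg i hi => ?_⟩
  have hsum := hi0 i₁ (le_of_max_le_left hi₁) g hg
  have hi2 : 2 ≤ i := le_trans (le_trans (le_max_right _ _) (le_max_right _ _)) (hi₁.trans hi)
  have hij : j0 ≤ i := le_trans (le_trans (le_max_left _ _) (le_max_right _ _)) (hi₁.trans hi)
  have hx2 : (2 : ℝ) ≤ i := by exact_mod_cast hi2
  have hx1 : (1 : ℝ) ≤ i := by linarith
  have hx : (0 : ℝ) < i := by linarith
  have hlogi : 0 < Real.log i := Real.log_pos (by linarith)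
  set z := tt A i with hz
  set h := tt A (i + 1) - tt A i with hh
  set H := HH A i with hH
  have hzdef : z = (i : ℝ) ^ A := rfl
  have hHdef : H = (i : ℝ) ^ (A - 1) := rfl
  have hzpos : 0 < z := by rw [hzdef]; positivity
  have hHpos : 0 < H := by rw [hHdef]; positivity
  have hlogz : Real.log z = A * Real.log i := by rw [hzdef, Real.log_rpow hx]
  have hlogzpos : 0 < Real.log z := by rw [hlogz]; positivity
  have h1 : H ≤ h := len_ge (by linarith) (by omega)
  have h2 : h ≤ 3 * H := len_le hA2.le (by omega)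
  set w := z ^ (σ / 2) with hw
  have hwdef : w = (i : ℝ) ^ (A * (σ / 2)) := by rw [hw, hzdef, ← Real.rpow_mul hx.le]
  have hw2 : 2 ≤ w := by
    have a1 : (2 : ℝ) ^ (2 / σ) ≤ i := hj0.trans (by exact_mod_cast hij)
    have a2 : ((2 : ℝ) ^ (2 / σ)) ^ (σ / 2) ≤ (i : ℝ) ^ (σ / 2) :=
      Real.rpow_le_rpow (by positivity) a1 (by positivity)
    rw [← Real.rpow_mul (by norm_num), show 2 / σ * (σ / 2) = 1 by field_simp, Real.rpow_one] at a2
    rw [hwdef]
    exact a2.trans (Real.rpow_le_rpow_of_exponent_le hx1 (by nlinarith))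
  have hlogw : σ / 2 * Real.log i ≤ Real.log w := by
    rw [hwdef, Real.log_rpow hx]
    have : σ / 2 ≤ A * (σ / 2) := by nlinarith
    exact mul_le_mul_of_nonneg_right this hlogi.le
  have hz10 : z ^ (1 / 10 : ℝ) = (i : ℝ) ^ (A * (1 / 10)) := by
    rw [hzdef, ← Real.rpow_mul hx.le]
  have hphi0 : 0 ≤ phi ε z := by unfold phi; positivity
  set S := Finset.Icc 2 ⌊z ^ (1 / 10 : ℝ)⌋₊ with hS
  set Q : ℕ → ℕ → Prop := fun s n => ∃ u : ℕ, n = s * u ∧ Rough w u ∧ g u ≤ phi ε u with hQ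
  have hSs : ∀ s ∈ S, (2 : ℝ) ≤ s ∧ (s : ℝ) ≤ z ^ (1 / 10 : ℝ) := by
    intro s hs
    obtain ⟨a, b⟩ := Finset.mem_Icc.1 hs
    exact ⟨by exact_mod_cast a, (Nat.le_floor_iff (by positivity)).1 b⟩
  have hB : ∀ n ∈ B A i, z ≤ n ∧ (n : ℝ) < z + h := by
    intro n hn
    obtain ⟨a, b⟩ := Finset.mem_Ico.1 hn
    refine ⟨Nat.ceil_le.1 a, ?_⟩
    have := Nat.lt_ceil.1 b
    rw [hh]; linarith
  -- the number of elements with a given cofactor
  have hcard : ∀ s ∈ S, (((B A i).filter (Q s)).card : ℝ) ≤ 6 * CR * H / (s * σ * Real.log i) := by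
    intro s hs
    obtain ⟨s2, s3⟩ := hSs s hs
    have spos : (0 : ℝ) < s := by linarith
    have hsub : (B A i).filter (Q s) ⊆
        ((Ival (z / s) (h / s)).filter (Rough w)).image (fun u => s * u) := by
      intro n hn
      obtain ⟨hnB, u, rfl, hu, -⟩ := Finset.mem_filter.1 hn
      obtain ⟨b1, b2⟩ := hB _ hnB
      push_cast at b1 b2
      refine Finset.mem_image.2 ⟨u, Finset.mem_filter.2 ⟨Finset.mem_Ico.2 ⟨?_, ?_⟩, hu⟩, rfl⟩
      · rw [Nat.ceil_le, div_le_iff₀ spos]; linarith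
      · rw [Nat.lt_ceil, ← add_div, lt_div_iff₀ spos]; linarith
    have hw5 : w ^ 5 ≤ h / s := by
      rw [le_div_iff₀ spos]
      refine le_trans ?_ h1
      have a1 : w ^ 5 = (i : ℝ) ^ (A * (σ / 2) * 5) := by
        rw [hwdef, ← Real.rpow_natCast, ← Real.rpow_mul hx.le]; norm_num
      calc w ^ 5 * s ≤ w ^ 5 * z ^ (1 / 10 : ℝ) := by gcongr
        _ = (i : ℝ) ^ (A * (σ / 2) * 5 + A * (1 / 10)) := by rw [a1, hz10, ← Real.rpow_add hx]
        _ ≤ H := by
          rw [hHdef]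
          exact Real.rpow_le_rpow_of_exponent_le hx1 (by nlinarith)
    have hc := hR (z / s) (h / s) w (by positivity) hw2 hw5
    have c1 : (((B A i).filter (Q s)).card : ℝ) ≤
        (((Ival (z / s) (h / s)).filter (Rough w)).card : ℝ) := by
      exact_mod_cast (Finset.card_le_card hsub).trans Finset.card_image_le
    refine c1.trans (hc.trans ?_)
    have hh0 : 0 ≤ h := by linarith
    calc CR * (h / s) / Real.log w ≤ CR * (3 * H / s) / (σ / 2 * Real.log i) := by gcongr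
      _ = _ := by field_simp; ring
  -- the size of each term
  have hterm : ∀ s ∈ S, ∀ n ∈ (B A i).filter (Q s),
      g n ≤ g s * (2 * phi ε z * (s : ℝ) ^ (1 - ε)) := by
    intro s hs n hn
    obtain ⟨s2, s3⟩ := hSs s hs
    have spos : (0 : ℝ) < s := by linarith
    obtain ⟨hnB, u, rfl, -, hu⟩ := Finset.mem_filter.1 hn
    obtain ⟨b1, -⟩ := hB _ hnB
    push_cast at b1
    have hu1 : z / s ≤ u := by rw [div_le_iff₀ spos]; linarith
    have upos : (0 : ℝ) < u := lt_of_lt_of_le (by positivity) hu1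
    rw [hg.mul s u (by exact_mod_cast spos) (by exact_mod_cast upos)]
    refine mul_le_mul_of_nonneg_left (hu.trans ?_) (hg.nonneg s)
    have a1 : (u : ℝ) ^ (ε - 1) ≤ z ^ (ε - 1) * (s : ℝ) ^ (1 - ε) := by
      refine (Real.rpow_le_rpow_of_nonpos (by positivity) hu1 (by linarith)).trans (le_of_eq ?_)
      rw [Real.div_rpow hzpos.le spos.le, div_eq_mul_inv, ← Real.rpow_neg spos.le]
      congr 2; ring
    have a2 : 9 / 10 * Real.log z ≤ Real.log u := by
      have b2 := Real.log_le_log (by positivity) hu1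
      rw [Real.log_div hzpos.ne' spos.ne'] at b2
      have b3 := Real.log_le_log spos s3
      rw [Real.log_rpow hzpos] at b3
      linarith
    unfold phi
    calc (u : ℝ) ^ (ε - 1) / Real.log u ^ 2
        ≤ z ^ (ε - 1) * (s : ℝ) ^ (1 - ε) / (9 / 10 * Real.log z) ^ 2 := by gcongr
      _ = (100 / 81) * (z ^ (ε - 1) / Real.log z ^ 2 * (s : ℝ) ^ (1 - ε)) := by
        field_simp; ring
      _ ≤ 2 * (z ^ (ε - 1) / Real.log z ^ 2 * (s : ℝ) ^ (1 - ε)) := by
        have : 0 ≤ z ^ (ε - 1) / Real.log z ^ 2 * (s : ℝ) ^ (1 - ε) := by positivity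
        linarith
      _ = _ := by ring
  have step1 : ∑ n ∈ Mid A σ ε g i, g n ≤ ∑ s ∈ S, ∑ n ∈ (B A i).filter (Q s), g n := by
    have e1 : ∑ s ∈ S, ∑ n ∈ (B A i).filter (Q s), g n =
        ∑ n ∈ B A i, ∑ s ∈ S, if Q s n then g n else 0 := by
      rw [Finset.sum_comm]
      exact Finset.sum_congr rfl fun s _ => Finset.sum_filter _ _
    rw [e1, Mid, Finset.sum_filter]
    refine Finset.sum_le_sum fun n _ => ?_
    have hnn : ∀ s ∈ S, 0 ≤ (if Q s n then g n else 0) := by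
      intro s _; split_ifs
      · exact hg.nonneg n
      · exact le_rfl
    split_ifs with hn
    · obtain ⟨s, u, e, s2, s3, r, gu⟩ := hn
      have hs : s ∈ S := Finset.mem_Icc.2 ⟨s2, Nat.le_floor s3⟩
      have := Finset.single_le_sum hnn hs
      rwa [if_pos ⟨u, e, r, gu⟩] at this
    · exact Finset.sum_nonneg hnn
  have step2 : ∀ s ∈ S, ∑ n ∈ (B A i).filter (Q s), g n ≤
      12 * CR / σ * (phi ε z * H / Real.log i) * (g s * (s : ℝ) ^ (-ε)) := by
    intro s hs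
    obtain ⟨s2, -⟩ := hSs s hs
    have spos : (0 : ℝ) < s := by linarith
    have gs := hg.nonneg s
    refine (Finset.sum_le_card_nsmul _ _ _ (hterm s hs)).trans ?_
    rw [nsmul_eq_mul]
    refine (mul_le_mul_of_nonneg_right (hcard s hs) (by positivity)).trans (le_of_eq ?_)
    have : (s : ℝ) ^ (1 - ε) = s * (s : ℝ) ^ (-ε) := by
      rw [sub_eq_add_neg, Real.rpow_add spos, Real.rpow_one]
    rw [this]; field_simp; ring
  refine step1.trans ((Finset.sum_le_sum step2).trans ?_)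
  rw [← Finset.mul_sum]
  refine (mul_le_mul_of_nonneg_left (hsum _) (by positivity)).trans (le_of_eq ?_)
  field_simp

end Pool.Agent.H950Z.MoE3
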