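import Pool.Agent.H59Z.NA.Text
import Pool.Agent.H59Z.NA.Tbase
import Pool.Agent.H59Z.NA.Ttau
import Pool.Agent.H59Z.NA.Tlines
import Pool.Agent.H59Z.NA.Telec
import Pool.Agent.H59Z.NA.Twind
import Pool.Agent.H59Z.NA.Tquo
import Pool.Agent.H59Z.NA.Tstep
import Pool.Agent.H59Z.NA.Thyp
import Pool.Agent.H59Z.NA.Tacyl
import Pool.Agent.H59Z.NA.Taxis
import Pool.Agent.H59Z.NA.Tbow
import Pool.Agent.H59Z.NA.Tcomm
import Pool.Agent.H59Z.NA.Tcyc
import Pool.Agent.H59Z.NA.Tlox
import Pool.Agent.H59Z.NA.Tpos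
import Pool.Agent.H59Z.NA.Tell
import Pool.Agent.H59Z.NA.Ttri
import Pool.Agent.H59Z.NA.Tacylq
import Pool.Agent.H59Z.NA.Tloxq
import Pool.Agent.H59Z.NA.Tfp
import Pool.Agent.H59Z.NA.Tlfp
import Pool.Agent.H59Z.NA.Tmd

set_option autoImplicit false

/-!
# The Burnside quotient of a group with a good action (limit of the tower of helper59)
-/

namespace Pool.Agent.H950Z.BQ

open Pool.Agent.H59Z.NA

theorem sAcyl : S_acyl := thm_acyl thm_comm
theorem sAxis : S_axis := thm_axis thm_tau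
theorem sLines : S_lines := thm_lines thm_tau thm_hyp sAcyl sAxis
theorem sElec : S_elec := thm_elec thm_hyp thm_bow
theorem sQuo : S_quo := thm_quo thm_hyp
theorem sLox : S_lox := thm_lox thm_tau (thm_cyc thm_tau)
theorem sFp : S_fp := thm_fp thm_pos
theorem sMd : S_md := thm_md thm_hyp thm_pos
theorem sStep : S_step :=
  thm_step thm_tau sAcyl sLox thm_pos (thm_ell thm_pos sFp thm_lfp)
    (thm_tri thm_tau thm_pos sFp thm_lfp sMd) (thm_acylq thm_pos sMd)
    (thm_loxq thm_tau thm_pos sMd)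
theorem sBase : S_base := thm_base thm_tau thm_comm sLox

/-- The hypothesis of the tower. -/
abbrev Gd (Q V : Type) [Group Q] [MulAction Q V] (X : GM V) (n : ℕ) : Prop :=
  Good Q V X 122 (10 ^ 9) (1 / (3 * 10 ^ 13)) n

/-- The subgroup generated by the `n`-th powers. -/
abbrev Pw (Q : Type) [Group Q] (n : ℕ) : Subgroup Q :=
  Subgroup.normalClosure (Set.range fun w : Q => w ^ n)

theorem step (n : ℕ) (hn : Odd n) (hn2 : 10 ^ 32 ≤ n)
    (Q V : Type) [Group Q] [MulAction Q V] (X : GM V) (hg : Gd Q V X n) :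
    ∃ (Q' V' : Type) (_ : Group Q') (_ : MulAction Q' V') (X' : GM V')
      (β : Q →* Q') (φ : V → V'), Gd Q' V' X' n ∧ Function.Surjective β ∧
      (∀ q, β q = 1 → q ∈ Pw Q n) ∧
      (∀ (q : Q) (p : V), φ (q • p) = β q • φ p) ∧
      (∀ p q : V, X'.d (φ p) (φ q) ≤ 1 ∨ X'.d (φ p) (φ q) < X.d p q) ∧
      (∀ q : Q, X.tau q ≤ 1 → β q ^ n = 1) ∧
      ∀ (q : Q) (p : V), q • p = p → β q = 1 → q = 1 := by
  have hn0 : 0 < n := hn.pos
  obtain ⟨I, _, F, hmu, htri⟩ := Text.lines_short thm_tau sLines n hn2 Q V X hg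
  obtain ⟨E, hE⟩ := sElec Q V I X 122 (2 * 10 ^ 9) F hg.inv hg.four (by norm_num) (by norm_num)
  have hInd := thm_wind Q V I X _ F E hg.inv (by norm_num) hE Q (MonoidHom.id Q)
    (fun i => Subgroup.zpowers (F.gen i ^ F.mu i))
    (by
      intro g i x hx
      obtain ⟨k, rfl⟩ := Subgroup.mem_zpowers_iff.1 hx
      refine Subgroup.mem_zpowers_iff.2 ⟨k, ?_⟩
      simp only [MonoidHom.id_apply, F.gen_smul, F.mu_smul, conj_pow, conj_zpow])
    (fun i x hx => hx) (fun i x _ hx => hx)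
  obtain ⟨W, J, _, _, A, φ, hq⟩ := sQuo Q V I X _ F E hg.ne hg.inv (by norm_num) hE hInd
  obtain ⟨hg', -⟩ := sStep Q V I X 122 (10 ^ 9) (2 * 10 ^ 9) n _ 1 F _ W J _ A φ hg hn
    (fun i => by rw [hmu]) (by norm_num) one_pos le_rfl
    (fun g => by
      rcases htri g with h' | h' | h'
      · exact Or.inl h'
      · exact Or.inr (Or.inl h')
      · exact Or.inr (Or.inr h'.le)) hq
  have hβ : ∀ q : Q, QuotientGroup.mk' F.K q = 1 ↔ q ∈ F.K := fun q => QuotientGroup.eq_one_iff q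
  refine ⟨Q ⧸ F.K, W, inferInstance, inferInstance, A.Z, QuotientGroup.mk' F.K, φ, ?_,
    hq.surj, ?_, hq.φ_smul, ?_, ?_, ?_⟩
  · convert hg' using 1
    norm_num
  · intro q hq'
    rw [hβ] at hq'
    refine (Subgroup.closure_le _).2 ?_ hq'
    rintro _ ⟨i, rfl⟩
    exact Subgroup.subset_normalClosure ⟨F.gen i, by simp only [hmu]⟩
  · intro p q
    by_cases hd : X.d p q ≤ 2 * 10 ^ 9
    · left
      exact hq.scale 0 p q (by omega)
    · right
      have := hq.scale (X.d p q - 2) p q (by omega)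
      omega
  · intro q hq'
    rcases htri q with h' | ⟨i, h'⟩ | h'
    · rw [← map_pow, h', map_one]
    · obtain ⟨k, rfl⟩ := Subgroup.mem_zpowers_iff.1 h'
      have := hq.rel i
      rw [hmu, map_pow] at this
      rw [map_zpow, ← zpow_natCast, ← zpow_mul, mul_comm k (n : ℤ), zpow_mul, zpow_natCast, this,
        one_zpow]
    · linarith
  · intro q p hp h1
    refine hq.inj q p h1 (fun i => ?_)
    rw [hp, sub_self, abs_zero]
    norm_num

/-- One stage of the tower over `Q₀`. -/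
structure Stage (n : ℕ) (Q₀ V₀ : Type) [Group Q₀] [MulAction Q₀ V₀] : Type 1 where
  Q : Type
  V : Type
  [gQ : Group Q]
  [act : MulAction Q V]
  X : GM V
  b : Q₀ →* Q
  f : V₀ → V
  good : Gd Q V X n
  b_surj : Function.Surjective b
  b_ker : ∀ w, b w = 1 → w ∈ Pw Q₀ n
  f_smul : ∀ (w : Q₀) (p : V₀), f (w • p) = b w • f p
  inj : ∀ (w : Q₀) (p : V₀), w • p = p → b w = 1 → w = 1

attribute [instance] Stage.gQ Stage.act

variable {n : ℕ} {Q₀ V₀ : Type} [Group Q₀] [MulAction Q₀ V₀]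

def Stage.len (S : Stage n Q₀ V₀) (o : V₀) (w : Q₀) : ℕ := S.X.d (S.f o) (S.b w • S.f o)

structure Next (S T : Stage n Q₀ V₀) : Prop where
  b_mono : ∀ w, S.b w = 1 → T.b w = 1
  len : ∀ o w, T.len o w ≤ 1 ∨ T.len o w < S.len o w
  kill : ∀ o w, S.len o w ≤ 1 → T.b (w ^ n) = 1

theorem exists_next (hn : Odd n) (hb : 10 ^ 32 ≤ n) (S : Stage n Q₀ V₀) :
    ∃ T : Stage n Q₀ V₀, Next S T := by
  obtain ⟨Q', V', iQ, iV, X', β, φ, hgood, hsurj, hβ, hφ, hd, hkill, hinj⟩ :=
    step n hn hb S.Q S.V S.X S.good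
  refine ⟨{ Q := Q', V := V', X := X', b := β.comp S.b, f := fun p => φ (S.f p), good := hgood,
            b_surj := hsurj.comp S.b_surj, b_ker := ?_, f_smul := ?_, inj := ?_ }, ?_, ?_, ?_⟩
  · intro w hw
    have h := hβ (S.b w) hw
    have : ((Pw Q₀ n).map S.b).Normal := Subgroup.Normal.map inferInstance S.b S.b_surj
    have hle : Pw S.Q n ≤ (Pw Q₀ n).map S.b := by
      apply Subgroup.normalClosure_le_normal
      rintro _ ⟨q, rfl⟩
      obtain ⟨v, rfl⟩ := S.b_surj q
      exact ⟨v ^ n, Subgroup.subset_normalClosure ⟨v, rfl⟩, map_pow _ _ _⟩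
    obtain ⟨v, hv, hvw⟩ := hle h
    have h2 : w * v⁻¹ ∈ Pw Q₀ n := S.b_ker _ (by rw [map_mul, map_inv, hvw, mul_inv_cancel])
    have h3 := mul_mem h2 hv
    simpa using h3
  · intro w p
    rw [S.f_smul, hφ]; rfl
  · intro w p hp hw
    refine S.inj w p hp (hinj (S.b w) (S.f p) ?_ hw)
    rw [← S.f_smul, hp]
  · intro w hw
    change β (S.b w) = 1
    rw [hw, map_one]
  · intro o w
    have := hd (S.f o) (S.b w • S.f o)
    rw [hφ] at this
    exact this
  · intro o w hw
    change β (S.b (w ^ n)) = 1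
    rw [map_pow, map_pow]
    apply hkill
    have h := (thm_tau S.Q S.V S.X S.good.inv).1 (S.b w) (S.f o) 1
    rw [pow_one, Nat.cast_one, mul_one] at h
    refine h.trans ?_
    exact_mod_cast hw

/-- The Burnside quotient: exponent `n`, elliptic elements survive, centralisers are locally
cyclic. -/
theorem quotient (n : ℕ) (hn : Odd n) (hb : 10 ^ 32 ≤ n) (Q V : Type) [Group Q] [MulAction Q V]
    (X : GM V) (hg : Gd Q V X n) :
    ∃ (R : Type) (_ : Group R) (π : Q →* R), Function.Surjective π ∧ (∀ r : R, r ^ n = 1) ∧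
      (∀ q, π q = 1 → q ∈ Pw Q n) ∧ (∀ (q : Q) (p : V), q • p = p → π q = 1 → q = 1) ∧
      ∀ u a b : R, u ≠ 1 → Commute a u → Commute b u →
        ∃ g : R, u ∈ Subgroup.zpowers g ∧ a ∈ Subgroup.zpowers g ∧ b ∈ Subgroup.zpowers g := by
  let S0 : Stage n Q V :=
    { Q := Q, V := V, X := X, b := MonoidHom.id Q, f := id, good := hg,
      b_surj := fun q => ⟨q, rfl⟩, b_ker := fun w hw => by rw [show w = 1 from hw]; exact one_mem _,
      f_smul := fun _ _ => rfl, inj := fun _ _ _ h => h }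
  choose nx hnx using exists_next (Q₀ := Q) (V₀ := V) hn hb
  let S : ℕ → Stage n Q V := fun k => nx^[k] S0
  have hS : ∀ k, Next (S k) (S (k + 1)) := fun k => by
    simp only [S]
    rw [Function.iterate_succ_apply']
    exact hnx _
  have bmono : ∀ k l, k ≤ l → ∀ w, (S k).b w = 1 → (S l).b w = 1 := by
    intro k l hkl g hg
    induction l, hkl using Nat.le_induction with
    | base => exact hg
    | succ l _ ih => exact (hS l).b_mono g ih
  let M : Subgroup Q :=
    { carrier := {w | ∃ k, (S k).b w = 1}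
      one_mem' := ⟨0, map_one _⟩
      mul_mem' := by
        rintro g h ⟨k, hk⟩ ⟨l, hl⟩
        refine ⟨max k l, ?_⟩
        rw [map_mul, bmono k _ (le_max_left _ _) g hk, bmono l _ (le_max_right _ _) h hl, mul_one]
      inv_mem' := by
        rintro g ⟨k, hk⟩
        exact ⟨k, by rw [map_inv, hk, inv_one]⟩ }
  have : M.Normal := by
    constructor
    rintro g ⟨k, hk⟩ h
    exact ⟨k, by rw [map_mul, map_mul, hk, mul_one, map_inv, mul_inv_cancel]⟩
  obtain ⟨o⟩ := hg.ne
  have short : ∀ w : Q, ∃ k, (S k).len o w ≤ 1 := by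
    intro w
    by_contra hcon
    push Not at hcon
    have dec : ∀ k, (S k).len o w + k ≤ (S 0).len o w := by
      intro k
      induction k with
      | zero => simp
      | succ k ih =>
        rcases (hS k).len o w with h | h
        · exact absurd h (not_le.2 (hcon _))
        · omega
    have := dec ((S 0).len o w + 1)
    omega
  have hπ : ∀ q : Q, QuotientGroup.mk' M q = 1 ↔ ∃ k, (S k).b q = 1 :=
    fun q => QuotientGroup.eq_one_iff q
  have heq : ∀ q q' : Q, QuotientGroup.mk' M q = QuotientGroup.mk' M q' ↔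
      ∃ k, (S k).b q = (S k).b q' := by
    intro q q'
    rw [← mul_inv_eq_one, ← map_inv, ← map_mul, hπ]
    simp only [map_mul, map_inv, mul_inv_eq_one]
  have emono : ∀ k l, k ≤ l → ∀ q q', (S k).b q = (S k).b q' → (S l).b q = (S l).b q' := by
    intro k l hkl q q' h
    have := bmono k l hkl (q * q'⁻¹) (by rw [map_mul, map_inv, h, mul_inv_cancel])
    rwa [map_mul, map_inv, mul_inv_eq_one] at this
  refine ⟨Q ⧸ M, inferInstance, QuotientGroup.mk' M, QuotientGroup.mk'_surjective M, ?_, ?_, ?_, ?_⟩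
  · intro r
    obtain ⟨w, rfl⟩ := QuotientGroup.mk'_surjective M r
    obtain ⟨k, hk⟩ := short w
    rw [← map_pow, hπ]
    exact ⟨k + 1, (hS k).kill o w hk⟩
  · intro q hq
    obtain ⟨k, hk⟩ := (hπ q).1 hq
    exact (S k).b_ker q hk
  · intro q p hp hq
    obtain ⟨k, hk⟩ := (hπ q).1 hq
    exact (S k).inj q p hp hk
  · intro u a b hu ha hb'
    obtain ⟨u, rfl⟩ := QuotientGroup.mk'_surjective M u
    obtain ⟨a, rfl⟩ := QuotientGroup.mk'_surjective M a
    obtain ⟨b, rfl⟩ := QuotientGroup.mk'_surjective M b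
    obtain ⟨k, hk⟩ := (heq (a * u) (u * a)).1 (by rw [map_mul, map_mul]; exact ha.eq)
    obtain ⟨l, hl⟩ := (heq (b * u) (u * b)).1 (by rw [map_mul, map_mul]; exact hb'.eq)
    have hk' := emono k _ (le_max_left k l) _ _ hk
    have hl' := emono l _ (le_max_right k l) _ _ hl
    rw [map_mul, map_mul] at hk' hl'
    have hu' : (S (max k l)).b u ≠ 1 := fun h => hu ((hπ u).2 ⟨_, h⟩)
    obtain ⟨g, hg'⟩ := (S (max k l)).good.cyc _ hu'
    obtain ⟨g, rfl⟩ := (S (max k l)).b_surj g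
    have key : ∀ c : Q, Commute ((S (max k l)).b c) ((S (max k l)).b u) →
        QuotientGroup.mk' M c ∈ Subgroup.zpowers (QuotientGroup.mk' M g) := by
      intro c hc
      obtain ⟨j, hj⟩ := Subgroup.mem_zpowers_iff.1 (hg' _ hc)
      refine Subgroup.mem_zpowers_iff.2 ⟨j, ?_⟩
      rw [← map_zpow, heq]
      exact ⟨max k l, by rw [map_zpow, hj]⟩
    exact ⟨QuotientGroup.mk' M g, key u (Commute.refl _), key a hk', key b hl'⟩

/-- In a group of prime exponent, a nontrivial element generates every cyclic group it lies in. -/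
theorem mem_zpowers_of_prime {R : Type} [Group R] {p : ℕ} (hp : p.Prime) {g u : R}
    (hg : g ^ p = 1) (hu : u ≠ 1) (h : u ∈ Subgroup.zpowers g) : g ∈ Subgroup.zpowers u := by
  have hg1 : g ≠ 1 := by
    rintro rfl
    exact hu (by simpa using h)
  have : Fact p.Prime := ⟨hp⟩
  have ho : orderOf g = p := orderOf_eq_prime hg hg1
  obtain ⟨i, rfl⟩ := Subgroup.mem_zpowers_iff.1 h
  rw [mem_zpowers_zpow_iff, ho]
  have hnd : ¬ (p : ℤ) ∣ i := by
    intro hd
    apply hu
    rw [← ho] at hd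
    exact orderOf_dvd_iff_zpow_eq_one.1 hd
  have : IsCoprime i (p : ℤ) :=
    ((Int.prime_iff_natAbs_prime.2 (by simpa using hp)).irreducible.coprime_iff_not_dvd.2 hnd).symm
  exact Int.isCoprime_iff_gcd_eq_one.1 this

/-- The Burnside quotient for a prime exponent. -/
theorem quotient_prime (p : ℕ) (hp : p.Prime) (hb : 10 ^ 32 ≤ p) (Q V : Type) [Group Q]
    [MulAction Q V] (X : GM V) (hg : Gd Q V X p) :
    ∃ (R : Type) (_ : Group R) (π : Q →* R), Function.Surjective π ∧ (∀ r : R, r ^ p = 1) ∧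
      (∀ q, π q = 1 → q ∈ Pw Q p) ∧ (∀ (q : Q) (x : V), q • x = x → π q = 1 → q = 1) ∧
      ∀ u a : R, u ≠ 1 → Commute a u → a ∈ Subgroup.zpowers u := by
  have hodd : Odd p := hp.odd_of_ne_two (by omega)
  obtain ⟨R, _, π, h1, h2, h3, h4, h5⟩ := quotient p hodd hb Q V X hg
  refine ⟨R, inferInstance, π, h1, h2, h3, h4, fun u a hu ha => ?_⟩
  obtain ⟨g, hgu, hga, -⟩ := h5 u a a hu ha ha
  exact (Subgroup.zpowers_le.2 (mem_zpowers_of_prime hp (h2 g) hu hgu)) hga

/-- Novikov-Adian: an infinite finitely generated group of finite exponent. -/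
theorem exists_burnside : ∃ (n : ℕ) (B : Type) (_ : Group B), 0 < n ∧ Group.FG B ∧ Infinite B ∧
    ∀ b : B, b ^ n = 1 := by
  obtain ⟨p, hb, hp⟩ := Nat.exists_infinite_primes (10 ^ 32)
  obtain ⟨X, hX⟩ := sBase
  obtain ⟨R, _, π, h1, h2, h3, -, h5⟩ := quotient_prime p hp hb _ _ X (hX p _ (by norm_num))
  have : Fact p.Prime := ⟨hp⟩
  set x : R := π (FreeGroup.of 0) with hx
  set y : R := π (FreeGroup.of 1) with hy
  -- the exponent sums modulo p
  have hsum : ∀ (i : ℕ) (w : FreeGroup ℕ), π w = 1 →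
      FreeGroup.lift (fun j => if j = i then Multiplicative.ofAdd (1 : ZMod p) else 1) w = 1 := by
    intro i w hw
    have hle : Pw (FreeGroup ℕ) p ≤
        (FreeGroup.lift (fun j => if j = i then Multiplicative.ofAdd (1 : ZMod p) else 1)).ker := by
      apply Subgroup.normalClosure_le_normal
      rintro _ ⟨v, rfl⟩
      simp only [SetLike.mem_coe, MonoidHom.mem_ker, map_pow]
      rw [← ofAdd_toAdd (FreeGroup.lift _ v), ← ofAdd_nsmul]
      simp
    exact hle (h3 w hw)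
  have hx1 : x ≠ 1 := by
    intro h
    have := hsum 0 _ h
    simp at this
  have hyx : y ∉ Subgroup.zpowers x := by
    intro h
    obtain ⟨j, hj⟩ := Subgroup.mem_zpowers_iff.1 h
    have := hsum 1 (FreeGroup.of 0 ^ j * (FreeGroup.of 1)⁻¹) (by
      rw [map_mul, map_inv, map_zpow, ← hx, ← hy, hj, mul_inv_cancel])
    simp at this
  let B : Subgroup R := Subgroup.closure {x, y}
  have hxB : x ∈ B := Subgroup.subset_closure (by simp)
  have hyB : y ∈ B := Subgroup.subset_closure (by simp)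
  refine ⟨p, B, inferInstance, hp.pos, ?_, ?_, fun b => Subtype.ext (by simpa using h2 b.1)⟩
  · exact (Group.fg_iff_subgroup_fg B).2 ((Subgroup.fg_iff B).2 ⟨{x, y}, rfl, Set.toFinite _⟩)
  · by_contra hfin
    have : Finite B := not_infinite_iff_finite.1 hfin
    have : Nontrivial B := ⟨⟨⟨x, hxB⟩, 1, fun h => hx1 (congrArg Subtype.val h)⟩⟩
    have hP : IsPGroup p B := fun b => ⟨1, Subtype.ext (by simpa using h2 b.1)⟩
    have := hP.center_nontrivial
    obtain ⟨⟨z, hz⟩, hz1⟩ := exists_ne (1 : Subgroup.center B)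
    have hz1' : (z : R) ≠ 1 := fun h => hz1 (Subtype.ext (Subtype.ext h))
    have hc : ∀ c : R, c ∈ B → c ∈ Subgroup.zpowers (z : R) := by
      intro c hc
      apply h5 _ _ hz1'
      have := Subgroup.mem_center_iff.1 hz ⟨c, hc⟩
      exact congrArg Subtype.val this
    exact hyx (h5 x y hx1 (Tstep.commute_of_zpowers (hc y hyB) (hc x hxB)))

end Pool.Agent.H950Z.BQ
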