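import Mathlib
import Pool.Agent.H950Z.BQ

/-! Phillips' embedding: a countable torsion group generated by elements of bounded order is a
section of a finitely generated torsion group whose laws are controlled. -/

set_option autoImplicit false

namespace Pool.Agent.H950Z.Phil

open RegularWreathProduct

theorem map_lift {G H : Type*} [Group G] [Group H] (φ : G →* H) (f : ℕ → G) (w : FreeGroup ℕ) :
    φ (FreeGroup.lift f w) = FreeGroup.lift (fun i => φ (f i)) w := by
  have : φ.comp (FreeGroup.lift f) = FreeGroup.lift (fun i => φ (f i)) := by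
    ext i; simp
  exact DFunLike.congr_fun this w

theorem exists_sparse (B : Type) [Group B] [Countable B] [Infinite B] :
    ∃ b : ℕ → B, Function.Injective b ∧ ∀ g : B, g ≠ 1 → {i | ∃ j, b i = g * b j}.Finite := by
  classical
  obtain ⟨e, he⟩ := exists_surjective_nat B
  obtain ⟨s, -, hs⟩ := exists_seq_of_forall_finset_exists (fun _ : ℕ × B => True)
    (fun x y => x.1 < y.1 ∧ y.2 ≠ x.2 ∧ ∀ l ≤ y.1, y.2 ≠ e l * x.2 ∧ y.2 ≠ (e l)⁻¹ * x.2) (by
      intro t _
      set k := t.sup (fun x => x.1) + 1 with hk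
      obtain ⟨y, hy⟩ := Infinite.exists_notMem_finset
        (t.image (fun x => x.2) ∪ ((t ×ˢ Finset.range (k + 1)).image (fun z => e z.2 * z.1.2) ∪
          (t ×ˢ Finset.range (k + 1)).image (fun z => (e z.2)⁻¹ * z.1.2)))
      refine ⟨(k, y), trivial, fun x hx => ⟨?_, ?_, fun l hl => ⟨?_, ?_⟩⟩⟩
      · have := Finset.le_sup (f := fun x : ℕ × B => x.1) hx
        simp only at this ⊢
        omega
      · intro h
        apply hy
        simp only [Finset.mem_union, Finset.mem_image]
        exact Or.inl ⟨x, hx, h.symm⟩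
      · intro h
        apply hy
        simp only [Finset.mem_union, Finset.mem_image]
        exact Or.inr (Or.inl ⟨(x, l), by simp [hx]; simpa using Nat.lt_succ_of_le hl, h.symm⟩)
      · intro h
        apply hy
        simp only [Finset.mem_union, Finset.mem_image]
        exact Or.inr (Or.inr ⟨(x, l), by simp [hx]; simpa using Nat.lt_succ_of_le hl, h.symm⟩))
  have hmono : StrictMono (fun n => (s n).1) := fun m n h => (hs m n h).1
  have hle : ∀ n, n ≤ (s n).1 := fun n => hmono.le_apply
  refine ⟨fun n => (s n).2, ?_, ?_⟩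
  · intro m n h
    rcases lt_trichotomy m n with h' | h' | h'
    · exact absurd h.symm (hs m n h').2.1
    · exact h'
    · exact absurd h (hs n m h').2.1
  · intro g hg
    obtain ⟨l, rfl⟩ := he g
    refine (Set.finite_lt_nat l).subset ?_
    rintro i ⟨j, hij⟩
    simp only [Set.mem_setOf_eq] at hij ⊢
    by_contra hil
    push Not at hil
    rcases lt_trichotomy i j with h' | h' | h'
    · refine ((hs i j h').2.2 l (hil.trans (h'.le.trans (hle j)))).2 ?_
      rw [hij]; group
    · subst h'
      exact hg (by simpa using hij.symm)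
    · exact ((hs j i h').2.2 l (hil.trans (hle i))).1 hij

theorem lift_base {H B : Type} [Group H] [Group B] (g : ℕ → RegularWreathProduct H B)
    (hg : ∀ i, (g i).right = 1) (w : FreeGroup ℕ) :
    (FreeGroup.lift g w).right = 1 ∧
      ∀ x, (FreeGroup.lift g w).left x = FreeGroup.lift (fun i => (g i).left x) w := by
  induction w using FreeGroup.induction_on with
  | C1 => simp
  | of i => simp [hg]
  | inv_of i _ => simp [hg]
  | mul u v hu hv =>
    refine ⟨by simp [hu.1, hv.1], fun x => ?_⟩
    simp [hu.1, hu.2, hv.2]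

theorem pow_base {H B : Type} [Group H] [Group B] (g : RegularWreathProduct H B)
    (hg : g.right = 1) (k : ℕ) : (g ^ k).right = 1 ∧ ∀ x, (g ^ k).left x = (g.left x) ^ k := by
  induction k with
  | zero => simp
  | succ k ih =>
    refine ⟨by simp [pow_succ, ih.1, hg], fun x => ?_⟩
    simp [pow_succ, ih.1, ih.2]

theorem phillips {H : Type} [Group H] (m : ℕ) (hm : 0 < m) (S : Set H) (hS : S.Countable)
    (hgen : Subgroup.closure S = ⊤) (hh : ∀ s ∈ S, s ^ m = 1) (htor : ∀ x : H, IsOfFinOrder x) :
    ∃ (n : ℕ) (G : Type) (_ : Group G), 0 < n ∧ Group.FG G ∧ (∀ g : G, IsOfFinOrder g) ∧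
      (∀ w : FreeGroup ℕ, (∀ f : ℕ → G, FreeGroup.lift f w = 1) →
        ∀ f : ℕ → H, FreeGroup.lift f w = 1) ∧
      (∀ w : FreeGroup ℕ, (∀ f : ℕ → H, FreeGroup.lift f w = 1) →
        ∀ f : ℕ → G, FreeGroup.lift (fun i => f i ^ n) w = 1) := by
  classical
  obtain ⟨n, B, _, hn, hfg, hinf, hB⟩ := Pool.Agent.H950Z.BQ.exists_burnside
  obtain ⟨T, hT⟩ := Group.fg_def.1 hfg
  have hcB : Countable B := by
    have h1 : Function.Surjective (FreeGroup.lift (fun t : T => (t : B))) := by
      rw [← MonoidHom.range_eq_top, FreeGroup.range_lift_eq_closure]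
      rw [← hT]; congr 1; ext x; simp
    exact h1.countable
  obtain ⟨b, hb, hsp⟩ := exists_sparse B
  obtain ⟨h, hr⟩ := (hS.insert 1).exists_eq_range ⟨1, Set.mem_insert _ _⟩
  have hhm : ∀ i, h i ^ m = 1 := by
    intro i
    have : h i ∈ insert 1 S := hr ▸ Set.mem_range_self i
    rcases this with h1 | h1
    · simp [h1]
    · exact hh _ h1
  set f : B → H := Function.extend b h 1 with hf
  have hfb : ∀ i, f (b i) = h i := fun i => hb.extend_apply _ _ _
  have hf1 : ∀ x, f x ≠ 1 → ∃ i, b i = x := by
    intro x hx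
    by_contra hc
    exact hx (by rw [hf, Function.extend_apply' _ _ _ hc]; rfl)
  have hfm : ∀ x, f x ^ m = 1 := by
    intro x
    by_cases hx : f x = 1
    · simp [hx]
    · obtain ⟨i, rfl⟩ := hf1 x hx
      rw [hfb, hhm]
  set F : RegularWreathProduct H B := ⟨f, 1⟩ with hF
  set G : Subgroup (RegularWreathProduct H B) :=
    Subgroup.closure (insert F ((inl : B →* RegularWreathProduct H B) '' (T : Set B))) with hG
  have hFG : F ∈ G := Subgroup.subset_closure (Set.mem_insert _ _)
  have hinl : ∀ c : B, (inl c : RegularWreathProduct H B) ∈ G := by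
    intro c
    have : c ∈ Subgroup.closure (T : Set B) := hT ▸ Subgroup.mem_top c
    induction this using Subgroup.closure_induction with
    | mem x hx => exact Subgroup.subset_closure (Set.mem_insert_of_mem _ ⟨x, hx, rfl⟩)
    | one => simp
    | mul x y _ _ hx hy => rw [map_mul]; exact G.mul_mem hx hy
    | inv x _ hx => rw [map_inv]; exact G.inv_mem hx
  have hP : ∀ g ∈ G, ∃ Cs : Finset B, ∀ x,
      g.left x ∈ Subgroup.closure {y | ∃ c ∈ Cs, y = f (c⁻¹ * x)} := by
    intro g hg
    induction hg using Subgroup.closure_induction with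
    | mem x hx =>
      rcases hx with rfl | ⟨c, -, rfl⟩
      · exact ⟨{1}, fun x => Subgroup.subset_closure ⟨1, by simp, by simp [hF]⟩⟩
      · exact ⟨∅, fun x => by simp⟩
    | one => exact ⟨∅, fun x => by simp⟩
    | mul u v _ _ hu hv =>
      obtain ⟨Cu, hu⟩ := hu
      obtain ⟨Cv, hv⟩ := hv
      refine ⟨Cu ∪ Cv.image (fun c => u.right * c), fun x => ?_⟩
      simp only [mul_left, Pi.mul_apply]
      refine Subgroup.mul_mem _ (Subgroup.closure_mono ?_ (hu x))
        (Subgroup.closure_mono ?_ (hv _))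
      · rintro y ⟨c, hc, rfl⟩
        exact ⟨c, Finset.mem_union_left _ hc, rfl⟩
      · rintro y ⟨c, hc, rfl⟩
        exact ⟨u.right * c, Finset.mem_union_right _ (Finset.mem_image_of_mem _ hc),
          by simp [mul_assoc]⟩
    | inv u _ hu =>
      obtain ⟨Cu, hu⟩ := hu
      refine ⟨Cu.image (fun c => u.right⁻¹ * c), fun x => ?_⟩
      simp only [inv_left, Pi.inv_apply]
      refine Subgroup.inv_mem _ (Subgroup.closure_mono ?_ (hu _))
      rintro y ⟨c, hc, rfl⟩
      exact ⟨u.right⁻¹ * c, Finset.mem_image_of_mem _ hc, by simp [mul_assoc]⟩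
  have hrn : ∀ g : RegularWreathProduct H B, (g ^ n).right = 1 := by
    intro g
    have := map_pow (rightHom : RegularWreathProduct H B →* B) g n
    simpa [hB] using this
  refine ⟨n, G, inferInstance, hn, ?_, ?_, ?_, ?_⟩
  · rw [Group.fg_iff_subgroup_fg, Subgroup.fg_iff]
    exact ⟨_, rfl, (T.finite_toSet.image _).insert _⟩
  · intro g
    have hgn : (g : RegularWreathProduct H B) ^ n ∈ G := G.pow_mem g.2 n
    set φ := (g : RegularWreathProduct H B) ^ n with hφ
    obtain ⟨Cs, hCs⟩ := hP φ hgn
    set X : Set B := {x | ∃ c ∈ Cs, ∃ c' ∈ Cs, c ≠ c' ∧ f (c⁻¹ * x) ≠ 1 ∧ f (c'⁻¹ * x) ≠ 1}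
      with hX
    have hXf : X.Finite := by
      have : X ⊆ ⋃ c ∈ (Cs : Set B), ⋃ c' ∈ ((Cs.erase c : Finset B) : Set B),
          (fun i => c * b i) '' {i | ∃ j, b i = (c⁻¹ * c') * b j} := by
        rintro x ⟨c, hc, c', hc', hne, h1, h2⟩
        obtain ⟨i, hi⟩ := hf1 _ h1
        obtain ⟨j, hj⟩ := hf1 _ h2
        simp only [Set.mem_iUnion]
        refine ⟨c, hc, c', by simp [hc', hne.symm], i, ⟨j, ?_⟩, ?_⟩
        · rw [hi, hj]; group
        · simp only [hi]; group
      refine Set.Finite.subset ?_ this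
      refine Cs.finite_toSet.biUnion fun c _ => (Finset.finite_toSet _).biUnion fun c' hc' => ?_
      refine Set.Finite.image _ (hsp _ ?_)
      intro h1
      have : c' ≠ c := (Finset.mem_erase.1 hc').1
      exact this (by rw [inv_mul_eq_one] at h1; exact h1.symm)
    set N := m * ∏ x ∈ hXf.toFinset, orderOf (φ.left x) with hN
    have hNpos : 0 < N := Nat.mul_pos hm (Finset.prod_pos fun x _ => (htor _).orderOf_pos)
    have hφN : φ ^ N = 1 := by
      obtain ⟨h1, h2⟩ := pow_base φ (hrn _) N
      ext x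
      · rw [h2]
        simp only [one_left, Pi.one_apply]
        by_cases hx : x ∈ X
        · refine orderOf_dvd_iff_pow_eq_one.1 (Dvd.dvd.mul_left ?_ _)
          exact Finset.dvd_prod_of_mem (fun x => orderOf (φ.left x)) (hXf.mem_toFinset.2 hx)
        · have : ∃ y0 : H, y0 ^ m = 1 ∧
              {y | ∃ c ∈ Cs, y = f (c⁻¹ * x)} ⊆ (Subgroup.zpowers y0 : Set H) := by
            by_cases hall : ∀ c ∈ Cs, f (c⁻¹ * x) = 1
            · refine ⟨1, one_pow _, ?_⟩
              rintro y ⟨c, hc, rfl⟩
              simp [hall c hc]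
            · push Not at hall
              obtain ⟨c0, hc0, h0⟩ := hall
              refine ⟨f (c0⁻¹ * x), hfm _, ?_⟩
              rintro y ⟨c, hc, rfl⟩
              by_cases hcc : c = c0
              · subst hcc; exact Subgroup.mem_zpowers _
              · by_cases h1 : f (c⁻¹ * x) = 1
                · simp [h1]
                · exact absurd ⟨c, hc, c0, hc0, hcc, h1, h0⟩ hx
          obtain ⟨y0, hy0, hsub⟩ := this
          obtain ⟨k, hk⟩ := (Subgroup.closure_le _).2 hsub (hCs x)
          rw [← hk, hN, pow_mul]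
          simp only
          rw [← zpow_natCast (y0 ^ k), ← zpow_mul, mul_comm, zpow_mul, zpow_natCast, hy0]
          simp
      · rw [h1]; rfl
    refine isOfFinOrder_iff_pow_eq_one.2 ⟨n * N, Nat.mul_pos hn hNpos, ?_⟩
    apply Subtype.ext
    rw [Subgroup.coe_pow, pow_mul, ← hφ, hφN]; rfl
  · intro w hw f0
    have hsurj : ∀ y : H, ∃ g : G, (g : RegularWreathProduct H B).right = 1 ∧
        (g : RegularWreathProduct H B).left 1 = y := by
      intro y
      have hy : y ∈ Subgroup.closure S := hgen ▸ Subgroup.mem_top y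
      induction hy using Subgroup.closure_induction with
      | mem x hx =>
        have : x ∈ Set.range h := hr ▸ Set.mem_insert_of_mem _ hx
        obtain ⟨i, rfl⟩ := this
        refine ⟨⟨inl (b i)⁻¹ * F * inl (b i),
          G.mul_mem (G.mul_mem (hinl _) hFG) (hinl _)⟩, by simp [hF], ?_⟩
        simp [hF, hfb]
      | one => exact ⟨1, by simp, by simp⟩
      | mul x y _ _ hx hy =>
        obtain ⟨u, hu1, hu2⟩ := hx
        obtain ⟨v, hv1, hv2⟩ := hy
        exact ⟨u * v, by simp [hu1, hv1], by simp [hu1, hu2, hv2]⟩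
      | inv x _ hx =>
        obtain ⟨u, hu1, hu2⟩ := hx
        exact ⟨u⁻¹, by simp [hu1], by simp [hu1, hu2]⟩
    choose g hg1 hg2 using hsurj
    have h1 := congrArg G.subtype (hw (fun i => g (f0 i)))
    rw [map_lift, map_one] at h1
    have h2 := (lift_base (fun i => G.subtype (g (f0 i))) (fun i => hg1 _) w).2 1
    rw [h1] at h2
    simp only [Subgroup.coe_subtype, hg2] at h2
    exact h2.symm
  · intro w hw f0
    apply Subtype.ext
    have h1 := map_lift G.subtype (fun i => f0 i ^ n) w
    obtain ⟨h2, h3⟩ := lift_base (fun i => G.subtype (f0 i ^ n)) (fun i => by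
      rw [map_pow]; exact hrn _) w
    rw [← h1] at h2 h3
    ext x
    · have := h3 x
      rw [hw] at this
      exact this
    · exact h2

end Pool.Agent.H950Z.Phil
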