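import Mathlib
import Pool.Agent.H950Z.Phil

/-! A countable torsion group generated by elements of order dividing `2p`, with a nontrivial law,
all of whose laws hold in every extension of an abelian group of exponent `p` by an abelian
group. -/

set_option autoImplicit false

namespace Pool.Agent.H950Z.ApA

abbrev C : Type := AddCircle (1 : ℚ)
abbrev A : Type := ℕ →₀ C

instance : Countable C :=
  (QuotientAddGroup.mk_surjective (s := AddSubgroup.zmultiples (1 : ℚ))).countable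

theorem C_tor (z : C) : IsOfFinAddOrder z := by
  obtain ⟨q, rfl⟩ := QuotientAddGroup.mk_surjective z
  refine isOfFinAddOrder_iff_nsmul_eq_zero.2 ⟨q.den, q.pos, ?_⟩
  rw [← QuotientAddGroup.mk_nsmul, QuotientAddGroup.eq_zero_iff]
  refine ⟨q.num, ?_⟩
  simp [Rat.den_mul_eq_num]

theorem A_tor (a : A) : IsOfFinAddOrder a := by
  induction a using Finsupp.induction_linear with
  | zero => exact IsOfFinAddOrder.zero
  | add f g hf hg => exact hf.add hg
  | single i c => exact (Finsupp.singleAddHom i : C →+ A).isOfFinAddOrder (C_tor c)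

noncomputable def refl (a : A) : Equiv.Perm (A × C) :=
  Function.Involutive.toPerm (fun x => (a - x.1, x.2)) (fun x => by simp)

noncomputable def shift (F : A → C) : Equiv.Perm (A × C) where
  toFun x := (x.1, x.2 + F x.1)
  invFun x := (x.1, x.2 - F x.1)
  left_inv x := by simp
  right_inv x := by simp

@[simp] theorem refl_apply (a α : A) (z : C) : refl a (α, z) = (a - α, z) := rfl
@[simp] theorem shift_apply (F : A → C) (α : A) (z : C) : shift F (α, z) = (α, z + F α) := rfl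

theorem shift_add (F G : A → C) : shift (F + G) = shift F * shift G := by
  ext ⟨α, z⟩ : 1
  simp only [shift_apply, Equiv.Perm.coe_mul, Function.comp_apply, Pi.add_apply, Prod.mk.injEq,
    true_and]
  abel

theorem shift_zero : shift 0 = 1 := by
  ext ⟨α, z⟩ : 1
  simp

open Classical in
def Gens (p : ℕ) : Set (Equiv.Perm (A × C)) :=
  Set.range refl ∪ {σ | ∃ (a : A) (c : C), p • c = 0 ∧ σ = shift (Pi.single a c)}

def HH (p : ℕ) : Subgroup (Equiv.Perm (A × C)) := Subgroup.closure (Gens p)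

def Aff (p : ℕ) (σ : Equiv.Perm (A × C)) (e : ℤ) (a : A) : Prop :=
  ∃ F : A → C, (∀ α, p • F α = 0) ∧ ∀ α z, σ (α, z) = (e • α + a, z + F α)

theorem Aff.one (p : ℕ) : Aff p 1 1 0 := ⟨0, by simp, by simp⟩

theorem Aff.mul {p : ℕ} {σ τ : Equiv.Perm (A × C)} {e e' : ℤ} {a a' : A} (h : Aff p σ e a)
    (h' : Aff p τ e' a') : Aff p (σ * τ) (e * e') (e • a' + a) := by
  obtain ⟨F, hF, h⟩ := h
  obtain ⟨F', hF', h'⟩ := h'
  refine ⟨fun α => F' α + F (e' • α + a'), fun α => by simp [hF, hF'], fun α z => ?_⟩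
  simp only [Equiv.Perm.coe_mul, Function.comp_apply, h, h', Prod.mk.injEq]
  exact ⟨by rw [smul_add, mul_smul, add_assoc], by rw [add_assoc]⟩

theorem Aff.inv {p : ℕ} {σ : Equiv.Perm (A × C)} {e : ℤ} {a : A} (h : Aff p σ e a)
    (he : e * e = 1) : Aff p σ⁻¹ e (-(e • a)) := by
  obtain ⟨F, hF, h⟩ := h
  refine ⟨fun α => -F (e • α + -(e • a)), fun α => by rw [smul_neg, hF, neg_zero],
    fun α z => ?_⟩
  rw [Equiv.Perm.inv_eq_iff_eq, h]
  simp only [Prod.mk.injEq]
  refine ⟨?_, by abel⟩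
  rw [smul_add, smul_neg, smul_smul, smul_smul, he, one_smul, one_smul]
  abel

theorem Aff.pow {p : ℕ} {σ : Equiv.Perm (A × C)} {a : A} (h : Aff p σ 1 a) (k : ℕ) :
    Aff p (σ ^ k) 1 (k • a) := by
  induction k with
  | zero => simpa using Aff.one p
  | succ k ih =>
    have := ih.mul h
    rw [pow_succ, succ_nsmul, add_comm]
    rwa [one_smul, mul_one] at this

theorem Aff.pow_p {p : ℕ} {σ : Equiv.Perm (A × C)} (h : Aff p σ 1 0) : σ ^ p = 1 := by
  obtain ⟨F, hF, h⟩ := h
  have : ∀ (k : ℕ) α z, (σ ^ k) (α, z) = (α, z + k • F α) := by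
    intro k
    induction k with
    | zero => simp
    | succ k ih =>
      intro α z
      rw [pow_succ, Equiv.Perm.coe_mul, Function.comp_apply, h, one_smul, add_zero, ih,
        succ_nsmul]
      simp only [Prod.mk.injEq, true_and]
      abel
  ext ⟨α, z⟩ : 1
  rw [this, hF]
  simp

theorem mem_aff {p : ℕ} {σ : Equiv.Perm (A × C)} (h : σ ∈ HH p) :
    ∃ e a, e * e = 1 ∧ Aff p σ e a := by
  classical
  induction h using Subgroup.closure_induction with
  | mem x hx =>
    rcases hx with ⟨a, rfl⟩ | ⟨a, c, hc, rfl⟩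
    · exact ⟨-1, a, by norm_num, 0, by simp, fun α z => by simp; abel⟩
    · refine ⟨1, 0, by norm_num, _, fun α => ?_, fun α z => by simp; rfl⟩
      by_cases h : α = a
      · subst h; simpa using hc
      · simp [Pi.single_eq_of_ne h]
  | one => exact ⟨1, 0, by norm_num, Aff.one p⟩
  | mul x y _ _ hx hy =>
    obtain ⟨e, a, he, h⟩ := hx
    obtain ⟨e', a', he', h'⟩ := hy
    exact ⟨_, _, by rw [mul_mul_mul_comm, he, he', one_mul], h.mul h'⟩
  | inv x _ hx =>
    obtain ⟨e, a, he, h⟩ := hx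
    exact ⟨_, _, he, h.inv he⟩

theorem sq_aff {p : ℕ} {σ : Equiv.Perm (A × C)} (h : σ ∈ HH p) : ∃ a, Aff p (σ ^ 2) 1 a := by
  obtain ⟨e, a, he, h⟩ := mem_aff h
  have := h.mul h
  rw [he, ← pow_two] at this
  exact ⟨_, this⟩

theorem HH_tor {p : ℕ} (hp : 0 < p) (σ : HH p) : IsOfFinOrder σ := by
  obtain ⟨a, ha⟩ := sq_aff σ.2
  obtain ⟨k, hk, hka⟩ := isOfFinAddOrder_iff_nsmul_eq_zero.1 (A_tor a)
  have h1 := ha.pow k
  rw [hka] at h1
  refine isOfFinOrder_iff_pow_eq_one.2 ⟨2 * k * p, by positivity, ?_⟩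
  apply Subtype.ext
  rw [Subgroup.coe_pow, pow_mul, pow_mul, h1.pow_p]; rfl

theorem HH_law {p : ℕ} (u v : HH p) :
    (u ^ 2 * v ^ 2 * (u ^ 2)⁻¹ * (v ^ 2)⁻¹) ^ p = 1 := by
  obtain ⟨a, ha⟩ := sq_aff u.2
  obtain ⟨b, hb⟩ := sq_aff v.2
  have h1 := ((ha.mul hb).mul (ha.inv (by norm_num))).mul (hb.inv (by norm_num))
  apply Subtype.ext
  have h2 : Aff p ((u : Equiv.Perm (A × C)) ^ 2 * (v : Equiv.Perm (A × C)) ^ 2 *
      ((u : Equiv.Perm (A × C)) ^ 2)⁻¹ * ((v : Equiv.Perm (A × C)) ^ 2)⁻¹) 1 0 := by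
    convert h1 using 1
    · simp
    · simp only [mul_one, one_smul]; abel
  simpa using h2.pow_p

theorem gens_pow {p : ℕ} {σ : Equiv.Perm (A × C)} (h : σ ∈ Gens p) : σ ^ (2 * p) = 1 := by
  classical
  rcases h with ⟨a, rfl⟩ | ⟨a, c, hc, rfl⟩
  · have : refl a ^ 2 = 1 := by
      ext ⟨α, z⟩ : 1
      simp [pow_two]
    rw [pow_mul, this, one_pow]
  · have : Aff p (shift (Pi.single a c)) 1 0 := by
      refine ⟨_, fun α => ?_, fun α z => by simp; rfl⟩
      by_cases h : α = a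
      · subst h; simpa using hc
      · simp [Pi.single_eq_of_ne h]
    rw [mul_comm, pow_mul, this.pow_p, one_pow]

theorem gens_countable (p : ℕ) : (Gens p).Countable := by
  classical
  refine (Set.countable_range _).union ?_
  refine (Set.countable_range (fun x : A × C => shift (Pi.single x.1 x.2))).mono ?_
  rintro σ ⟨a, c, -, rfl⟩
  exact ⟨(a, c), rfl⟩

theorem exists_char {M : Type*} [Group M] (hM : ∀ x y : M, x * y = y * x) (x : M) :
    ∃ l : M → C, (∀ a b, l (a * b) = l a + l b) ∧ (l x = 0 → x = 1) := by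
  by_cases hx : x = 1
  · exact ⟨0, by simp, fun _ => hx⟩
  let _ : CommGroup M := { (inferInstance : Group M) with mul_comm := hM }
  obtain ⟨c, hc⟩ := CharacterModule.exists_character_apply_ne_zero_of_ne_zero
    (A := Additive M) (a := Additive.ofMul x) (by simpa using hx)
  exact ⟨fun a => c (Additive.ofMul a), fun a b => by simp only [ofMul_mul, map_add],
    fun h => absurd h hc⟩

theorem exists_psi {M : Type*} [Group M] (hM : ∀ x y : M, x * y = y * x) (S : Finset M) :
    ∃ ψ : M → A, (∀ a b, ψ (a * b) = ψ a + ψ b) ∧ Set.InjOn ψ S := by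
  classical
  choose l hl1 hl2 using exists_char hM
  set D : Finset M := (S ×ˢ S).image (fun x => x.1 * x.2⁻¹) with hD
  obtain ⟨idx, hidx⟩ := Set.countable_iff_exists_injOn.1 D.countable_toSet
  refine ⟨fun q => ∑ d ∈ D, Finsupp.single (idx d) (l d q), fun a b => ?_, ?_⟩
  · simp only [hl1, Finsupp.single_add, Finset.sum_add_distrib]
  · intro a ha b hb hab
    have hd : a * b⁻¹ ∈ D := Finset.mem_image.2 ⟨(a, b), Finset.mem_product.2 ⟨ha, hb⟩, rfl⟩
    have key : ∀ q, (∑ d ∈ D, Finsupp.single (idx d) (l d q) : A) (idx (a * b⁻¹)) =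
        l (a * b⁻¹) q := by
      intro q
      rw [Finsupp.finset_sum_apply, Finset.sum_eq_single (a * b⁻¹)]
      · simp
      · intro d hd' hne
        rw [Finsupp.single_apply, if_neg]
        intro h
        exact hne (hidx hd' hd h)
      · intro h; exact absurd hd h
    have h1 : l (a * b⁻¹) a = l (a * b⁻¹) b := by
      rw [← key a, ← key b]
      exact congrArg (fun f : A => f (idx (a * b⁻¹))) hab
    have h2 : l (a * b⁻¹) (a * b⁻¹) = 0 := by
      have := hl1 (a * b⁻¹) (a * b⁻¹) b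
      rw [inv_mul_cancel_right, h1] at this
      simpa using this
    exact mul_inv_eq_one.1 (hl2 _ h2)

theorem track {X Y : Type*} (ρ : ℕ → Equiv.Perm X) (w : FreeGroup ℕ) (x : X) :
    ∃ T : Set X, T.Finite ∧ ∀ (ρ' : ℕ → Equiv.Perm Y) (θ : X → Y),
      (∀ i, ∀ t ∈ T, θ (ρ i t) = ρ' i (θ t)) →
        θ (FreeGroup.lift ρ w x) = FreeGroup.lift ρ' w (θ x) := by
  induction w using FreeGroup.induction_on generalizing x with
  | C1 => exact ⟨∅, Set.finite_empty, by simp⟩
  | of i => exact ⟨{x}, Set.finite_singleton _, fun ρ' θ h => by simpa using h i x rfl⟩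
  | inv_of i _ =>
    refine ⟨{(ρ i)⁻¹ x}, Set.finite_singleton _, fun ρ' θ h => ?_⟩
    have := h i _ rfl
    simp only [map_inv, FreeGroup.lift_apply_of]
    rw [eq_comm, Equiv.Perm.inv_eq_iff_eq, ← this]
    simp
  | mul u v hu hv =>
    obtain ⟨Tv, hTv, hv⟩ := hv x
    obtain ⟨Tu, hTu, hu⟩ := hu (FreeGroup.lift ρ v x)
    refine ⟨Tu ∪ Tv, hTu.union hTv, fun ρ' θ h => ?_⟩
    simp only [map_mul, Equiv.Perm.coe_mul, Function.comp_apply]
    rw [hu ρ' θ (fun i t ht => h i t (Or.inl ht)), hv ρ' θ (fun i t ht => h i t (Or.inr ht))]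

theorem law_pass (p : ℕ) (w : FreeGroup ℕ) (hw : ∀ f : ℕ → HH p, FreeGroup.lift f w = 1)
    (K : Type*) [Group K] (N : Subgroup K) [hN : N.Normal]
    (h1 : ∀ x ∈ N, ∀ y ∈ N, x * y = y * x) (h2 : ∀ x ∈ N, x ^ p = 1)
    (h3 : ∀ x y : K ⧸ N, x * y = y * x) (f : ℕ → K) : FreeGroup.lift f w = 1 := by
  classical
  set k := FreeGroup.lift f w with hk
  let s : K ⧸ N → K := Quotient.out
  have hs : ∀ q, (s q : K ⧸ N) = q := fun q => QuotientGroup.out_eq' q
  let coc : K → K ⧸ N → N := fun g q => ⟨(s ((g : K ⧸ N) * q))⁻¹ * g * s q, by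
    rw [← QuotientGroup.eq_one_iff]
    simp [hs, mul_assoc]⟩
  have hcoc : ∀ g h q, coc (g * h) q = coc g ((h : K ⧸ N) * q) * coc h q := by
    intro g h q
    apply Subtype.ext
    simp [coc, mul_assoc]
  obtain ⟨l, hl1, hl2⟩ := exists_char (M := N) (fun x y => Subtype.ext (h1 _ x.2 _ y.2)) (coc k 1)
  have hl0 : l 1 = 0 := by simpa using hl1 1 1
  have hlp : ∀ y, p • l y = 0 := by
    intro y
    have : ∀ j : ℕ, l (y ^ j) = j • l y := by
      intro j
      induction j with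
      | zero => simpa using hl0
      | succ j ih => rw [pow_succ, hl1, ih, succ_nsmul]
    rw [← this, show y ^ p = 1 from Subtype.ext (h2 _ y.2), hl0]
  let ρ0 : K →* Function.End ((K ⧸ N) × C) :=
    { toFun := fun g x => ((g : K ⧸ N) * x.1, x.2 + l (coc g x.1))
      map_one' := by
        funext x
        have : coc 1 x.1 = 1 := Subtype.ext (by simp [coc])
        simp [this, hl0, Function.End.one_def]
      map_mul' := fun g h => by
        funext x
        simp only [Function.End.mul_def, Function.comp_apply, hcoc, hl1, QuotientGroup.mk_mul,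
          mul_assoc, Prod.mk.injEq, true_and]
        abel }
  let ρ : K →* Equiv.Perm ((K ⧸ N) × C) := ρ0.toHomPerm
  have hρ : ∀ g x, ρ g x = ((g : K ⧸ N) * x.1, x.2 + l (coc g x.1)) := fun g x => rfl
  obtain ⟨T, hT, htr⟩ := track (Y := A × C) (fun i => ρ (f i)) w (1, 0)
  set S : Finset (K ⧸ N) := insert 1 (insert (k : K ⧸ N) (hT.toFinset.image Prod.fst)) with hS
  obtain ⟨ψ, hψ, hinj⟩ := exists_psi h3 S
  let F : ℕ → A → C := fun i => ∑ q ∈ S, Pi.single (ψ q) (l (coc (f i) q))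
  have hF : ∀ i, ∀ q ∈ S, F i (ψ q) = l (coc (f i) q) := by
    intro i q hq
    simp only [F, Finset.sum_apply]
    rw [Finset.sum_eq_single q]
    · simp
    · intro d hd hne
      rw [Pi.single_eq_of_ne]
      intro h
      exact hne (hinj hq hd h).symm
    · intro h; exact absurd hq h
  have hFH : ∀ i, shift (F i) ∈ HH p := by
    intro i
    refine Finset.sum_induction _ (fun G => shift G ∈ HH p) ?_ ?_ ?_
    · intro a b ha hb
      rw [shift_add]; exact (HH p).mul_mem ha hb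
    · rw [shift_zero]; exact (HH p).one_mem
    · intro q _
      exact Subgroup.subset_closure (Or.inr ⟨_, _, hlp _, rfl⟩)
  have hrefl : ∀ a, refl a ∈ HH p := fun a => Subgroup.subset_closure (Or.inl ⟨a, rfl⟩)
  let h : ℕ → HH p := fun i => ⟨refl (ψ (f i)) * refl 0 * shift (F i),
    (HH p).mul_mem ((HH p).mul_mem (hrefl _) (hrefl _)) (hFH i)⟩
  have h4 := htr (fun i => (HH p).subtype (h i)) (fun x => (ψ x.1, x.2)) (by
    rintro i ⟨q, z⟩ ht
    have hq : q ∈ S := by
      rw [hS]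
      refine Finset.mem_insert_of_mem (Finset.mem_insert_of_mem ?_)
      exact Finset.mem_image.2 ⟨(q, z), hT.mem_toFinset.2 ht, rfl⟩
    simp [hρ, h, hψ, hF i q hq])
  rw [← Phil.map_lift, ← Phil.map_lift, hw, map_one, ← hk, hρ] at h4
  simp only [mul_one, zero_add, Equiv.Perm.coe_one, id_eq, Prod.mk.injEq] at h4
  have h5 : (k : K ⧸ N) = 1 := hinj (by simp [hS]) (by simp [hS]) h4.1
  have h6 := congrArg Subtype.val (hl2 h4.2)
  simp only [coc, h5, mul_one, OneMemClass.coe_one] at h6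
  have : k = s 1 * ((s 1)⁻¹ * k * s 1) * (s 1)⁻¹ := by group
  rw [this, h6]; simp

/-- shear permutations of the integer plane -/
def px (m : ℤ) : Equiv.Perm (ℤ × ℤ) where
  toFun x := (x.1 + m, x.2)
  invFun x := (x.1 - m, x.2)
  left_inv x := by simp
  right_inv x := by simp

def py (m : ℤ) : Equiv.Perm (ℤ × ℤ) where
  toFun x := (x.1, x.2 + m * x.1)
  invFun x := (x.1, x.2 - m * x.1)
  left_inv x := by simp
  right_inv x := by simp

theorem px_pow (m : ℤ) (k : ℕ) : px m ^ k = px (k * m) := by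
  induction k with
  | zero => ext ⟨a, b⟩ : 1; simp [px]
  | succ k ih =>
    rw [pow_succ, ih]
    ext ⟨a, b⟩ : 1
    simp [px]; ring

theorem py_pow (m : ℤ) (k : ℕ) : py m ^ k = py (k * m) := by
  induction k with
  | zero => ext ⟨a, b⟩ : 1; simp [py]
  | succ k ih =>
    rw [pow_succ, ih]
    ext ⟨a, b⟩ : 1
    simp [py]; ring

theorem comm_pow (m : ℤ) (k : ℕ) (a b : ℤ) :
    ((px m * py m * (px m)⁻¹ * (py m)⁻¹) ^ k) (a, b) = (a, b - k * m ^ 2) := by
  induction k generalizing b with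
  | zero => simp
  | succ k ih =>
    rw [pow_succ, Equiv.Perm.coe_mul, Function.comp_apply]
    have : (px m * py m * (px m)⁻¹ * (py m)⁻¹) (a, b) = (a, b - m ^ 2) := by
      simp [px, py, Equiv.Perm.inv_def]; ring
    rw [this, ih]
    simp; ring

theorem main (p : ℕ) (hp : 0 < p) :
    ∃ (G : Type) (_ : Group G), Group.FG G ∧ (∀ g : G, IsOfFinOrder g) ∧
      (∃ w : FreeGroup ℕ, w ≠ 1 ∧ ∀ f : ℕ → G, FreeGroup.lift f w = 1) ∧
      ∀ w : FreeGroup ℕ, (∀ f : ℕ → G, FreeGroup.lift f w = 1) →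
        ∀ f : ℕ → HH p, FreeGroup.lift f w = 1 := by
  obtain ⟨n, G, _, hn, h1, h2, h3, h4⟩ := Phil.phillips (H := HH p) (2 * p) (by omega)
    (Subtype.val ⁻¹' Gens p) ((gens_countable p).preimage Subtype.val_injective)
    Subgroup.closure_closure_coe_preimage
    (fun s hs => Subtype.ext (by rw [Subgroup.coe_pow]; exact gens_pow hs)) (HH_tor hp)
  refine ⟨G, inferInstance, h1, h2, ?_, h3⟩
  set w0 : FreeGroup ℕ := (FreeGroup.of 0 ^ 2 * FreeGroup.of 1 ^ 2 * (FreeGroup.of 0 ^ 2)⁻¹ *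
    (FreeGroup.of 1 ^ 2)⁻¹) ^ p with hw0
  refine ⟨FreeGroup.lift (fun i => FreeGroup.of i ^ n) w0, ?_, fun f => ?_⟩
  · intro h
    have := congrArg (FreeGroup.lift (fun i : ℕ => if i = 0 then px 1 else py 1)) h
    simp only [hw0, map_pow, map_mul, map_inv, FreeGroup.lift_apply_of, map_one, if_true,
      one_ne_zero, if_false, px_pow, py_pow] at this
    have h5 := comm_pow (((2 : ℕ) : ℤ) * ((n : ℤ) * 1)) p 0 0
    rw [this] at h5
    simp only [Equiv.Perm.coe_one, id_eq, Prod.mk.injEq, true_and] at h5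
    have : (0 : ℤ) < (p : ℤ) * (((2 : ℕ) : ℤ) * ((n : ℤ) * 1)) ^ 2 := by positivity
    omega
  · rw [Phil.map_lift]
    simp only [map_pow, FreeGroup.lift_apply_of]
    refine h4 w0 (fun g => ?_) f
    simp only [hw0, map_pow, map_mul, map_inv, FreeGroup.lift_apply_of]
    exact HH_law _ _

end Pool.Agent.H950Z.ApA
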