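import Pool.Agent.H950Z.FrobStep

/-! Chains of groups of prime exponent in which all complements become conjugate. -/

set_option autoImplicit false

namespace Pool.Agent.H950Z.Frob

open Pool.Agent.H59Z.NA

/-- Union of a chain of groups. -/
theorem exists_lim (G : ℕ → Type) [∀ n, Group (G n)] (ι : ∀ n, G n →* G (n + 1))
    (hι : ∀ n, Function.Injective (ι n)) :
    ∃ (L : Type) (_ : Group L) (e : ∀ n, G n →* L), (∀ n, Function.Injective (e n)) ∧
      (∀ n x, e (n + 1) (ι n x) = e n x) ∧ (∀ x y : L, ∃ n a b, x = e n a ∧ y = e n b) ∧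
      ∀ (C : Type) [Group C] (φ : ∀ n, G n →* C), (∀ n x, φ (n + 1) (ι n x) = φ n x) →
        ∃ Φ : L →* C, ∀ n x, Φ (e n x) = φ n x := by
  let f : ∀ i j, i ≤ j → G i →* G j := fun i j h =>
    Nat.leRec (motive := fun j _ => G i →* G j) (MonoidHom.id _) (fun k _ g => (ι k).comp g) h
  have f_self : ∀ i, f i i le_rfl = MonoidHom.id _ := fun i => Nat.leRec_self _ _
  have f_succ : ∀ i j (h : i ≤ j), f i (j + 1) (h.trans (Nat.le_succ j)) = (ι j).comp (f i j h) :=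
    fun i j h => Nat.leRec_succ _ _ h
  have : DirectedSystem G (fun i j h => ⇑(f i j h)) := by
    refine ⟨fun i x => by rw [f_self]; rfl, fun k j i hij hjk x => ?_⟩
    induction k, hjk using Nat.le_induction with
    | base => rw [f_self]; rfl
    | succ m hm ih => rw [f_succ j m hm, f_succ i m (hij.trans hm)]; exact congrArg (ι m) ih
  have finj : ∀ i j h, Function.Injective (f i j h) := by
    intro i j h
    induction j, h using Nat.le_induction with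
    | base => rw [f_self]; exact Function.injective_id
    | succ m hm ih => rw [f_succ i m hm]; exact (hι m).comp ih
  let e : ∀ n, G n →* DirectLimit G f := fun n =>
    { toFun := fun g => ⟦⟨n, g⟩⟧
      map_one' := (DirectLimit.one_def n).symm
      map_mul' := fun a b => (DirectLimit.mul_def (f := f) n a b).symm }
  refine ⟨DirectLimit G f, inferInstance, e, fun n => DirectLimit.mk_injective _ finj n,
    fun n x => ?_, fun x y => ?_, fun C _ φ hφ => ?_⟩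
  · have := DirectLimit.mk_apply (f := f) n (n + 1) x (Nat.le_succ n)
    rw [f_succ n n le_rfl, f_self] at this
    exact this
  · exact DirectLimit.exists_eq_mk₂ f x y
  · have compat : ∀ i j h x, φ i x = φ j (f i j h x) := by
      intro i j h x
      induction j, h using Nat.le_induction with
      | base => rw [f_self]; rfl
      | succ m hm ih => rw [f_succ i m hm, ih]; exact (hφ m _).symm
    refine ⟨{ toFun := DirectLimit.lift f (fun i => φ i) compat, map_one' := ?_, map_mul' := ?_ },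
      fun n x => rfl⟩
    · rw [DirectLimit.one_def 0, DirectLimit.lift_def, map_one]
    · intro x y
      obtain ⟨i, a, b, rfl, rfl⟩ := DirectLimit.exists_eq_mk₂ f x y
      rw [DirectLimit.mul_def, DirectLimit.lift_def, DirectLimit.lift_def, DirectLimit.lift_def,
        map_mul]

theorem factor {Q R C : Type} [Group Q] [Group R] [Group C] {p : ℕ} (hC : ∀ c : C, c ^ p = 1)
    (π : Q →* R) (hπ : Function.Surjective π) (hk : ∀ q, π q = 1 → q ∈ BQ.Pw Q p) (φ : Q →* C) :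
    ∃ φ' : R →* C, ∀ q, φ' (π q) = φ q := by
  have h : π.ker ≤ φ.ker := by
    intro q hq
    refine Subgroup.normalClosure_le_normal ?_ (hk q hq)
    rintro _ ⟨w, rfl⟩
    simp [hC]
  exact ⟨π.liftOfSurjective hπ ⟨φ, h⟩, fun q => π.liftOfRightInverse_comp_apply _ _ _ q⟩

/-- The groups of the chain. -/
structure Obj (p : ℕ) (C : Type) [CommGroup C] : Type 1 where
  G : Type
  [grp : Group G]
  φ : G →* C
  σ : C →* G
  hσ : ∀ c, φ (σ c) = c
  exp : ∀ g : G, g ^ p = 1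
  cent : ∀ u a : G, u ≠ 1 → Commute a u → a ∈ Subgroup.zpowers u

attribute [instance] Obj.grp

theorem step {p : ℕ} (hp : p.Prime) (hb : 10 ^ 32 ≤ p) {C : Type} [CommGroup C]
    (hC : ∀ c : C, c ^ p = 1) (hC' : ∀ c c' : C, c ≠ 1 → c' ∈ Subgroup.zpowers c)
    (O : Obj p C) : ∃ (O' : Obj p C) (ι : O.G →* O'.G), Function.Injective ι ∧
      (∀ g, O'.φ (ι g) = O.φ g) ∧ (∀ c, ι (O.σ c) = O'.σ c) ∧
      ∀ s : C →* O.G, (∀ c, O.φ (s c) = c) → ∃ t, ∀ c, ι (s c) = t * O'.σ c * t⁻¹ := by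
  let Sec := {s : C →* O.G // ∀ c, O.φ (s c) = c}
  let r : Setoid Sec :=
    { r := fun s s' => ∃ g, ∀ c, s.1 c = g * s'.1 c * g⁻¹
      iseqv := ⟨fun s => ⟨1, by simp⟩, fun ⟨g, h⟩ => ⟨g⁻¹, fun c => by rw [h]; group⟩,
        fun ⟨g, h⟩ ⟨g', h'⟩ => ⟨g * g', fun c => by rw [h, h']; group⟩⟩ }
  have one_all : ∀ (s s' : Sec) (c : C) (g : O.G), c ≠ 1 → s.1 c = g * s'.1 c * g⁻¹ →
      Quotient.mk r s = Quotient.mk r s' := by
    intro s s' c g hc h
    refine Quotient.sound ⟨g, fun c' => ?_⟩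
    obtain ⟨k, rfl⟩ := hC' c c' hc
    simp only [map_zpow, h, conj_zpow]
  let σ0 : Sec := ⟨O.σ, O.hσ⟩
  let J := {q : Quotient r // q ≠ Quotient.mk r σ0}
  let D : Dat O.G C J := ⟨O.φ, O.σ, fun j => j.1.out.1, O.hσ, fun j => j.1.out.2⟩
  have H1 : ∀ j c g, c ≠ 1 → D.s j c ≠ g * D.σ c * g⁻¹ := by
    intro j c g hc h
    exact j.2 ((Quotient.out_eq j.1).symm.trans (one_all j.1.out σ0 c g hc h))
  have H2 : ∀ i j c g, c ≠ 1 → D.s i c = g * D.s j c * g⁻¹ → i = j := by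
    intro i j c g hc h
    have := one_all i.1.out j.1.out c g hc h
    rw [Quotient.out_eq, Quotient.out_eq] at this
    exact Subtype.ext this
  let L := D.toLen O.cent H1 H2
  have hg := L.good hp (by omega) (by
    rintro _ ⟨g, rfl⟩
    rw [← map_pow, O.exp, map_one]) (by
    rintro _ ⟨u, rfl⟩ _ ⟨a, rfl⟩ hu ha
    obtain ⟨k, hk⟩ := O.cent u a (fun h => hu (by rw [h, map_one]))
      (D.ι_inj (by rw [map_mul, map_mul]; exact ha.eq))
    exact ⟨k, by rw [← hk]; exact (map_zpow _ _ _).symm⟩)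
  obtain ⟨R, _, π, h1, h2, h3, h4, h5⟩ := BQ.quotient_prime p hp hb _ _ _ hg
  obtain ⟨φ', hφ'⟩ := factor hC π h1 h3 SemidirectProduct.rightHom
  have hφι : ∀ g, φ' (π (D.ι g)) = O.φ g := fun g => hφ' _
  refine ⟨⟨R, φ', (π.comp D.ι).comp O.σ, fun c => (hφι _).trans (O.hσ c), h2, h5⟩, π.comp D.ι,
    ?_, hφι, fun c => rfl, fun s hs => ?_⟩
  · rw [injective_iff_map_eq_one]
    intro g hg
    refine D.ι_inj ((h4 (D.ι g) ((1 : D.Q) : D.Q ⧸ L.S) ?_ hg).trans (map_one _).symm)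
    rw [L.smul_mk, QuotientGroup.eq, mul_one, mul_one]
    exact L.S.inv_mem ⟨g, rfl⟩
  · by_cases h : Quotient.mk r ⟨s, hs⟩ = Quotient.mk r σ0
    · obtain ⟨g, hg⟩ := Quotient.exact h
      refine ⟨π (D.ι g), fun c => ?_⟩
      have := hg c
      simp only [σ0] at this
      rw [this]
      simp
    · obtain ⟨g, hg⟩ := Quotient.exact (Quotient.out_eq (Quotient.mk r ⟨s, hs⟩)).symm
      refine ⟨π (D.ι g * (D.XX ⟨_, h⟩)⁻¹), fun c => ?_⟩
      have e1 : s c = g * D.s ⟨_, h⟩ c * g⁻¹ := hg c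
      have e2 : D.ι (D.s ⟨_, h⟩ c) = (D.XX ⟨_, h⟩)⁻¹ * D.ι (O.σ c) * D.XX ⟨_, h⟩ := by
        rw [mul_assoc, eq_inv_mul_iff_mul_eq]
        exact (D.rel _ c).symm
      simp only [MonoidHom.comp_apply]
      rw [e1, map_mul D.ι, map_mul D.ι, e2]
      simp only [map_mul, map_inv]
      group

theorem lim_obj {p : ℕ} {C : Type} [CommGroup C] (S : ℕ → Obj p C)
    (ι : ∀ n, (S n).G →* (S (n + 1)).G) (h1 : ∀ n, Function.Injective (ι n))
    (h2 : ∀ n g, (S (n + 1)).φ (ι n g) = (S n).φ g) (h3 : ∀ n c, ι n ((S n).σ c) = (S (n + 1)).σ c) :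
    ∃ (O : Obj p C) (e : ∀ n, (S n).G →* O.G), (∀ n, Function.Injective (e n)) ∧
      (∀ n x, e (n + 1) (ι n x) = e n x) ∧ (∀ x, ∃ n a, x = e n a) ∧
      (∀ n x, O.φ (e n x) = (S n).φ x) ∧ ∀ n c, e n ((S n).σ c) = O.σ c := by
  obtain ⟨L, _, e', e1, e2, e3, e4⟩ := exists_lim (fun n => (S n).G) ι h1
  obtain ⟨Φ, hΦ⟩ := e4 C (fun n => (S n).φ) h2
  let e : ∀ n, (S n).G →* L := e'
  have eσ : ∀ n c, e n ((S n).σ c) = e 0 ((S 0).σ c) := by
    intro n c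
    induction n with
    | zero => rfl
    | succ n ih => rw [← ih, ← h3 n]; exact e2 n _
  refine ⟨⟨L, Φ, (e 0).comp (S 0).σ, fun c => (hΦ 0 _).trans ((S 0).hσ c),
    fun g => ?_, fun u a hu ha => ?_⟩, e, e1, e2, fun x => ?_, hΦ, eσ⟩
  · obtain ⟨n, a, -, rfl, -⟩ := e3 g g
    rw [← map_pow, (S n).exp, map_one]
  · obtain ⟨n, u, a, rfl, rfl⟩ := e3 u a
    obtain ⟨k, hk⟩ := (S n).cent u a (fun h => hu (by rw [h, map_one]))
      (e1 n (by rw [map_mul, map_mul]; exact ha.eq))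
    exact ⟨k, by rw [← hk]; exact (map_zpow _ _ _).symm⟩
  · obtain ⟨n, a, -, rfl, -⟩ := e3 x x
    exact ⟨n, a, rfl⟩

theorem exists_sec {p : ℕ} [NeZero p] {G : Type} [Group G] (a : G) (ha : a ^ p = 1) :
    ∃ s : Multiplicative (ZMod p) →* G, s (Multiplicative.ofAdd 1) = a := by
  let f : ℤ →+ Additive G := zmultiplesHom _ (Additive.ofMul a)
  have hf : f p = 0 := by
    simp only [f, zmultiplesHom_apply, natCast_zsmul, ← ofMul_pow, ha, ofMul_one]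
  let g := ZMod.lift p ⟨f, hf⟩
  refine ⟨{ toFun := fun c => (g c.toAdd).toMul, map_one' := by simp,
            map_mul' := fun x y => by simp }, ?_⟩
  have := ZMod.lift_coe p ⟨f, hf⟩ 1
  simp only [Int.cast_one] at this
  simp [g, this, f]

theorem main0 {p : ℕ} (hp : p.Prime) (hb : 10 ^ 32 ≤ p) {C : Type} [CommGroup C]
    (hC : ∀ c : C, c ^ p = 1) (hC' : ∀ c c' : C, c ≠ 1 → c' ∈ Subgroup.zpowers c) (c1 : C)
    (h1 : c1 ≠ 1) (hex : ∀ (G : Type) [Group G] (a : G), a ^ p = 1 → ∃ s : C →* G, s c1 = a) :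
    ∃ O : Obj p C, (∃ g, g ≠ 1 ∧ O.φ g = 1) ∧ ∀ g, O.φ g ≠ 1 → ∃ t c, g = t * O.σ c * t⁻¹ := by
  have hsec : ∀ (G : Type) [Group G] (φ : G →* C) (s : C →* G),
      φ (s c1) = c1 → ∀ c, φ (s c) = c := by
    intro G _ φ s h c
    obtain ⟨k, rfl⟩ := hC' _ c h1
    simp only [map_zpow, h]
  obtain ⟨X, hX⟩ := BQ.sBase
  obtain ⟨R, _, π, k1, k2, k3, -, k5⟩ := BQ.quotient_prime p hp hb _ _ X (hX p _ (by norm_num))
  obtain ⟨φ0, hφ0⟩ := factor hC π k1 k3 (FreeGroup.lift fun i => if i = 0 then c1 else 1)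
  obtain ⟨φ1, hφ1⟩ := factor hC π k1 k3 (FreeGroup.lift fun _ => c1)
  obtain ⟨σ0, hσ0⟩ := hex R (π (FreeGroup.of 0)) (k2 _)
  let O0 : Obj p C := ⟨R, φ0, σ0, hsec R φ0 σ0 (by rw [hσ0, hφ0]; simp), k2, k5⟩
  have hO0 : ∃ g, g ≠ 1 ∧ O0.φ g = 1 := by
    refine ⟨π (FreeGroup.of 1), fun h2 : π (FreeGroup.of 1) = 1 => ?_, (hφ0 _).trans (by simp)⟩
    have h3 := hφ1 (FreeGroup.of 1)
    rw [h2, map_one, FreeGroup.lift_apply_of] at h3
    exact h1 h3.symm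
  choose nx ι q1 q2 q3 q4 using step hp hb hC hC'
  obtain ⟨S, ι', hS0, r1, r2, r3, r4⟩ : ∃ (S : ℕ → Obj p C) (ι : ∀ n, (S n).G →* (S (n + 1)).G),
      (∃ g, g ≠ 1 ∧ (S 0).φ g = 1) ∧ (∀ n, Function.Injective (ι n)) ∧
      (∀ n g, (S (n + 1)).φ (ι n g) = (S n).φ g) ∧ (∀ n c, ι n ((S n).σ c) = (S (n + 1)).σ c) ∧
      ∀ n (s : C →* (S n).G), (∀ c, (S n).φ (s c) = c) →
        ∃ t, ∀ c, ι n (s c) = t * (S (n + 1)).σ c * t⁻¹ :=
    ⟨fun n => Nat.rec O0 (fun _ T => nx T) n, fun n => ι _, hO0, fun n => q1 _, fun n => q2 _,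
      fun n => q3 _, fun n => q4 _⟩
  obtain ⟨O, e, e1, e2, e3, hΦ, eσ⟩ := lim_obj S ι' r1 r2 r3
  obtain ⟨g0, hg0, hg0'⟩ := hS0
  refine ⟨O, ⟨e 0 g0, fun h => hg0 (e1 0 (h.trans (map_one _).symm)), (hΦ 0 _).trans hg0'⟩, ?_⟩
  intro g hg
  obtain ⟨n, g, rfl⟩ := e3 g
  rw [hΦ] at hg
  obtain ⟨k, hk⟩ := hC' _ c1 hg
  simp only [← map_zpow] at hk
  obtain ⟨s, hs⟩ := hex _ (g ^ k) ((S n).exp _)
  obtain ⟨t, ht⟩ := r4 n s (hsec _ _ s (by rw [hs, hk]))
  obtain ⟨m, hm⟩ := BQ.mem_zpowers_of_prime hp ((S n).exp g) (u := g ^ k) (by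
    intro h
    rw [h, map_one] at hk
    exact h1 hk.symm) ⟨k, rfl⟩
  refine ⟨e (n + 1) t, c1 ^ m, ?_⟩
  have h2 : g = s (c1 ^ m) := by rw [map_zpow, hs]; exact hm.symm
  have h3 := congrArg (e (n + 1)) (ht (c1 ^ m))
  rw [e2, ← h2, map_mul, map_mul, map_inv, eσ] at h3
  exact h3

theorem main : ∃ p : ℕ, p.Prime ∧ ∃ (C : Type) (_ : CommGroup C) (O : Obj p C), Nontrivial C ∧
    (∃ g, g ≠ 1 ∧ O.φ g = 1) ∧ ∀ g, O.φ g ≠ 1 → ∃ t c, g = t * O.σ c * t⁻¹ := by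
  obtain ⟨p, hb, hp⟩ := Nat.exists_infinite_primes (10 ^ 32)
  have : Fact p.Prime := ⟨hp⟩
  obtain ⟨O, h⟩ := main0 hp hb (C := Multiplicative (ZMod p)) (fun c => by
      have := pow_card_eq_one' (x := c)
      rwa [show Nat.card (Multiplicative (ZMod p)) = p by simp] at this)
    (fun c c' hc => mem_zpowers_of_prime_card (p := p) (by simp) hc) (Multiplicative.ofAdd 1)
    (fun h => one_ne_zero (α := ZMod p) (ofAdd_eq_one.1 h)) (fun G _ a ha => exists_sec a ha)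
  exact ⟨p, hp, _, inferInstance, O, inferInstance, h⟩

end Pool.Agent.H950Z.Frob
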