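import Pool.Agent.H950Z.LenGood
import Pool.Agent.SCZ.Geo.Tcoprod

/-! The multiple HNN extension which conjugates all complements to a fixed one, written as
`(F * Free J) ⋊ C`, and its length function. -/

set_option autoImplicit false

namespace Pool.Agent.H950Z.Frob

open Pool.Agent.H59Z.NA Pool.Agent.SCZ.Geo Monoid

/-- The data of the extension. -/
structure Dat (G C J : Type) [Group G] [CommGroup C] where
  φ : G →* C
  σ : C →* G
  s : J → C →* G
  hσ : ∀ c, φ (σ c) = c
  hs : ∀ j c, φ (s j c) = c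

namespace Dat

variable {G C J : Type} [Group G] [CommGroup C] (D : Dat G C J)

/-- The free factors. -/
def M : Option J → Type
  | none => D.φ.ker
  | some _ => Multiplicative ℤ

instance : ∀ o, Group (D.M o)
  | none => inferInstanceAs (Group D.φ.ker)
  | some _ => inferInstanceAs (Group (Multiplicative ℤ))

abbrev K : Type := CoprodI D.M

def oF : D.φ.ker →* D.K := CoprodI.of (M := D.M) (i := none)

def oZ (j : J) : Multiplicative ℤ →* D.K := CoprodI.of (M := D.M) (i := some j)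

def x (j : J) : D.K := D.oZ j (Multiplicative.ofAdd 1)

theorem oZ_eq (j : J) (n : Multiplicative ℤ) : D.oZ j n = D.x j ^ n.toAdd := by
  rw [x, ← map_zpow, ← ofAdd_zsmul]
  simp

theorem K_ext {H : Type*} [Group H] {f g : D.K →* H} (h1 : ∀ a, f (D.oF a) = g (D.oF a))
    (h2 : ∀ j, f (D.x j) = g (D.x j)) : f = g := by
  refine CoprodI.ext_hom _ _ fun o => ?_
  cases o with
  | none => exact MonoidHom.ext h1
  | some j =>
    refine MonoidHom.ext fun n => ?_
    change f (D.oZ j n) = g (D.oZ j n)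
    rw [oZ_eq, map_zpow, map_zpow, h2]

/-- Homomorphisms out of the free product. -/
def liftK {H : Type*} [Group H] (f : D.φ.ker →* H) (y : J → H) : D.K →* H :=
  CoprodI.lift (M := D.M) fun o => match o with
    | none => f
    | some j => zpowersHom H (y j)

theorem liftK_oF {H : Type*} [Group H] (f : D.φ.ker →* H) (y : J → H) (a : D.φ.ker) :
    D.liftK f y (D.oF a) = f a := CoprodI.lift_of (M := D.M) _ (i := none) a

theorem liftK_x {H : Type*} [Group H] (f : D.φ.ker →* H) (y : J → H) (j : J) :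
    D.liftK f y (D.x j) = y j := by
  have := CoprodI.lift_of (M := D.M) (fun o => match o with
    | none => f
    | some j => zpowersHom H (y j)) (i := some j) (Multiplicative.ofAdd (1 : ℤ))
  refine this.trans ?_
  exact zpow_one _

/-- The kernel part of an element. -/
def nf (g : G) : D.φ.ker := ⟨g * (D.σ (D.φ g))⁻¹, by simp [MonoidHom.mem_ker, D.hσ]⟩

def cj (c : C) : D.φ.ker →* D.φ.ker := (MulAut.conjNormal (D.σ c)).toMonoidHom

theorem cj_val (c : C) (a : D.φ.ker) : (D.cj c a : G) = D.σ c * a * (D.σ c)⁻¹ := rfl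

def al (c : C) : D.K →* D.K :=
  D.liftK (D.oF.comp (D.cj c)) fun j => D.x j * D.oF (D.nf (D.s j c))

theorem al_oF (c : C) (a : D.φ.ker) : D.al c (D.oF a) = D.oF (D.cj c a) := D.liftK_oF _ _ _

theorem al_x (c : C) (j : J) : D.al c (D.x j) = D.x j * D.oF (D.nf (D.s j c)) := D.liftK_x _ _ _

theorem nf_mul (g h : G) : D.nf (g * h) = D.nf g * D.cj (D.φ g) (D.nf h) := by
  apply Subtype.ext
  simp only [nf, map_mul, Subgroup.coe_mul, cj_val]
  group

theorem al_mul (c c' : C) : D.al (c * c') = (D.al c).comp (D.al c') := by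
  refine D.K_ext (fun a => ?_) fun j => ?_
  · simp only [MonoidHom.comp_apply, al_oF]
    congr 1
    apply Subtype.ext
    simp only [cj_val, map_mul]
    group
  · simp only [MonoidHom.comp_apply, al_x, map_mul, al_oF, nf_mul, D.hs, mul_assoc]

theorem al_one : D.al 1 = MonoidHom.id _ := by
  refine D.K_ext (fun a => ?_) fun j => ?_
  · simp only [al_oF, MonoidHom.id_apply]
    congr 1
    apply Subtype.ext
    simp [cj_val]
  · have : D.nf 1 = 1 := Subtype.ext (by simp [nf])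
    simp [al_x, this]

def psi : C →* MulAut D.K where
  toFun c := MonoidHom.toMulEquiv (D.al c) (D.al c⁻¹)
    (by rw [← al_mul, inv_mul_cancel, al_one]) (by rw [← al_mul, mul_inv_cancel, al_one])
  map_one' := by
    ext k
    change D.al 1 k = k
    rw [al_one]; rfl
  map_mul' c c' := by
    ext k
    change D.al (c * c') k = D.al c (D.al c' k)
    rw [al_mul]; rfl

theorem psi_apply (c : C) (k : D.K) : D.psi c k = D.al c k := rfl

abbrev Q : Type := D.K ⋊[D.psi] C

def ι : G →* D.Q where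
  toFun g := ⟨D.oF (D.nf g), D.φ g⟩
  map_one' := by
    have : D.nf 1 = 1 := Subtype.ext (by simp [nf])
    ext <;> simp [this]
  map_mul' g h := by
    ext
    · simp [nf_mul, psi_apply, al_oF]
    · simp

theorem ι_left (g : G) : (D.ι g).left = D.oF (D.nf g) := rfl
theorem ι_right (g : G) : (D.ι g).right = D.φ g := rfl

theorem ι_ker (a : D.φ.ker) : D.ι a = SemidirectProduct.inl (D.oF a) := by
  have h : D.φ a = 1 := a.2
  have : D.nf a = a := Subtype.ext (by simp [nf, h])
  ext <;> simp [ι_left, ι_right, this, h]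

theorem ι_σ (c : C) : D.ι (D.σ c) = SemidirectProduct.inr c := by
  have : D.nf (D.σ c) = 1 := Subtype.ext (by simp [nf, D.hσ])
  ext <;> simp [ι_left, ι_right, this, D.hσ]

theorem ι_inj : Function.Injective D.ι := by
  rw [injective_iff_map_eq_one]
  intro g hg
  have h1 : D.φ g = 1 := congrArg SemidirectProduct.right hg
  have h2 : D.oF (D.nf g) = 1 := congrArg SemidirectProduct.left hg
  have h3 : D.nf g = 1 := by
    classical
    exact CoprodI.of_injective (M := D.M) none (h2.trans (map_one D.oF).symm)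
  have h4 := congrArg Subtype.val h3
  simpa [nf, h1] using h4

def XX (j : J) : D.Q := SemidirectProduct.inl (D.x j)

theorem rel (j : J) (c : C) : D.ι (D.σ c) * D.XX j = D.XX j * D.ι (D.s j c) := by
  rw [ι_σ]
  ext <;> simp [XX, ι_left, ι_right, psi_apply, al_x, D.hs]

/-- The zero pseudo-metric. -/
def zeroGM (V : Type) : GM V where
  d _ _ := 0
  self _ := rfl
  comm _ _ := rfl
  tri _ _ _ := le_rfl
  geo x _ t ht := ⟨x, by omega, by omega⟩

noncomputable def Xs : ∀ o, GM (D.M o)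
  | none => zeroGM _
  | some _ => thm_clique.2.choose

theorem Xs_inv : ∀ o, (D.Xs o).Inv (D.M o)
  | none => fun _ _ _ => rfl
  | some _ => thm_clique.2.choose_spec.1

theorem Xs_four : ∀ o, (D.Xs o).Four 0
  | none => fun _ _ _ _ => Nat.zero_le _
  | some _ => thm_clique.2.choose_spec.2.1

theorem Xs_some (j : J) (n : Multiplicative ℤ) :
    (D.Xs (some j)).d (1 : D.M (some j)) n = n.toAdd.natAbs := by
  have := thm_clique.2.choose_spec.2.2 1 n
  refine this.trans ?_
  simp

noncomputable def len (k : D.K) : ℕ := Tcoprod.len D.Xs k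

theorem len_oF (a : D.φ.ker) : D.len (D.oF a) = 0 := Tcoprod.len_of (X := D.Xs) (i := none) a

theorem len_oZ (j : J) (n : Multiplicative ℤ) : D.len (D.oZ j n) = n.toAdd.natAbs :=
  (Tcoprod.len_of (X := D.Xs) (i := some j) n).trans (D.Xs_some j n)

theorem len_mul (k k' : D.K) : D.len (k * k') ≤ D.len k + D.len k' :=
  Tcoprod.len_mul D.Xs_inv k k'

theorem len_inv (k : D.K) : D.len k⁻¹ = D.len k := Tcoprod.len_inv D.Xs_inv k

theorem len_one : D.len 1 = 0 := Tcoprod.len_one _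

theorem len_pow (k : D.K) (n : ℕ) : D.len (k ^ n) ≤ n * D.len k := by
  induction n with
  | zero => simp [len_one]
  | succ n ih =>
    have := D.len_mul (k ^ n) k
    rw [pow_succ, add_mul]
    omega

theorem len_zpow (k : D.K) (n : ℤ) : D.len (k ^ n) ≤ n.natAbs * D.len k := by
  rcases Int.natAbs_eq n with h | h
  · rw [h, zpow_natCast]; exact D.len_pow _ _
  · rw [h, zpow_neg, zpow_natCast, len_inv, Int.natAbs_neg]; exact D.len_pow _ _

theorem len_al_le (c : C) (k : D.K) : D.len (D.al c k) ≤ D.len k := by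
  have key : ∀ l : List (Σ o, D.M o), D.len (D.al c (Tcoprod.pr l)) ≤ Tcoprod.wt D.Xs l := by
    intro l
    induction l with
    | nil => simp [Tcoprod.pr_nil, len_one]
    | cons y l ih =>
      rw [Tcoprod.pr_cons, Tcoprod.wt_cons, map_mul]
      refine (D.len_mul _ _).trans (Nat.add_le_add ?_ ih)
      obtain ⟨o, y⟩ := y
      cases o with
      | none =>
        change D.len (D.al c (D.oF y)) ≤ _
        rw [al_oF, len_oF]; exact Nat.zero_le _
      | some j =>
        change D.len (D.al c (D.oZ j y)) ≤ (D.Xs (some j)).d (1 : D.M (some j)) y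
        rw [Xs_some, oZ_eq, map_zpow, al_x]
        refine (D.len_zpow _ _).trans ?_
        have h1 := D.len_mul (D.x j) (D.oF (D.nf (D.s j c)))
        rw [len_oF, x, len_oZ] at h1
        simp only [toAdd_ofAdd, Int.natAbs_one, add_zero] at h1
        exact (Nat.mul_le_mul_left _ h1).trans (by rw [mul_one])
  have := key (Tcoprod.nf k)
  rwa [Tcoprod.pr_nf] at this

theorem len_psi (c : C) (k : D.K) : D.len (D.psi c k) = D.len k := by
  refine le_antisymm (D.len_al_le c k) ?_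
  have := D.len_al_le c⁻¹ (D.psi c k)
  rwa [← psi_apply, ← MulAut.mul_apply, ← map_mul, inv_mul_cancel, map_one, MulAut.one_apply]
    at this

theorem wt_small : ∀ l : List (Σ o, D.M o), (∀ y ∈ l, Sigma.snd y ≠ 1) →
    (Tcoprod.wt D.Xs l = 0 → ∃ a, Tcoprod.pr l = D.oF a) ∧
    (Tcoprod.wt D.Xs l = 1 → ∃ a b j, Tcoprod.pr l = D.oF a * D.x j * D.oF b ∨
      Tcoprod.pr l = D.oF a * (D.x j)⁻¹ * D.oF b) := by
  intro l
  induction l with
  | nil => exact fun _ => ⟨fun _ => ⟨1, by simp [Tcoprod.pr_nil]⟩, by simp [Tcoprod.wt_nil]⟩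
  | cons y l ih =>
    intro h
    obtain ⟨ih0, ih1⟩ := ih fun z hz => h z (List.mem_cons_of_mem _ hz)
    have hy := h y List.mem_cons_self
    rw [Tcoprod.pr_cons, Tcoprod.wt_cons]
    obtain ⟨o, y⟩ := y
    cases o with
    | none =>
      change D.φ.ker at y
      have e : Tcoprod.w D.Xs ⟨none, y⟩ = 0 := rfl
      have e' : (CoprodI.of (⟨none, y⟩ : Σ o, D.M o).2 : D.K) = D.oF y := rfl
      rw [e, e', zero_add]
      refine ⟨fun h0 => ?_, fun h1 => ?_⟩
      · obtain ⟨a, ha⟩ := ih0 h0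
        exact ⟨y * a, by rw [ha, map_mul]⟩
      · obtain ⟨a, b, j, ha | ha⟩ := ih1 h1
        · exact ⟨y * a, b, j, Or.inl (by rw [ha, map_mul]; group)⟩
        · exact ⟨y * a, b, j, Or.inr (by rw [ha, map_mul]; group)⟩
    | some j =>
      change Multiplicative ℤ at y
      have e : Tcoprod.w D.Xs ⟨some j, y⟩ = (Multiplicative.toAdd y : ℤ).natAbs := D.Xs_some j y
      have e' : (CoprodI.of (⟨some j, y⟩ : Σ o, D.M o).2 : D.K) =
        D.x j ^ (Multiplicative.toAdd y : ℤ) := D.oZ_eq j y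
      have hy' : (Multiplicative.toAdd y : ℤ) ≠ 0 := fun h0 => hy ((toAdd_eq_zero (x := y)).1 h0)
      rw [e, e']
      refine ⟨fun h0 => by omega, fun h1 => ?_⟩
      obtain ⟨b, hb⟩ := ih0 (by omega)
      have : (Multiplicative.toAdd y : ℤ) = 1 ∨ (Multiplicative.toAdd y : ℤ) = -1 := by omega
      rcases this with h2 | h2
      · exact ⟨1, b, j, Or.inl (by rw [h2, hb]; simp)⟩
      · exact ⟨1, b, j, Or.inr (by rw [h2, hb]; simp)⟩

theorem len_conj (j : J) (n : Multiplicative ℤ) (hn : n ≠ 1) (a : D.φ.ker)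
    (h : D.len (D.oZ j n * D.oF a * D.oZ j n⁻¹) = 0) : a = 1 := by
  by_contra ha
  have hr : Tcoprod.Red (M := D.M) [⟨some j, n⟩, ⟨none, a⟩, ⟨some j, n⁻¹⟩] := by
    refine Tcoprod.Red.cons hn (Tcoprod.Red.cons ha (Tcoprod.Red.cons (inv_ne_one.2 hn)
      Tcoprod.red_nil (by simp)) (by simp)) (by simp)
  have h1 := Tcoprod.len_pr D.Xs hr
  have e : Tcoprod.pr (M := D.M) [⟨some j, n⟩, ⟨none, a⟩, ⟨some j, n⁻¹⟩] =
      D.oZ j n * D.oF a * D.oZ j n⁻¹ := by
    rw [Tcoprod.pr_cons, Tcoprod.pr_cons, Tcoprod.pr_cons, Tcoprod.pr_nil, mul_one, mul_assoc]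
    rfl
  rw [e, Tcoprod.wt_cons] at h1
  have e2 : Tcoprod.w D.Xs ⟨some j, n⟩ = (Multiplicative.toAdd n : ℤ).natAbs := D.Xs_some j n
  have hn' : (Multiplicative.toAdd n : ℤ) ≠ 0 := fun h0 => hn (toAdd_eq_zero.1 h0)
  unfold len at h
  omega

noncomputable def ell (q : D.Q) : ℕ := D.len q.left

theorem ell_inv_mul (q r : D.Q) : D.ell (q⁻¹ * r) = D.len (q.left⁻¹ * r.left) := by
  rw [← D.len_psi q.right⁻¹, map_mul]
  rfl

theorem decomp (q : D.Q) : q = SemidirectProduct.inl q.left * D.ι (D.σ q.right) := by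
  rw [ι_σ, SemidirectProduct.inl_left_mul_inr_right]

theorem ell_zero (q : D.Q) : D.ell q = 0 ↔ q ∈ D.ι.range := by
  constructor
  · intro h
    obtain ⟨a, ha⟩ := (D.wt_small _ (Tcoprod.red_nf q.left).1).1 h
    rw [Tcoprod.pr_nf] at ha
    exact ⟨a * D.σ q.right, by rw [map_mul, ι_ker, ← ha, ← decomp]⟩
  · rintro ⟨g, rfl⟩
    exact D.len_oF _

theorem ell_one (q : D.Q) (h : D.ell q = 1) :
    ∃ a b j, q = D.ι a * D.XX j * D.ι b ∨ q = D.ι a * (D.XX j)⁻¹ * D.ι b := by
  obtain ⟨a, b, j, ha⟩ := (D.wt_small _ (Tcoprod.red_nf q.left).1).2 h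
  rw [Tcoprod.pr_nf] at ha
  refine ⟨a, b * D.σ q.right, j, ha.imp (fun ha => ?_) fun ha => ?_⟩
  · rw [map_mul, ι_ker, ι_ker, XX, ← mul_assoc, ← map_mul, ← map_mul, ← ha, ← decomp]
  · rw [map_mul, ι_ker, ι_ker, XX, ← mul_assoc, ← map_inv, ← map_mul, ← map_mul, ← ha, ← decomp]

theorem edge_plus (j : J) (g : G) (h : (D.XX j)⁻¹ * D.ι g * D.XX j ∈ D.ι.range) :
    g = D.σ (D.φ g) := by
  have e : g = (D.nf g : G) * D.σ (D.φ g) := by simp [nf]
  have h1 : (D.XX j)⁻¹ * D.ι (D.nf g) * D.XX j ∈ D.ι.range := by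
    rw [e, map_mul, mul_assoc, mul_assoc, rel, ← mul_assoc, ← mul_assoc] at h
    exact (Subgroup.mul_mem_cancel_right D.ι.range (MonoidHom.mem_range.2 ⟨_, rfl⟩)).1 h
  rw [← ell_zero, ι_ker, XX, ← map_inv, ← map_mul, ← map_mul, x, ← map_inv] at h1
  have h2 := D.len_conj j (Multiplicative.ofAdd 1)⁻¹ (by decide) (D.nf g) (by
    rw [inv_inv]; exact h1)
  rw [e, h2]
  simp [D.hσ]

theorem edge_minus (j : J) (g : G) (h : D.XX j * D.ι g * (D.XX j)⁻¹ ∈ D.ι.range) :
    g = D.s j (D.φ g) := by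
  let a : D.φ.ker := ⟨g * (D.s j (D.φ g))⁻¹, by simp [MonoidHom.mem_ker, D.hs]⟩
  have e : g = (a : G) * D.s j (D.φ g) := by simp [a]
  have h1 : D.XX j * D.ι a * (D.XX j)⁻¹ ∈ D.ι.range := by
    have e2 : D.ι (D.s j (D.φ g)) * (D.XX j)⁻¹ = (D.XX j)⁻¹ * D.ι (D.σ (D.φ g)) := by
      rw [mul_inv_eq_iff_eq_mul, mul_assoc, rel, inv_mul_cancel_left]
    rw [e, map_mul, mul_assoc, mul_assoc, e2, ← mul_assoc, ← mul_assoc] at h
    exact (Subgroup.mul_mem_cancel_right D.ι.range (MonoidHom.mem_range.2 ⟨_, rfl⟩)).1 h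
  rw [← ell_zero, ι_ker, XX, ← map_inv, ← map_mul, ← map_mul, x, ← map_inv] at h1
  have h2 := D.len_conj j (Multiplicative.ofAdd 1) (by decide) a h1
  have h3 := congrArg Subtype.val h2
  simpa [a, mul_inv_eq_one] using h3

def htK : D.K →* Multiplicative ℤ := D.liftK 1 fun _ => Multiplicative.ofAdd 1

theorem htK_al (c : C) : D.htK.comp (D.al c) = D.htK := by
  refine D.K_ext (fun a => ?_) fun j => ?_
  · simp [al_oF, htK, liftK_oF]
  · simp [al_x, htK, liftK_oF]

def ht : D.Q →* Multiplicative ℤ where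
  toFun q := D.htK q.left
  map_one' := by simp
  map_mul' q r := by
    have := DFunLike.congr_fun (D.htK_al q.right) r.left
    simp only [MonoidHom.comp_apply] at this
    simp [psi_apply, this]

theorem ht_ι (g : G) : D.ht (D.ι g) = 1 :=
  D.liftK_oF 1 (fun _ => Multiplicative.ofAdd (1 : ℤ)) (D.nf g)

theorem ht_XX (j : J) : D.ht (D.XX j) = Multiplicative.ofAdd 1 :=
  D.liftK_x 1 (fun _ => Multiplicative.ofAdd (1 : ℤ)) j

/-- The length function of the Bass-Serre tree. -/
noncomputable def toLen (hcent : ∀ u a : G, u ≠ 1 → Commute a u → a ∈ Subgroup.zpowers u)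
    (H1 : ∀ j c g, c ≠ 1 → D.s j c ≠ g * D.σ c * g⁻¹)
    (H2 : ∀ i j c g, c ≠ 1 → D.s i c = g * D.s j c * g⁻¹ → i = j) : LenGood.Len D.Q where
  l := D.ell
  S := D.ι.range
  ht := D.ht
  zero := D.ell_zero
  inv q := by
    have := D.ell_inv_mul q 1
    rw [mul_one] at this
    rw [this]
    simp [len_inv, ell]
  mul q r := by
    have := D.len_mul q.left (D.psi q.right r.left)
    rwa [len_psi] at this
  geo q t ht := by
    obtain ⟨z, h1, h2⟩ := Tcoprod.len_geo D.Xs_inv _ (Tcoprod.red_nf q.left) t ht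
    rw [Tcoprod.pr_nf] at h2
    exact ⟨SemidirectProduct.inl z, h1, by rw [ell_inv_mul]; exact h2⟩
  four x y z := by
    rw [ell_inv_mul, ell_inv_mul, ell_inv_mul]
    exact Tcoprod.len_four D.Xs_inv D.Xs_four _ _ _
  ht0 q hq := by
    obtain ⟨g, rfl⟩ := (D.ell_zero q).1 hq
    rw [ht_ι]; rfl
  ht1 q hq := by
    obtain ⟨a, b, j, rfl | rfl⟩ := D.ell_one q hq
    · left; simp [ht_ι, ht_XX]
    · right; simp [ht_ι, ht_XX]
  vert a e e' ha ha1 he he' hne h h' := by
    obtain ⟨a, rfl⟩ := ha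
    obtain ⟨g0, g1, i, rfl | rfl⟩ := D.ell_one e he
    · simp [ht_ι, ht_XX]
    exfalso
    have cancel : ∀ (Y : D.Q) (u v : G), (D.ι u * Y * D.ι v)⁻¹ * D.ι a * (D.ι u * Y * D.ι v) ∈
        D.ι.range → Y⁻¹ * D.ι (u⁻¹ * a * u) * Y ∈ D.ι.range := by
      intro Y u v hh
      have := D.ι.range.mul_mem (D.ι.range.mul_mem ⟨v, rfl⟩ hh) ⟨v⁻¹, rfl⟩
      convert this using 1
      simp only [map_mul, map_inv]
      group
    have hφ : ∀ u : G, D.φ (u⁻¹ * a * u) = D.φ a := fun u => by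
      simp only [map_mul, map_inv]
      rw [mul_comm, ← mul_assoc, mul_inv_cancel, one_mul]
    have k1 := D.edge_minus i _ (by simpa only [inv_inv] using cancel _ _ _ h)
    rw [hφ] at k1
    have hc : D.φ a ≠ 1 := by
      intro h0
      rw [h0, map_one] at k1
      apply ha1
      have : a = g0 * (g0⁻¹ * a * g0) * g0⁻¹ := by group
      rw [this, k1]; simp
    obtain ⟨g0', g1', j, rfl | rfl⟩ := D.ell_one e' he'
    · have k2 := D.edge_plus j _ (cancel _ _ _ h')
      rw [hφ] at k2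
      refine H1 i (D.φ a) (g0⁻¹ * g0') hc ?_
      rw [← k1, ← k2]; group
    · have k2 := D.edge_minus j _ (by simpa only [inv_inv] using cancel _ _ _ h')
      rw [hφ] at k2
      have e1 : D.s i (D.φ a) = (g0⁻¹ * g0') * D.s j (D.φ a) * (g0⁻¹ * g0')⁻¹ := by
        rw [← k1, ← k2]; group
      obtain rfl := H2 i j _ _ hc e1
      obtain ⟨m, hm⟩ := hcent (D.s i (D.φ a)) (g0⁻¹ * g0') (by
        intro h0
        have := congrArg D.φ h0
        rw [D.hs, map_one] at this
        exact hc this) (mul_inv_eq_iff_eq_mul.1 e1.symm)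
      simp only [← map_zpow] at hm
      apply hne
      rw [ell_zero]
      refine ⟨g1⁻¹ * D.σ (D.φ a ^ m) * g1', ?_⟩
      have e2 : D.ι (D.σ (D.φ a ^ m)) = D.XX i * D.ι (g0⁻¹ * g0') * (D.XX i)⁻¹ := by
        rw [← hm, ← rel, mul_inv_cancel_right, map_zpow D.φ]
      rw [map_mul, map_mul, e2]
      simp only [map_mul, map_inv]
      group

end Dat

end Pool.Agent.H950Z.Frob
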