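import Mathlib

set_option autoImplicit false

/-! Invariable generation, hyperbolic spaces, Gromov boundary, actions of general type. -/

namespace Pool.Agent.H950Z.IG

/-- `S` invariably generates `G`: whichever conjugate of each `s ∈ S` is chosen, the chosen
conjugates generate `G`. -/
def InvGen {G : Type} [Group G] (S : Set G) : Prop :=
  ∀ c : G → G, Subgroup.closure ((fun s => (c s)⁻¹ * s * c s) '' S) = ⊤

/-- `G` is invariably generated. -/
def IsIG (G : Type) [Group G] : Prop := ∃ S : Set G, InvGen S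

/-- `G` is finitely invariably generated. -/
def IsFIG (G : Type) [Group G] : Prop := ∃ S : Set G, S.Finite ∧ InvGen S

/-- Any two points are joined by a geodesic segment. -/
def Geodesic (X : Type) [MetricSpace X] : Prop :=
  ∀ x y : X, ∃ γ : ℝ → X, γ 0 = x ∧ γ (dist x y) = y ∧
    ∀ s ∈ Set.Icc (0 : ℝ) (dist x y), ∀ t ∈ Set.Icc (0 : ℝ) (dist x y),
      dist (γ s) (γ t) = |s - t|

/-- The Gromov product of `x` and `y` with base point `o`. -/
noncomputable def gp {X : Type} [MetricSpace X] (o x y : X) : ℝ :=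
  (dist x o + dist y o - dist x y) / 2

/-- A hyperbolic space: geodesic and `δ`-hyperbolic in the sense of Gromov for some `δ ≥ 0`. -/
def Hyperbolic (X : Type) [MetricSpace X] : Prop :=
  Geodesic X ∧ ∃ δ : ℝ, 0 ≤ δ ∧ ∀ o x y z : X, min (gp o x z) (gp o z y) - δ ≤ gp o x y

/-- A sequence converging to infinity in the sense of Gromov. -/
structure GSeq (X : Type) [MetricSpace X] where
  seq : ℕ → X
  conv : ∀ (o : X) (R : ℝ), ∃ N : ℕ, ∀ m ≥ N, ∀ n ≥ N, R ≤ gp o (seq m) (seq n)

/-- Two sequences converge to the same point at infinity. -/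
def GSeq.Rel {X : Type} [MetricSpace X] (u v : GSeq X) : Prop :=
  ∀ (o : X) (R : ℝ), ∃ N : ℕ, ∀ n ≥ N, R ≤ gp o (u.seq n) (v.seq n)

/-- The Gromov boundary. -/
def Bdry (X : Type) [MetricSpace X] : Type := Quot (GSeq.Rel (X := X))

/-- The boundary point defined by a sequence converging to infinity. -/
def GSeq.lim {X : Type} [MetricSpace X] (u : GSeq X) : Bdry X := Quot.mk _ u

/-- `g` fixes the boundary point `ξ`: `ξ` is the limit of a sequence `u` and also of `g • u`. -/
def FixesAtInfinity {G X : Type} [Group G] [MetricSpace X] [MulAction G X] (g : G) (ξ : Bdry X) :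
    Prop :=
  ∃ u v : GSeq X, u.lim = ξ ∧ v.lim = ξ ∧ ∀ n, v.seq n = g • u.seq n

/-- `g` is loxodromic: an orbit map `n ↦ g ^ n • x` is a quasi-isometric embedding of `ℤ`. -/
def Loxodromic {G : Type} (X : Type) [Group G] [MetricSpace X] [MulAction G X] (g : G) : Prop :=
  ∃ (x : X) (K C : ℝ), 1 ≤ K ∧ 0 ≤ C ∧ ∀ m n : ℤ,
    |(m : ℝ) - n| / K - C ≤ dist (g ^ m • x) (g ^ n • x) ∧
      dist (g ^ m • x) (g ^ n • x) ≤ K * |(m : ℝ) - n| + C

/-- The action is of general type: there are two loxodromic elements without a common fixed point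
in the Gromov boundary. -/
def GeneralType (G X : Type) [Group G] [MetricSpace X] [MulAction G X] : Prop :=
  ∃ g h : G, Loxodromic X g ∧ Loxodromic X h ∧
    ∀ ξ : Bdry X, ¬ (FixesAtInfinity g ξ ∧ FixesAtInfinity h ξ)

/-- The Baumslag-Solitar group `BS(2,3)` with generators `a` (false), `t` (true) and the relation
`t a^2 t⁻¹ = a^3`. -/
abbrev BS23 : Type :=
  PresentedGroup ({FreeGroup.of true * FreeGroup.of false ^ 2 * (FreeGroup.of true)⁻¹ *
    (FreeGroup.of false ^ 3)⁻¹} : Set (FreeGroup Bool))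

end Pool.Agent.H950Z.IG
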