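import Mathlib
import Pool.Agent.H950Z.IGDefs

set_option autoImplicit false

namespace Pool.Agent.H950Z.IG

variable {G : Type} [Group G]

theorem conj_pow_two {a t : G} (h : t * a ^ 2 * t⁻¹ = a ^ 3) (N : ℕ) :
    t * a ^ (2 * N) * t⁻¹ = a ^ (3 * N) := by
  rw [pow_mul, pow_mul, ← h, conj_pow]

theorem conj_pow_three {a t : G} (h : t * a ^ 2 * t⁻¹ = a ^ 3) (N : ℕ) :
    t⁻¹ * a ^ (3 * N) * t = a ^ (2 * N) := by
  rw [← conj_pow_two h N]; group

theorem commens {a t : G} (h : t * a ^ 2 * t⁻¹ = a ^ 3)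
    (hgen : Subgroup.closure ({a, t} : Set G) = ⊤) (g : G) :
    ∃ m i j : ℕ, g * a ^ m * g⁻¹ = a ^ (2 ^ i * 3 ^ j) := by
  have hg : g ∈ Subgroup.closure ({a, t} : Set G) := by rw [hgen]; trivial
  induction hg using Subgroup.closure_induction_left with
  | one => exact ⟨1, 0, 0, by simp⟩
  | mul_left x hx y _ ih =>
    obtain ⟨m, i, j, hm⟩ := ih
    rcases hx with rfl | rfl
    · refine ⟨m, i, j, ?_⟩
      have : x * y * x ^ m * (x * y)⁻¹ = x * (y * x ^ m * y⁻¹) * x⁻¹ := by group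
      rw [this, hm]; group
    · refine ⟨m * 2, i, j + 1, ?_⟩
      have e : x * y * a ^ (m * 2) * (x * y)⁻¹ = x * (y * a ^ m * y⁻¹) ^ 2 * x⁻¹ := by
        rw [conj_pow, ← pow_mul]; group
      rw [e, hm, ← pow_mul, mul_comm _ 2, conj_pow_two h]
      congr 1; ring
  | inv_mul_cancel x hx y _ ih =>
    obtain ⟨m, i, j, hm⟩ := ih
    rcases hx with rfl | rfl
    · refine ⟨m, i, j, ?_⟩
      have : x⁻¹ * y * x ^ m * (x⁻¹ * y)⁻¹ = x⁻¹ * (y * x ^ m * y⁻¹) * x := by group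
      rw [this, hm]; group
    · refine ⟨m * 3, i + 1, j, ?_⟩
      have e : x⁻¹ * y * a ^ (m * 3) * (x⁻¹ * y)⁻¹ = x⁻¹ * (y * a ^ m * y⁻¹) ^ 3 * x := by
        rw [conj_pow, ← pow_mul]; group
      rw [e, hm, ← pow_mul, mul_comm _ 3, conj_pow_three h]
      congr 1; ring

theorem mem_of_pow {a t : G} (h : t * a ^ 2 * t⁻¹ = a ^ 3) (H : Subgroup G) (ht : t ∈ H)
    (i j : ℕ) (ha : a ^ (2 ^ i * 3 ^ j) ∈ H) : a ∈ H := by
  have h2 : ∀ j i : ℕ, a ^ (2 ^ i * 3 ^ j) ∈ H → a ^ (2 ^ (i + j)) ∈ H := by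
    intro j
    induction j with
    | zero => intro i hi; simpa using hi
    | succ j ih =>
      intro i hi
      have e : 2 ^ i * 3 ^ (j + 1) = 3 * (2 ^ i * 3 ^ j) := by ring
      have e2 : 2 * (2 ^ i * 3 ^ j) = 2 ^ (i + 1) * 3 ^ j := by ring
      have h3 : a ^ (2 ^ (i + 1) * 3 ^ j) ∈ H := by
        rw [← e2, ← conj_pow_three h, ← e]
        exact H.mul_mem (H.mul_mem (H.inv_mem ht) hi) ht
      have := ih (i + 1) h3
      rwa [show i + 1 + j = i + (j + 1) by ring] at this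
  have h3 : ∀ i j : ℕ, a ^ (2 ^ i * 3 ^ j) ∈ H → a ^ (3 ^ (i + j)) ∈ H := by
    intro i
    induction i with
    | zero => intro j hj; simpa using hj
    | succ i ih =>
      intro j hj
      have e : 2 ^ (i + 1) * 3 ^ j = 2 * (2 ^ i * 3 ^ j) := by ring
      have e2 : 3 * (2 ^ i * 3 ^ j) = 2 ^ i * 3 ^ (j + 1) := by ring
      have h3 : a ^ (2 ^ i * 3 ^ (j + 1)) ∈ H := by
        rw [← e2, ← conj_pow_two h, ← e]
        exact H.mul_mem (H.mul_mem ht hj) (H.inv_mem ht)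
      have := ih (j + 1) h3
      rwa [show i + (j + 1) = i + 1 + j by ring] at this
  have hA := h2 j i ha
  have hB := h3 i j ha
  have hc : Nat.Coprime (2 ^ (i + j)) (3 ^ (i + j)) := Nat.Coprime.pow _ _ (by norm_num)
  have hb := Nat.gcd_eq_gcd_ab (2 ^ (i + j)) (3 ^ (i + j))
  rw [hc] at hb
  have e : a = (a ^ (2 ^ (i + j))) ^ (Nat.gcdA (2 ^ (i + j)) (3 ^ (i + j))) *
      (a ^ (3 ^ (i + j))) ^ (Nat.gcdB (2 ^ (i + j)) (3 ^ (i + j))) := by
    rw [← zpow_natCast, ← zpow_natCast, ← zpow_mul, ← zpow_mul, ← zpow_add, ← hb]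
    simp
  rw [e]
  exact H.mul_mem (H.zpow_mem hA _) (H.zpow_mem hB _)

theorem top_of_conj {a t : G} (h : t * a ^ 2 * t⁻¹ = a ^ 3)
    (hgen : Subgroup.closure ({a, t} : Set G) = ⊤) (H : Subgroup G) (g : G)
    (ha : g * a * g⁻¹ ∈ H) (ht : t ∈ H) : H = ⊤ := by
  obtain ⟨m, i, j, hm⟩ := commens h hgen g
  have h1 : a ^ (2 ^ i * 3 ^ j) ∈ H := by
    rw [← hm, ← conj_pow]
    exact H.pow_mem ha m
  have h2 := mem_of_pow h H ht i j h1
  rw [eq_top_iff, ← hgen, Subgroup.closure_le]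
  rintro x (rfl | rfl)
  · exact h2
  · exact ht

theorem invGen_pair {a t : G} (h : t * a ^ 2 * t⁻¹ = a ^ 3)
    (hgen : Subgroup.closure ({a, t} : Set G) = ⊤) : InvGen ({a, t} : Set G) := by
  intro c
  set H := Subgroup.closure ((fun s => (c s)⁻¹ * s * c s) '' ({a, t} : Set G)) with hH
  have ha : (c a)⁻¹ * a * c a ∈ H := Subgroup.subset_closure ⟨a, by simp, rfl⟩
  have ht : (c t)⁻¹ * t * c t ∈ H := Subgroup.subset_closure ⟨t, by simp, rfl⟩
  let K : Subgroup G := H.comap (MulAut.conj (c t)⁻¹).toMonoidHom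
  have hK : ∀ x, x ∈ K ↔ (c t)⁻¹ * x * c t ∈ H := by
    intro x; simp [K]
  have hKt : K = ⊤ := by
    apply top_of_conj h hgen K (c t * (c a)⁻¹)
    · rw [hK]
      have : (c t)⁻¹ * (c t * (c a)⁻¹ * a * (c t * (c a)⁻¹)⁻¹) * c t = (c a)⁻¹ * a * c a := by group
      rw [this]; exact ha
    · rw [hK]; exact ht
  rw [eq_top_iff]
  intro x _
  have : c t * x * (c t)⁻¹ ∈ K := by rw [hKt]; trivial
  rw [hK] at this
  have e : (c t)⁻¹ * (c t * x * (c t)⁻¹) * c t = x := by group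
  rwa [e] at this

end Pool.Agent.H950Z.IG
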