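import Mathlib
import Pool.Agent.H950Z.IGDefs

set_option autoImplicit false

namespace Pool.Agent.H950Z.IG

abbrev Let : Type := Bool × ℤ

def md (b : Bool) : ℤ := if b then 3 else 2

def Valid : List Let → Prop
  | [] => True
  | x :: w => 0 ≤ x.2 ∧ x.2 < md x.1 ∧ w.head? ≠ some (!x.1, 0) ∧ Valid w

def odo : ℤ → List Let → List Let
  | _, [] => []
  | n, x :: w => (x.1, (n + x.2) % md x.1) :: odo (md (!x.1) * ((n + x.2) / md x.1)) w

def stp (b : Bool) (w : List Let) : List Let :=
  if w.head? = some (!b, 0) then w.tail else (b, 0) :: w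

theorem md_pos (b : Bool) : 0 < md b := by cases b <;> simp [md]

theorem odo_zero : ∀ w : List Let, Valid w → odo 0 w = w
  | [], _ => rfl
  | (b, r) :: w, h => by
    obtain ⟨h0, h1, _, h3⟩ := h
    simp only at h0 h1
    simp only [odo, zero_add]
    rw [Int.emod_eq_of_lt h0 h1, Int.ediv_eq_zero_of_lt h0 h1, mul_zero, odo_zero w h3]

theorem odo_odo : ∀ (w : List Let) (n k : ℤ), odo n (odo k w) = odo (n + k) w
  | [], _, _ => rfl
  | (b, r) :: w, n, k => by
    simp only [odo]
    rw [odo_odo w]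
    congr 1
    · cases b <;> simp only [md] <;> simp <;> omega
    · congr 1
      rw [← mul_add]
      congr 1
      cases b <;> simp only [md] <;> simp <;> omega

theorem odo_head {w : List Let} (hw : Valid w) (b : Bool) (q : ℤ)
    (h : w.head? ≠ some (b, 0)) : (odo (md b * q) w).head? ≠ some (b, 0) := by
  cases w with
  | nil => simp [odo]
  | cons x w =>
    obtain ⟨c, r⟩ := x
    obtain ⟨h0, h1, _, _⟩ := hw
    simp only [odo, List.head?_cons, ne_eq, Option.some.injEq, Prod.mk.injEq, not_and] at h h0 h1 ⊢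
    rintro rfl
    have := h rfl
    cases c <;> simp only [md] at h1 ⊢ <;> simp at h1 ⊢ <;> omega

theorem odo_valid : ∀ (w : List Let) (n : ℤ), Valid w → Valid (odo n w)
  | [], _, _ => trivial
  | (b, r) :: w, n, h => by
    obtain ⟨_, _, h2, h3⟩ := h
    refine ⟨Int.emod_nonneg _ (md_pos b).ne', Int.emod_lt_of_pos _ (md_pos b), ?_,
      odo_valid w _ h3⟩
    exact odo_head h3 (!b) _ h2

theorem stp_valid (b : Bool) {w : List Let} (h : Valid w) : Valid (stp b w) := by
  unfold stp
  split_ifs with hw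
  · cases w with
    | nil => trivial
    | cons x w => exact h.2.2.2
  · exact ⟨le_rfl, md_pos b, hw, h⟩

theorem stp_stp (b : Bool) {w : List Let} (h : Valid w) : stp (!b) (stp b w) = w := by
  by_cases hw : w.head? = some (!b, 0)
  · cases w with
    | nil => simp at hw
    | cons x w =>
      have hx : x = (!b, 0) := by simpa using hw
      subst hx
      have h2 := h.2.2.1
      have e : stp b ((!b, 0) :: w) = w := by simp [stp]
      rw [e, stp, if_neg h2]
  · have e : stp b w = (b, 0) :: w := by rw [stp, if_neg hw]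
    rw [e]; simp [stp]

theorem stp_odo {w : List Let} (h : Valid w) : stp true (odo 2 w) = odo 3 (stp true w) := by
  by_cases hw : w.head? = some (false, 0)
  · cases w with
    | nil => simp at hw
    | cons x w =>
      have hx : x = (false, 0) := by simpa using hw
      subst hx
      simp [stp, odo, md]
  · have h2 : (odo 2 w).head? ≠ some (false, 0) := by
      have := odo_head h false 1 hw
      simpa [md] using this
    have e1 : stp true (odo 2 w) = (true, 0) :: odo 2 w := by
      rw [stp, if_neg (by simpa using h2)]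
    have e2 : stp true w = (true, 0) :: w := by
      rw [stp, if_neg (by simpa using hw)]
    rw [e1, e2]
    simp [odo, md]

theorem valid_of_append : ∀ (u v : List Let), Valid (u ++ v) → Valid u
  | [], _, _ => trivial
  | x :: u, v, h => by
    obtain ⟨h0, h1, h2, h3⟩ := h
    refine ⟨h0, h1, ?_, valid_of_append u v h3⟩
    cases u with
    | nil => simp
    | cons y u => simpa using h2

theorem odo_concat : ∀ (u : List Let) (n : ℤ) (x : Let), ∃ y, odo n (u ++ [x]) = odo n u ++ [y]
  | [], n, x => ⟨_, rfl⟩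
  | z :: u, n, x => by
    obtain ⟨y, hy⟩ := odo_concat u (md (!z.1) * ((n + z.2) / md z.1)) x
    exact ⟨y, by simp only [List.cons_append, odo, hy]⟩

theorem stp_concat (b : Bool) (u : List Let) (x : Let) :
    (∃ y, stp b (u ++ [x]) = stp b u ++ [y]) ∨ (∃ y, stp b u = stp b (u ++ [x]) ++ [y]) := by
  cases u with
  | nil =>
    by_cases hx : x = (!b, 0)
    · right; subst hx; exact ⟨(b, 0), by simp [stp]⟩
    · left; exact ⟨x, by simp [stp, hx]⟩
  | cons z u =>
    left
    by_cases hz : z = (!b, 0)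
    · exact ⟨x, by simp [stp, hz]⟩
    · exact ⟨x, by simp [stp, hz]⟩

/-- length of the longest common initial segment -/
def cp : List Let → List Let → ℕ
  | x :: u, y :: w => if x = y then cp u w + 1 else 0
  | _, _ => 0

theorem cp_comm : ∀ u w : List Let, cp u w = cp w u
  | [], [] => rfl
  | [], _ :: _ => rfl
  | _ :: _, [] => rfl
  | x :: u, y :: w => by
    simp only [cp]
    by_cases h : x = y
    · subst h; simp [cp_comm u w]
    · rw [if_neg h, if_neg (Ne.symm h)]

theorem cp_le : ∀ u w : List Let, cp u w ≤ u.length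
  | [], [] => le_rfl
  | [], _ :: _ => le_rfl
  | _ :: _, [] => Nat.zero_le _
  | x :: u, y :: w => by
    simp only [cp, List.length_cons]
    split_ifs
    · have := cp_le u w; omega
    · omega

theorem cp_self : ∀ u : List Let, cp u u = u.length
  | [] => rfl
  | x :: u => by simp [cp, cp_self u]

theorem cp_nil (u : List Let) : cp u [] = 0 := by cases u <;> rfl

theorem cp_ultra : ∀ u v w : List Let, min (cp u v) (cp v w) ≤ cp u w
  | [], v, w => by
    have : cp [] v = 0 := by cases v <;> rfl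
    rw [this]; simp
  | x :: u, [], w => by simp [cp]
  | x :: u, y :: v, [] => by simp [cp]
  | x :: u, y :: v, z :: w => by
    simp only [cp]
    have := cp_ultra u v w
    by_cases h1 : x = y
    · by_cases h2 : y = z
      · rw [if_pos h1, if_pos h2, if_pos (h1.trans h2)]; omega
      · rw [if_neg h2]; simp
    · rw [if_neg h1]; simp

theorem cp_concat : ∀ (u w : List Let) (x : Let),
    cp u w ≤ cp (u ++ [x]) w ∧ cp (u ++ [x]) w ≤ cp u w + 1
  | [], [], x => by simp [cp]
  | [], y :: w, x => by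
    simp only [List.nil_append, cp]
    split_ifs
    · have : cp [] w = 0 := by cases w <;> rfl
      simp [this]
    · simp
  | z :: u, [], x => by simp [cp]
  | z :: u, y :: w, x => by
    simp only [List.cons_append, cp]
    have := cp_concat u w x
    split_ifs
    · omega
    · omega

theorem cp_split : ∀ u w : List Let, ∃ c u' w' : List Let,
    u = c ++ u' ∧ w = c ++ w' ∧ c.length = cp u w
  | [], w => ⟨[], [], w, rfl, rfl, by cases w <;> rfl⟩
  | x :: u, [] => ⟨[], x :: u, [], rfl, rfl, rfl⟩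
  | x :: u, y :: w => by
    by_cases h : x = y
    · subst h
      obtain ⟨c, u', w', h1, h2, h3⟩ := cp_split u w
      exact ⟨x :: c, u', w', by rw [h1]; rfl, by rw [h2]; rfl, by simp [cp, h3]⟩
    · exact ⟨[], x :: u, y :: w, rfl, rfl, by simp [cp, h]⟩

/-- vertices of the tree -/
def W : Type := {w : List Let // Valid w}

def root : W := ⟨[], trivial⟩

def Tr : SimpleGraph W where
  Adj u w := (∃ x, w.1 = u.1 ++ [x]) ∨ (∃ x, u.1 = w.1 ++ [x])
  symm := ⟨fun _ _ h => h.symm⟩
  loopless := ⟨fun u h => by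
    rcases h with ⟨x, hx⟩ | ⟨x, hx⟩ <;>
    · have := congrArg List.length hx
      simp at this⟩

theorem walk_up (c : List Let) (v : List Let) (h : Valid (c ++ v)) :
    ∃ p : Tr.Walk ⟨c, valid_of_append c v h⟩ ⟨c ++ v, h⟩, p.length = v.length := by
  induction v using List.reverseRecOn with
  | nil =>
    have e : (⟨c ++ [], h⟩ : W) = ⟨c, valid_of_append c [] h⟩ := Subtype.ext (List.append_nil c)
    exact ⟨SimpleGraph.Walk.nil.copy rfl e.symm, by simp⟩
  | append_singleton v x ih =>
    have h' : Valid (c ++ v) := valid_of_append (c ++ v) [x] (by rwa [List.append_assoc])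
    obtain ⟨p, hp⟩ := ih h'
    have hadj : Tr.Adj ⟨c ++ v, h'⟩ ⟨c ++ (v ++ [x]), h⟩ :=
      Or.inl ⟨x, by simp⟩
    exact ⟨p.concat hadj, by simp [hp]⟩

theorem exists_walk (u w : W) :
    ∃ p : Tr.Walk u w, p.length + 2 * cp u.1 w.1 = u.1.length + w.1.length := by
  obtain ⟨u, hu⟩ := u
  obtain ⟨w, hw⟩ := w
  obtain ⟨c, u', w', h1, h2, h3⟩ := cp_split u w
  simp only
  rw [← h3]
  subst h1
  subst h2
  obtain ⟨p, hp⟩ := walk_up c u' hu
  obtain ⟨q, hq⟩ := walk_up c w' hw
  refine ⟨p.reverse.append q, ?_⟩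
  simp [hp, hq]; ring

theorem walk_lower {u w : W} (p : Tr.Walk u w) :
    u.1.length + w.1.length ≤ p.length + 2 * cp u.1 w.1 := by
  induction p with
  | nil => rw [cp_self]; simp; omega
  | @cons a b c hab p ih =>
    simp only [SimpleGraph.Walk.length_cons]
    rcases hab with ⟨x, hx⟩ | ⟨x, hx⟩
    · have h1 := cp_concat a.1 c.1 x
      rw [hx] at ih
      simp at ih
      omega
    · have h1 := cp_concat b.1 c.1 x
      rw [hx]
      simp
      omega

theorem Tr_connected : Tr.Connected := by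
  haveI : Nonempty W := ⟨root⟩
  exact ⟨fun u w => let ⟨p, _⟩ := exists_walk u w; ⟨p⟩⟩

theorem Tr_dist (u w : W) : Tr.dist u w + 2 * cp u.1 w.1 = u.1.length + w.1.length := by
  obtain ⟨p, hp⟩ := exists_walk u w
  obtain ⟨q, hq⟩ := (Tr_connected.preconnected u w).exists_walk_length_eq_dist
  have h1 := SimpleGraph.dist_le p
  have h2 := walk_lower q
  omega

theorem Tr_four (o x y z : W) :
    min (((Tr.dist x o : ℝ) + Tr.dist z o - Tr.dist x z) / 2)
      (((Tr.dist z o : ℝ) + Tr.dist y o - Tr.dist z y) / 2) - 4 ≤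
      ((Tr.dist x o : ℝ) + Tr.dist y o - Tr.dist x y) / 2 := by
  have d1 := Tr_dist x o
  have d2 := Tr_dist z o
  have d3 := Tr_dist x z
  have d4 := Tr_dist y o
  have d5 := Tr_dist z y
  have d6 := Tr_dist x y
  have u1 := cp_ultra x.1 z.1 y.1
  have u2 := cp_ultra x.1 o.1 y.1
  have u3 := cp_ultra z.1 x.1 o.1
  have u4 := cp_ultra z.1 y.1 o.1
  have u5 := cp_ultra x.1 y.1 z.1
  have u6 := cp_ultra x.1 o.1 z.1
  have u7 := cp_ultra y.1 x.1 o.1
  have u8 := cp_ultra y.1 z.1 o.1
  have u9 := cp_ultra x.1 y.1 o.1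
  have u10 := cp_ultra x.1 z.1 o.1
  have u11 := cp_ultra z.1 x.1 y.1
  have u12 := cp_ultra z.1 o.1 y.1
  rw [cp_comm o.1 y.1] at u2 u12
  rw [cp_comm z.1 x.1] at u3 u11
  rw [cp_comm y.1 z.1] at u5 u8
  rw [cp_comm o.1 z.1] at u6
  rw [cp_comm y.1 x.1] at u7
  have key : Tr.dist x o + Tr.dist z o + Tr.dist x y ≤ Tr.dist x o + Tr.dist y o + Tr.dist x z ∨
      Tr.dist z o + Tr.dist y o + Tr.dist x y ≤ Tr.dist x o + Tr.dist y o + Tr.dist z y := by
    omega
  rcases key with k | k
  · have k' : (Tr.dist x o : ℝ) + Tr.dist z o + Tr.dist x y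
        ≤ Tr.dist x o + Tr.dist y o + Tr.dist x z := by exact_mod_cast k
    have := min_le_left (((Tr.dist x o : ℝ) + Tr.dist z o - Tr.dist x z) / 2)
      (((Tr.dist z o : ℝ) + Tr.dist y o - Tr.dist z y) / 2)
    linarith
  · have k' : (Tr.dist z o : ℝ) + Tr.dist y o + Tr.dist x y
        ≤ Tr.dist x o + Tr.dist y o + Tr.dist z y := by exact_mod_cast k
    have := min_le_right (((Tr.dist x o : ℝ) + Tr.dist z o - Tr.dist x z) / 2)
      (((Tr.dist z o : ℝ) + Tr.dist y o - Tr.dist z y) / 2)
    linarith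

/-- the odometer -/
def pA : Equiv.Perm W where
  toFun w := ⟨odo 1 w.1, odo_valid _ _ w.2⟩
  invFun w := ⟨odo (-1) w.1, odo_valid _ _ w.2⟩
  left_inv w := Subtype.ext (by simp only [odo_odo]; simpa using odo_zero _ w.2)
  right_inv w := Subtype.ext (by simp only [odo_odo]; simpa using odo_zero _ w.2)

/-- the shift -/
def pT : Equiv.Perm W where
  toFun w := ⟨stp true w.1, stp_valid _ w.2⟩
  invFun w := ⟨stp false w.1, stp_valid _ w.2⟩
  left_inv w := Subtype.ext (stp_stp true w.2)
  right_inv w := Subtype.ext (stp_stp false w.2)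

theorem pA_val (w : W) : (pA w).1 = odo 1 w.1 := rfl
theorem pT_val (w : W) : (pT w).1 = stp true w.1 := rfl
theorem pA_inv_val (w : W) : (pA⁻¹ w).1 = odo (-1) w.1 := rfl
theorem pT_inv_val (w : W) : (pT⁻¹ w).1 = stp false w.1 := rfl

theorem perm_rel : pT * pA ^ 2 * pT⁻¹ * (pA ^ 3)⁻¹ = 1 := by
  have : pT * pA ^ 2 = pA ^ 3 * pT := by
    ext w
    apply Subtype.ext
    simp only [pow_succ, pow_zero, one_mul, Equiv.Perm.mul_apply, pA_val, pT_val, odo_odo]
    exact stp_odo w.2
  rw [this]; group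

theorem odo_adj (n : ℤ) {u w : W} (h : Tr.Adj u w) :
    Tr.Adj ⟨odo n u.1, odo_valid _ _ u.2⟩ ⟨odo n w.1, odo_valid _ _ w.2⟩ := by
  rcases h with ⟨x, hx⟩ | ⟨x, hx⟩
  · obtain ⟨y, hy⟩ := odo_concat u.1 n x
    exact Or.inl ⟨y, by simp only [hx, hy]⟩
  · obtain ⟨y, hy⟩ := odo_concat w.1 n x
    exact Or.inr ⟨y, by simp only [hx, hy]⟩

theorem stp_adj (b : Bool) {u w : W} (h : Tr.Adj u w) :
    Tr.Adj ⟨stp b u.1, stp_valid _ u.2⟩ ⟨stp b w.1, stp_valid _ w.2⟩ := by
  rcases h with ⟨x, hx⟩ | ⟨x, hx⟩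
  · rcases stp_concat b u.1 x with ⟨y, hy⟩ | ⟨y, hy⟩
    · exact Or.inl ⟨y, by simp only [hx, hy]⟩
    · exact Or.inr ⟨y, by simp only [hx]; exact hy⟩
  · rcases stp_concat b w.1 x with ⟨y, hy⟩ | ⟨y, hy⟩
    · exact Or.inr ⟨y, by simp only [hx, hy]⟩
    · exact Or.inl ⟨y, by simp only [hx]; exact hy⟩

theorem pT_pow_root (n : ℕ) : ((pT ^ n) root).1 = List.replicate n (true, 0) := by
  induction n with
  | zero => rfl
  | succ n ih =>
    rw [pow_succ', Equiv.Perm.mul_apply, pT_val, ih]
    cases n <;> simp [stp, List.replicate_succ]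

theorem head_of_cp {w : List Let} (h : 1 ≤ cp w (stp true w)) :
    ∃ b v, w = (b, 0) :: v := by
  cases w with
  | nil => simp [cp] at h
  | cons x v =>
    by_cases hx : x = (false, 0)
    · exact ⟨false, v, by rw [hx]⟩
    · have e : stp true (x :: v) = (true, 0) :: x :: v := by simp [stp, hx]
      rw [e, cp] at h
      split_ifs at h with h1
      · exact ⟨true, v, by rw [h1]⟩
      · omega

end Pool.Agent.H950Z.IG
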