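import Mathlib
import Pool.Agent.H950Z.IGAlg
import Pool.Agent.H950Z.IGTree
import Pool.Agent.Helper548.HB.RealZ
import Pool.Agent.Helper548.HB.P_hyp_of_four

set_option autoImplicit false

namespace Pool.Agent.H950Z.IG

open Pool.Agent.Helper548.HB (Realz exists_realz hyp_of_four)

def ga : BS23 := PresentedGroup.of false
def gt : BS23 := PresentedGroup.of true

theorem bs_rel : gt * ga ^ 2 * gt⁻¹ = ga ^ 3 := by
  have h : (PresentedGroup.mk _ (FreeGroup.of true * FreeGroup.of false ^ 2 * (FreeGroup.of true)⁻¹ *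
    (FreeGroup.of false ^ 3)⁻¹) : BS23) = 1 := PresentedGroup.one_of_mem rfl
  simp only [map_mul, map_inv, map_pow] at h
  exact mul_inv_eq_one.mp h

theorem bs_gen : Subgroup.closure ({ga, gt} : Set BS23) = ⊤ := by
  rw [← PresentedGroup.closure_range_of]
  congr 1
  ext x
  simp only [Set.mem_insert_iff, Set.mem_singleton_iff, Set.mem_range, Bool.exists_bool, ga, gt]
  constructor
  · rintro (h | h)
    · exact Or.inl h.symm
    · exact Or.inr h.symm
  · rintro (h | h)
    · exact Or.inl h.symm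
    · exact Or.inr h.symm

noncomputable def rho : BS23 →* Equiv.Perm W :=
  PresentedGroup.toGroup (f := fun b => if b then pT else pA) (by
    rintro r rfl
    simp only [map_mul, map_inv, map_pow, FreeGroup.lift_apply_of]
    simpa using perm_rel)

theorem rho_a : rho ga = pA := by
  unfold rho ga; rw [PresentedGroup.toGroup.of]; simp

theorem rho_t : rho gt = pT := by
  unfold rho gt; rw [PresentedGroup.toGroup.of]; simp

noncomputable instance actW : MulAction BS23 W := MulAction.compHom W rho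

theorem smul_eq (g : BS23) (w : W) : g • w = rho g w := rfl

theorem adj_smul (g : BS23) : ∀ a b : W, Tr.Adj a b → Tr.Adj (g • a) (g • b) := by
  have hg : g ∈ Subgroup.closure ({ga, gt} : Set BS23) := by rw [bs_gen]; trivial
  induction hg using Subgroup.closure_induction_left with
  | one => intro a b h; simpa using h
  | mul_left x hx y _ ih =>
    intro a b h
    rw [mul_smul, mul_smul]
    rcases hx with rfl | rfl
    · rw [smul_eq ga, smul_eq ga, rho_a]; exact odo_adj 1 (ih a b h)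
    · rw [smul_eq gt, smul_eq gt, rho_t]; exact stp_adj true (ih a b h)
  | inv_mul_cancel x hx y _ ih =>
    intro a b h
    rw [mul_smul, mul_smul]
    rcases hx with rfl | rfl
    · rw [smul_eq ga⁻¹, smul_eq ga⁻¹, map_inv, rho_a]; exact odo_adj (-1) (ih a b h)
    · rw [smul_eq gt⁻¹, smul_eq gt⁻¹, map_inv, rho_t]; exact stp_adj false (ih a b h)

theorem adj_smul_iff (g : BS23) (a b : W) : Tr.Adj (g • a) (g • b) ↔ Tr.Adj a b := by
  refine ⟨fun h => ?_, adj_smul g a b⟩
  have := adj_smul g⁻¹ _ _ h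
  simpa using this

theorem a_root : ga • root = root := by
  rw [smul_eq, rho_a]; rfl

theorem rel_of_lim {X : Type} [MetricSpace X] {δ : ℝ}
    (hyp : ∀ o x y z : X, min (gp o x z) (gp o z y) - δ ≤ gp o x y) {u v : GSeq X}
    (h : u.lim = v.lim) : u.Rel v := by
  have hcomm : ∀ o x y : X, gp o x y = gp o y x := by
    intro o x y; unfold gp; rw [dist_comm x y]; ring
  have he : Equivalence (GSeq.Rel (X := X)) := by
    refine ⟨?_, ?_, ?_⟩
    · intro u o R
      obtain ⟨N, hN⟩ := u.conv o R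
      exact ⟨N, fun n hn => hN n hn n hn⟩
    · intro u v h o R
      obtain ⟨N, hN⟩ := h o R
      exact ⟨N, fun n hn => by rw [hcomm]; exact hN n hn⟩
    · intro u v w h1 h2 o R
      obtain ⟨N1, hN1⟩ := h1 o (R + δ)
      obtain ⟨N2, hN2⟩ := h2 o (R + δ)
      refine ⟨max N1 N2, fun n hn => ?_⟩
      have h3 := hN1 n (le_trans (le_max_left _ _) hn)
      have h4 := hN2 n (le_trans (le_max_right _ _) hn)
      have h5 := hyp o (u.seq n) (w.seq n) (v.seq n)
      have h6 := le_min h3 h4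
      linarith
  exact (he.eqvGen_iff).mp (Quot.eqvGen_exact h)

section
variable (R : Realz Tr BS23)

theorem gp_vert (u w : W) : gp (R.ι root) (R.ι u) (R.ι w) = cp u.1 w.1 := by
  unfold gp
  rw [R.dist_ι, R.dist_ι, R.dist_ι]
  have h1 := Tr_dist u root
  have h2 := Tr_dist w root
  have h3 := Tr_dist u w
  have e : (root : W).1 = [] := rfl
  rw [e, cp_nil] at h1 h2
  simp only [List.length_nil] at h1 h2
  have : Tr.dist u root + Tr.dist w root = Tr.dist u w + 2 * cp u.1 w.1 := by omega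
  have h4 : (Tr.dist u root : ℝ) + Tr.dist w root = Tr.dist u w + 2 * cp u.1 w.1 := by
    exact_mod_cast this
  linarith

theorem cp_of_gp {x y : R.X} {u w : W} (hx : dist x (R.ι u) ≤ 1) (hy : dist y (R.ι w) ≤ 1)
    (h : 3 ≤ gp (R.ι root) x y) : 1 ≤ cp u.1 w.1 := by
  have h1 := gp_vert R u w
  unfold gp at h h1
  have a1 := dist_triangle x (R.ι u) (R.ι root)
  have a2 := dist_triangle y (R.ι w) (R.ι root)
  have a3 := dist_triangle4 (R.ι u) x y (R.ι w)
  rw [dist_comm (R.ι u) x] at a3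
  have : (1 : ℝ) ≤ cp u.1 w.1 := by linarith
  exact_mod_cast this

theorem dist_t_nat (n : ℕ) : dist (gt ^ n • R.ι root) (R.ι root) = n := by
  rw [← R.ι_smul, R.dist_ι]
  have h := Tr_dist (gt ^ n • root) root
  have e : (root : W).1 = [] := rfl
  rw [e, cp_nil, smul_eq, map_pow, rho_t, pT_pow_root] at h
  simp only [List.length_nil, List.length_replicate] at h
  rw [smul_eq, map_pow, rho_t]
  exact_mod_cast (by omega : Tr.dist ((pT ^ n) root) root = n)

theorem dist_t (m n : ℤ) : dist (gt ^ m • R.ι root) (gt ^ n • R.ι root) = |(m : ℝ) - n| := by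
  have key : ∀ m n : ℤ, n ≤ m →
      dist (gt ^ m • R.ι root) (gt ^ n • R.ι root) = (m : ℝ) - n := by
    intro m n h
    obtain ⟨k, hk⟩ := Int.le.dest h
    rw [← hk, zpow_add, mul_smul, R.isom, zpow_natCast, dist_t_nat]
    push_cast; ring
  rcases le_total n m with h | h
  · rw [key m n h, abs_of_nonneg]
    have : (n : ℝ) ≤ m := by exact_mod_cast h
    linarith
  · rw [dist_comm, key n m h, abs_sub_comm, abs_of_nonneg]
    have : (m : ℝ) ≤ n := by exact_mod_cast h
    linarith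

theorem a_fix : ga • R.ι root = R.ι root := by rw [← R.ι_smul, a_root]

theorem a_inv_fix : ga⁻¹ • R.ι root = R.ι root := by
  rw [inv_smul_eq_iff, a_fix]

theorem lox_t : Loxodromic R.X gt :=
  ⟨R.ι root, 1, 0, le_rfl, le_rfl, fun m n => by rw [dist_t]; simp⟩

theorem lox_h : Loxodromic R.X (ga * gt * ga⁻¹) := by
  refine ⟨R.ι root, 1, 0, le_rfl, le_rfl, fun m n => ?_⟩
  rw [conj_zpow, conj_zpow, mul_smul, mul_smul, mul_smul, mul_smul, R.isom, a_inv_fix, dist_t]
  simp

theorem general : GeneralType BS23 R.X := by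
  have hyp : ∀ o x y z : R.X, min (gp o x z) (gp o z y) - 10 ≤ gp o x y :=
    hyp_of_four Tr BS23 R Tr_four
  refine ⟨gt, ga * gt * ga⁻¹, lox_t R, lox_h R, ?_⟩
  rintro ξ ⟨⟨u1, v1, h1, h2, h3⟩, ⟨u2, v2, h4, h5, h6⟩⟩
  obtain ⟨N1, hN1⟩ := rel_of_lim hyp (h1.trans h2.symm) (R.ι root) 3
  obtain ⟨N2, hN2⟩ := rel_of_lim hyp (h4.trans h5.symm) (R.ι root) 3
  obtain ⟨N3, hN3⟩ := rel_of_lim hyp (h1.trans h4.symm) (R.ι root) 3
  set n := max N1 (max N2 N3) with hn
  have k1 := hN1 n (le_max_left _ _)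
  have k2 := hN2 n (le_trans (le_max_left _ _) (le_max_right _ _))
  have k3 := hN3 n (le_trans (le_max_right _ _) (le_max_right _ _))
  rw [h3] at k1
  rw [h6] at k2
  obtain ⟨w1, hw1⟩ := R.dense (u1.seq n)
  obtain ⟨w2, hw2⟩ := R.dense (ga⁻¹ • u2.seq n)
  have c1 : 1 ≤ cp w1.1 (gt • w1).1 :=
    cp_of_gp R hw1 (by rw [R.ι_smul, R.isom]; exact hw1) k1
  have k2' : 3 ≤ gp (R.ι root) (ga⁻¹ • u2.seq n) (gt • ga⁻¹ • u2.seq n) := by
    have e : gp (R.ι root) (ga⁻¹ • u2.seq n) (gt • ga⁻¹ • u2.seq n)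
        = gp (R.ι root) (u2.seq n) ((ga * gt * ga⁻¹) • u2.seq n) := by
      unfold gp
      rw [← R.isom ga (ga⁻¹ • u2.seq n) (R.ι root), ← R.isom ga (gt • ga⁻¹ • u2.seq n) (R.ι root),
        ← R.isom ga (ga⁻¹ • u2.seq n) (gt • ga⁻¹ • u2.seq n), a_fix, smul_inv_smul, mul_smul,
        mul_smul]
    rw [e]; exact k2
  have c2 : 1 ≤ cp w2.1 (gt • w2).1 :=
    cp_of_gp R hw2 (by rw [R.ι_smul, R.isom]; exact hw2) k2'
  have hw2' : dist (u2.seq n) (R.ι (ga • w2)) ≤ 1 := by
    rw [R.ι_smul, ← R.isom ga⁻¹, inv_smul_smul]; exact hw2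
  have c3 : 1 ≤ cp w1.1 (ga • w2).1 := cp_of_gp R hw1 hw2' k3
  rw [smul_eq, rho_t, pT_val] at c1 c2
  rw [smul_eq, rho_a, pA_val] at c3
  obtain ⟨b1, v1', e1⟩ := head_of_cp c1
  obtain ⟨b2, v2', e2⟩ := head_of_cp c2
  rw [e1, e2] at c3
  cases b2 <;> simp [odo, cp, md] at c3

end

theorem main : ∃ (X : Type) (_ : MetricSpace X) (_ : MulAction BS23 X),
    (∀ (g : BS23) (x y : X), dist (g • x) (g • y) = dist x y) ∧ Hyperbolic X ∧
      GeneralType BS23 X := by
  obtain ⟨R⟩ := exists_realz Tr Tr_connected BS23 adj_smul_iff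
  exact ⟨R.X, R.met, R.act, R.isom,
    ⟨R.geod, 10, by norm_num, hyp_of_four Tr BS23 R Tr_four⟩, general R⟩

theorem fig : IsFIG BS23 := ⟨{ga, gt}, Set.toFinite _, invGen_pair bs_rel bs_gen⟩

end Pool.Agent.H950Z.IG
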