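import Pool.Agent.H950Z.BQ
import Pool.Agent.SCZ.Grp.Holds

/-! A tree-like length function with a height function gives a good action on a tree. -/

set_option autoImplicit false

namespace Pool.Agent.H950Z.LenGood

open Pool.Agent.H59Z.NA Pool.Agent.SCZ.Geo Pool.Agent.SCZ.Grp

/-- Length functions of Bass-Serre type: the vertex group is `S`. -/
structure Len (Q : Type) [Group Q] where
  l : Q → ℕ
  S : Subgroup Q
  ht : Q →* Multiplicative ℤ
  zero : ∀ q, l q = 0 ↔ q ∈ S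
  inv : ∀ q, l q⁻¹ = l q
  mul : ∀ q r, l (q * r) ≤ l q + l r
  geo : ∀ q t, t ≤ l q → ∃ z, l z = t ∧ t + l (z⁻¹ * q) = l q
  four : ∀ x y z, l (x⁻¹ * y) + l z ≤ max (l (x⁻¹ * z) + l y) (l x + l (y⁻¹ * z))
  ht0 : ∀ q, l q = 0 → (ht q).toAdd = 0
  ht1 : ∀ q, l q = 1 → (ht q).toAdd = 1 ∨ (ht q).toAdd = -1
  vert : ∀ a e e', a ∈ S → a ≠ 1 → l e = 1 → l e' = 1 → l (e⁻¹ * e') ≠ 0 →
    e⁻¹ * a * e ∈ S → e'⁻¹ * a * e' ∈ S → (ht e).toAdd = 1

namespace Len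

variable {Q : Type} [Group Q] (L : Len Q)

theorem mul_S (q : Q) {s : Q} (hs : s ∈ L.S) : L.l (q * s) = L.l q := by
  have h1 := L.mul q s
  have h2 := L.mul (q * s) s⁻¹
  rw [(L.zero s).2 hs] at h1
  rw [(L.zero _).2 (L.S.inv_mem hs), mul_inv_cancel_right] at h2
  omega

theorem S_mul (q : Q) {s : Q} (hs : s ∈ L.S) : L.l (s * q) = L.l q := by
  rw [← L.inv, mul_inv_rev, L.mul_S _ (L.S.inv_mem hs), L.inv]

theorem ht_le : ∀ (n : ℕ) (q : Q), L.l q = n → ((L.ht q).toAdd).natAbs ≤ n := by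
  intro n
  induction n with
  | zero => intro q hq; rw [L.ht0 q hq]; simp
  | succ n ih =>
    intro q hq
    obtain ⟨z, h1, h2⟩ := L.geo q 1 (by omega)
    have h3 := ih (z⁻¹ * q) (by omega)
    have h4 := L.ht1 z h1
    rw [map_mul, map_inv, toAdd_mul, toAdd_inv] at h3
    omega

/-- The tree. -/
noncomputable def d (a b : Q ⧸ L.S) : ℕ := L.l (a.out⁻¹ * b.out)

theorem d_mk (q r : Q) : L.d (q : Q ⧸ L.S) (r : Q ⧸ L.S) = L.l (q⁻¹ * r) := by
  obtain ⟨s, hs⟩ := QuotientGroup.mk_out_eq_mul L.S q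
  obtain ⟨t, ht⟩ := QuotientGroup.mk_out_eq_mul L.S r
  rw [d, hs, ht, mul_inv_rev, mul_assoc, L.S_mul _ (L.S.inv_mem s.2), ← mul_assoc,
    L.mul_S _ t.2]

noncomputable def X : GM (Q ⧸ L.S) where
  d := L.d
  self x := by rw [d, inv_mul_cancel, L.zero]; exact L.S.one_mem
  comm x y := by rw [d, d, ← L.inv, mul_inv_rev, inv_inv]
  tri x y z := by
    have := L.mul (x.out⁻¹ * y.out) (y.out⁻¹ * z.out)
    rwa [mul_assoc, mul_inv_cancel_left] at this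
  geo x y t ht := by
    obtain ⟨x, rfl⟩ := QuotientGroup.mk_surjective x
    obtain ⟨y, rfl⟩ := QuotientGroup.mk_surjective y
    rw [d_mk] at ht
    obtain ⟨z, h1, h2⟩ := L.geo _ t ht
    refine ⟨(x * z : Q), by rw [d_mk, inv_mul_cancel_left, h1], ?_⟩
    rw [d_mk, d_mk, mul_inv_rev, mul_assoc]
    exact h2

theorem X_mk (q r : Q) : L.X.d (q : Q ⧸ L.S) (r : Q ⧸ L.S) = L.l (q⁻¹ * r) := L.d_mk q r

theorem smul_mk (g q : Q) : g • (q : Q ⧸ L.S) = ((g * q : Q) : Q ⧸ L.S) := rfl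

theorem X_inv : L.X.Inv Q := by
  intro g x y
  obtain ⟨x, rfl⟩ := QuotientGroup.mk_surjective x
  obtain ⟨y, rfl⟩ := QuotientGroup.mk_surjective y
  rw [smul_mk, smul_mk, X_mk, X_mk]
  congr 1
  group

theorem X_four : L.X.Four 0 := by
  intro x y z w
  obtain ⟨x, rfl⟩ := QuotientGroup.mk_surjective x
  obtain ⟨y, rfl⟩ := QuotientGroup.mk_surjective y
  obtain ⟨z, rfl⟩ := QuotientGroup.mk_surjective z
  obtain ⟨w, rfl⟩ := QuotientGroup.mk_surjective w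
  have h := L.four (w⁻¹ * x) (w⁻¹ * y) (w⁻¹ * z)
  have e1 : ∀ a b : Q, (w⁻¹ * a)⁻¹ * (w⁻¹ * b) = a⁻¹ * b := fun a b => by group
  have e2 : ∀ a : Q, L.l (w⁻¹ * a) = L.l (a⁻¹ * w) := fun a => by
    rw [← L.inv, mul_inv_rev, inv_inv]
  rw [e1, e1, e1, e2, e2, e2] at h
  simpa only [X_mk, add_zero] using h

theorem fix_iff (g q : Q) : L.X.d (q : Q ⧸ L.S) (g • (q : Q ⧸ L.S)) = 0 ↔ q⁻¹ * g * q ∈ L.S := by
  rw [smul_mk, X_mk, L.zero, mul_assoc]

theorem acyl3 (g : Q) (x y : Q ⧸ L.S) (hx : L.X.d x (g • x) = 0) (hy : L.X.d y (g • y) = 0)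
    (h : 3 ≤ L.X.d x y) : g = 1 := by
  by_contra hg
  have conv := (hyp_holds _ L.X).2.2 Q 0 L.X_inv L.X_four g
  obtain ⟨z1, a1, b1⟩ := L.X.geo x y 1 (by omega)
  obtain ⟨z2, a2, b2⟩ := L.X.geo z1 y 1 (by omega)
  obtain ⟨z3, a3, b3⟩ := L.X.geo z2 y 1 (by omega)
  have f1 := conv x y z1 0 (by omega) hx.le hy.le
  have f2 := conv z1 y z2 0 (by omega) f1 hy.le
  have f3 := conv z2 y z3 0 (by omega) f2 hy.le
  have t1 := L.X.tri x z2 y
  have t2 := L.X.tri z1 z3 y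
  obtain ⟨x, rfl⟩ := QuotientGroup.mk_surjective x
  obtain ⟨z1, rfl⟩ := QuotientGroup.mk_surjective z1
  obtain ⟨z2, rfl⟩ := QuotientGroup.mk_surjective z2
  obtain ⟨z3, rfl⟩ := QuotientGroup.mk_surjective z3
  have g0 := (L.fix_iff g x).1 hx
  have g1 := (L.fix_iff g z1).1 (by omega)
  have g2 := (L.fix_iff g z2).1 (by omega)
  have g3 := (L.fix_iff g z3).1 (by omega)
  have c1 := L.X.comm (x : Q ⧸ L.S) z1
  have c2 := L.X.comm (z1 : Q ⧸ L.S) z2
  have c3 := L.X.comm (x : Q ⧸ L.S) z2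
  rw [X_mk] at a1 a2 a3 t1 t2
  rw [X_mk, X_mk] at c1 c2 c3
  have hne : ∀ z : Q, z⁻¹ * g * z ≠ 1 := by
    intro z hz
    apply hg
    have : g = z * (z⁻¹ * g * z) * z⁻¹ := by group
    rw [this, hz]; group
  have e1 : ∀ a b c : Q, (a⁻¹ * b)⁻¹ * (a⁻¹ * c) = b⁻¹ * c := fun a b c => by group
  have e2 : ∀ a b : Q, (a⁻¹ * b)⁻¹ * (a⁻¹ * g * a) * (a⁻¹ * b) = b⁻¹ * g * b :=
    fun a b => by group
  have v1 := L.vert _ (z1⁻¹ * z2) (z1⁻¹ * x) g1 (hne _) a2 (by omega) (by rw [e1]; omega)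
    (by rwa [e2]) (by rwa [e2])
  have v2 := L.vert _ (z2⁻¹ * z1) (z2⁻¹ * z3) g2 (hne _) (by omega) a3 (by rw [e1]; omega)
    (by rwa [e2]) (by rwa [e2])
  simp only [map_mul, map_inv, toAdd_mul, toAdd_inv] at v1 v2
  omega

theorem bdd_conj (H : Subgroup Q) (hH : Bdd L.X H) : ∃ t : Q, ∀ h ∈ H, t⁻¹ * h * t ∈ L.S := by
  obtain ⟨x, hx⟩ := (basicH Q _ L.X 0 L.X_inv L.X_four).2.1 H hH
  obtain ⟨t, rfl⟩ := QuotientGroup.mk_surjective x
  refine ⟨t, fun h hh => ?_⟩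
  have h1 := hx h hh
  have h2 := hx (h * h) (H.mul_mem hh hh)
  rw [smul_mk, X_mk] at h1 h2
  rw [← L.zero, mul_assoc]
  by_contra h0
  have h3 := L.ht1 (t⁻¹ * (h * t)) (by omega)
  have h4 := L.ht_le _ (t⁻¹ * (h * h * t)) rfl
  simp only [map_mul, map_inv, toAdd_mul, toAdd_inv] at h3 h4
  omega

theorem good {p : ℕ} (hp : p.Prime) (hp2 : p ≠ 2) (hexp : ∀ s ∈ L.S, s ^ p = 1)
    (hcent : ∀ u ∈ L.S, ∀ a ∈ L.S, u ≠ 1 → Commute a u → a ∈ Subgroup.zpowers u) :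
    BQ.Gd Q (Q ⧸ L.S) L.X p := by
  have hell : ∀ g : Q, Ell L.X g → g ^ p = 1 := by
    intro g hg
    obtain ⟨t, ht⟩ := L.bdd_conj _ hg
    have := hexp _ (ht g (Subgroup.mem_zpowers g))
    have e : g = t * (t⁻¹ * g * t) * t⁻¹ := by group
    rw [e, conj_pow, this]; group
  have hsq : ∀ t : Q, t ^ 2 = 1 → t = 1 := by
    intro t ht
    have h1 : Ell L.X t := by
      refine ⟨((1 : Q) : Q ⧸ L.S), L.l t, ?_⟩
      rintro _ ⟨k, rfl⟩
      simp only [smul_mk, X_mk, inv_one, one_mul, mul_one]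
      have ht' : t ^ (2 : ℤ) = 1 := by exact_mod_cast ht
      rcases Int.emod_two_eq_zero_or_one k with hk | hk
      · rw [zpow_eq_zpow_emod k ht', hk, zpow_zero, (L.zero 1).2 L.S.one_mem]
        exact Nat.zero_le _
      · rw [zpow_eq_zpow_emod k ht', hk, zpow_one]
    obtain ⟨k, hk⟩ := hp.odd_of_ne_two hp2
    have h2 := hell t h1
    rwa [hk, pow_succ, pow_mul, ht, one_pow, one_mul] at h2
  have hR := base0H Q _ L.X 3 ⟨((1 : Q) : Q ⧸ L.S)⟩ L.X_inv L.X_four L.acyl3 hsq 122 (10 ^ 9)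
    (by norm_num)
  have hfix : ∀ u : Q, Ell L.X u → ∃ x : Q ⧸ L.S, ∀ v ∈ Subgroup.zpowers u,
      L.X.d x (v • x) = 0 := by
    intro u hu
    obtain ⟨t, ht⟩ := L.bdd_conj _ hu
    exact ⟨t, fun v hv => (L.fix_iff v t).2 (ht v hv)⟩
  have hC : ∀ u : Q, Ell L.X u → u ≠ 1 → ∀ a, Commute a u → a ∈ Subgroup.zpowers u := by
    intro u hu hu1 a ha
    obtain ⟨x, hx⟩ := hfix u hu
    have hx' := hx u (Subgroup.mem_zpowers u)
    obtain ⟨t, ht⟩ := L.bdd_conj (Subgroup.centralizer {u}) ⟨x, 2, fun b hb => by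
      by_contra hc
      refine hu1 (L.acyl3 u x (b • x) hx' ?_ (by omega))
      rw [smul_smul, (Subgroup.mem_centralizer_iff.1 hb u rfl), ← smul_smul, L.X_inv, hx']⟩
    have h1 := ht u (Subgroup.mem_centralizer_iff.2 (by rintro _ rfl; rfl))
    have h2 := ht a (Subgroup.mem_centralizer_iff.2 (by rintro _ rfl; exact ha.symm.eq))
    obtain ⟨k, hk⟩ := hcent _ h1 _ h2 (by
      intro hz
      apply hu1
      have : u = t * (t⁻¹ * u * t) * t⁻¹ := by group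
      rw [this, hz]; group) (by
      have := ha.eq
      show t⁻¹ * a * t * (t⁻¹ * u * t) = t⁻¹ * u * t * (t⁻¹ * a * t)
      calc t⁻¹ * a * t * (t⁻¹ * u * t) = t⁻¹ * (a * u) * t := by group
        _ = t⁻¹ * (u * a) * t := by rw [this]
        _ = _ := by group)
    refine ⟨k, ?_⟩
    simp only at hk ⊢
    have e : t⁻¹ * u * t = t⁻¹ * u * t⁻¹⁻¹ := by rw [inv_inv]
    rw [e, conj_zpow, inv_inv] at hk
    have : u ^ k = t * (t⁻¹ * u ^ k * t) * t⁻¹ := by group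
    rw [this, hk]; group
  refine ⟨hR.ne, hR.inv, hR.four, fun g => ?_, fun u hu => ?_, fun u t hu ht => ?_, hR.acyl⟩
  · rcases hR.dich g with h | h
    · exact Or.inl (hell g h)
    · exact Or.inr (le_trans (by norm_num) h)
  · rcases hR.dich u with h | h
    · exact ⟨u, hC u h hu⟩
    · exact hR.cyc u (by linarith)
  · rcases hR.dich u with h | h
    swap
    · exact hR.mal u t (by linarith) ht
    obtain ⟨k, hk⟩ := hC u h hu _ ht.symm
    simp only at hk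
    have hpow : ∀ m : ℕ, t ^ m * u * (t ^ m)⁻¹ = u ^ (k ^ m) := by
      intro m
      induction m with
      | zero => simp
      | succ m ih =>
        calc t ^ (m + 1) * u * (t ^ (m + 1))⁻¹ = t * (t ^ m * u * (t ^ m)⁻¹) * t⁻¹ := by group
          _ = (t * u * t⁻¹) ^ (k ^ m) := by rw [ih, conj_zpow]
          _ = _ := by rw [← hk, ← zpow_mul, pow_succ']
    obtain ⟨x, hx⟩ := hfix u h
    have ht3 : L.X.d x (t ^ 3 • x) ≤ 2 := by
      by_contra hc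
      have h1 := L.acyl3 (t ^ 3 * u * (t ^ 3)⁻¹) x (t ^ 3 • x)
        (hx _ (by rw [hpow]; exact ⟨_, rfl⟩)) (by
          rw [smul_smul, inv_mul_cancel_right, ← smul_smul, L.X_inv]
          exact hx u (Subgroup.mem_zpowers u)) (by omega)
      exact hu (by simpa using h1)
    have htp : t ^ p = 1 := by
      rcases hR.dich t with h' | h'
      · exact hell t h'
      · have := (tau_holds Q _ L.X L.X_inv).1 t x 3
        have h2 : (L.X.d x (t ^ 3 • x) : ℝ) ≤ 2 := by exact_mod_cast ht3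
        push_cast at this
        linarith
    have h1 := hpow p
    rw [htp, one_mul, inv_one, mul_one] at h1
    have : Fact p.Prime := ⟨hp⟩
    have h2 : u ^ (k ^ p) = u ^ k := by
      have hup : u ^ (p : ℤ) = 1 := by exact_mod_cast hell u h
      have h3 : (p : ℤ) ∣ k ^ p - k := by
        rw [← ZMod.intCast_zmod_eq_zero_iff_dvd]
        push_cast
        rw [ZMod.pow_card, sub_self]
      obtain ⟨c, hc⟩ := h3
      rw [show k ^ p = k + p * c by linarith, zpow_add, zpow_mul, hup, one_zpow, mul_one]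
    have h3 : t * u * t⁻¹ = u := by rw [← hk, ← h2, ← h1]
    exact mul_inv_eq_iff_eq_mul.1 h3

end Len

end Pool.Agent.H950Z.LenGood
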