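import Mathlib

/-! Long-range percolation on a countable group (written additively). -/

namespace Pool.Agent.H950Z.Lrp

open MeasureTheory ProbabilityTheory
open scoped NNReal

variable {G : Type} [AddGroup G]

/-- `μ` is a generating measure: a symmetric probability measure whose support generates `G`. -/
structure IsGenerating (μ : G → ℝ≥0) : Prop where
  total : HasSum (fun g => (μ g : ℝ)) 1
  symm : ∀ g, μ (-g) = μ g
  gen : AddSubgroup.closure (Function.support μ) = ⊤

/-- The weight of the unordered pair `{g, h}`; for symmetric `μ` it is `μ (-g + h)`. -/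
noncomputable def edgeWeight (μ : G → ℝ≥0) : Sym2 G → ℝ≥0 :=
  Sym2.lift ⟨fun g h => (μ (-g + h) + μ (-h + g)) / 2,
    fun g h => congrArg (· / 2) (add_comm (μ (-g + h)) (μ (-h + g)))⟩

/-- The law of the edge multiplicities of `G_μ(lam)`: independent Poisson variables, one for each
unordered pair, with mean `lam` times the weight of the pair. -/
noncomputable def edgeLaw (μ : G → ℝ≥0) (lam : ℝ≥0) : Measure (Sym2 G → ℕ) :=
  Measure.infinitePi (fun e => poissonMeasure (lam * edgeWeight μ e))

/-- The graph joining distinct `g, h` when the pair has positive multiplicity has an infinite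
connected component. -/
def HasInfiniteComponent (ω : Sym2 G → ℕ) : Prop :=
  ∃ g, {h | (SimpleGraph.fromEdgeSet {e | ω e ≠ 0}).Reachable g h}.Infinite

/-- The `μ`-boundary of a finite set `S`: the sum of `μ (-g + h)` over `g ∈ S`, `h ∉ S`. -/
noncomputable def boundary (μ : G → ℝ≥0) (S : Finset G) : ℝ :=
  ∑ g ∈ S, ∑' h : {h : G // h ∉ S}, (μ (-g + h.1) : ℝ)

end Pool.Agent.H950Z.Lrp
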