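import Pool.Agent.H950Z.LrpDefs

/-! The group `ℤ × ⊕ ℤ/2` with a measure whose weights in the second factor decay doubly
exponentially, and its logarithmic isoperimetric inequality. -/

namespace Pool.Agent.H950Z.Lrp

open scoped NNReal
open Finset

abbrev AA : Type := ℕ →₀ ZMod 2
abbrev GG : Type := ℤ × AA

noncomputable def ee (i : ℕ) : AA := Finsupp.single i 1

lemma ee_inj : Function.Injective ee := Finsupp.single_left_injective (by decide)

lemma ee_ne_zero (i : ℕ) : ee i ≠ 0 := by
  simp only [ee, ne_eq, Finsupp.single_eq_zero]; decide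

lemma AA_add_self (a : AA) : a + a = 0 := by
  ext i
  simp only [Finsupp.coe_add, Pi.add_apply, Finsupp.coe_zero, Pi.zero_apply]
  generalize a i = x
  revert x; decide

lemma AA_neg (a : AA) : -a = a := neg_eq_of_add_eq_zero_left (AA_add_self a)

lemma ee_apply_self (i : ℕ) : ee i i = 1 := by simp [ee]

lemma ee_apply_ne {i k : ℕ} (h : k ≠ i) : ee i k = 0 := by simp [ee, h]

def nn (j : ℕ) : ℕ := 2 ^ 2 ^ j

def ll : ℕ → ℕ
  | 0 => 1
  | j + 1 => nn j * ll j

lemma two_ll (j : ℕ) : 2 * ll j = nn j := by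
  induction j with
  | zero => rfl
  | succ j ih =>
    rw [ll, mul_left_comm, ih, nn, nn, ← pow_add, pow_succ 2 j]
    congr 1; ring

lemma ll_pos (j : ℕ) : 0 < ll j := by
  have := two_ll j
  have h : 0 < nn j := by unfold nn; positivity
  omega

lemma ll_mono {i j : ℕ} (h : i ≤ j) : ll i ≤ ll j := by
  have h1 := two_ll i
  have h2 := two_ll j
  have : nn i ≤ nn j := Nat.pow_le_pow_right (by norm_num) (Nat.pow_le_pow_right (by norm_num) h)
  omega

noncomputable def aa (j : ℕ) : ℝ≥0 := ((ll (j + 1) * 2 ^ (j + 2) : ℕ) : ℝ≥0)⁻¹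

lemma aa_coe (j : ℕ) : (aa j : ℝ) = 1 / ((ll (j + 1) : ℝ) * 2 ^ (j + 2)) := by
  simp [aa]

lemma aa_pos (j : ℕ) : (0 : ℝ) < aa j := by
  rw [aa_coe]
  have : (0 : ℝ) < ll (j + 1) := by exact_mod_cast ll_pos _
  positivity

lemma aa_le (J j : ℕ) (h : J ≤ j) : (aa j : ℝ) ≤ 1 / (ll (J + 1) : ℝ) * (1 / 2) ^ (j + 2) := by
  rw [aa_coe]
  have h1 : (0 : ℝ) < ll (J + 1) := by exact_mod_cast ll_pos _
  have h2 : (ll (J + 1) : ℝ) ≤ ll (j + 1) := by exact_mod_cast ll_mono (by omega)
  rw [one_div_pow, one_div_mul_one_div]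
  apply one_div_le_one_div_of_le (by positivity)
  gcongr

lemma aa_le' (j : ℕ) : (aa j : ℝ) ≤ 1 / 4 * (1 / 2) ^ j := by
  rw [aa_coe]
  have h1 : (1 : ℝ) ≤ ll (j + 1) := by exact_mod_cast ll_pos _
  rw [one_div_pow, one_div_mul_one_div]
  apply one_div_le_one_div_of_le (by positivity)
  have : (0 : ℝ) < 2 ^ j := by positivity
  rw [pow_add]; nlinarith

lemma aa_ge (j r : ℕ) (h : 2 ^ j ≤ r) : 1 / (8 : ℝ) ^ r ≤ aa j := by
  rw [aa_coe]
  have h0 : (0 : ℝ) < ll (j + 1) := by exact_mod_cast ll_pos _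
  apply one_div_le_one_div_of_le (by positivity)
  have h1 : ll (j + 1) * 2 ^ (j + 2) ≤ 8 ^ r := by
    have h2 := two_ll (j + 1)
    have h3 : j + 1 ≤ 2 ^ j := Nat.lt_two_pow_self
    calc ll (j + 1) * 2 ^ (j + 2) = (2 * ll (j + 1)) * 2 ^ (j + 1) := by ring
      _ = 2 ^ (2 ^ (j + 1) + (j + 1)) := by rw [h2, nn, ← pow_add]
      _ ≤ 2 ^ (3 * r) := Nat.pow_le_pow_right (by norm_num) (by rw [pow_succ]; omega)
      _ = 8 ^ r := by rw [pow_mul]; norm_num
  exact_mod_cast h1

lemma aa_summable : Summable (fun j => (aa j : ℝ)) :=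
  Summable.of_nonneg_of_le (fun j => (aa j).2) aa_le'
    (summable_geometric_two.mul_left _)

lemma aa_tsum_le : ∑' j, (aa j : ℝ) ≤ 1 / 2 := by
  have h := aa_summable.tsum_le_tsum aa_le' (summable_geometric_two.mul_left _)
  rw [tsum_mul_left, tsum_geometric_two] at h
  linarith

noncomputable def hh : ℝ≥0 := ⟨(1 - ∑' j, (aa j : ℝ)) / 2, by have := aa_tsum_le; linarith⟩

lemma hh_ge : (1 / 4 : ℝ) ≤ hh := by
  have := aa_tsum_le
  show (1 / 4 : ℝ) ≤ (1 - ∑' j, (aa j : ℝ)) / 2
  linarith

lemma hh_le : (hh : ℝ) ≤ 1 := by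
  have : 0 ≤ ∑' j, (aa j : ℝ) := tsum_nonneg fun j => (aa j).2
  show (1 - ∑' j, (aa j : ℝ)) / 2 ≤ 1
  linarith

noncomputable def vv (i : ℕ) : GG := (0, ee i)

lemma vv_inj : Function.Injective vv := fun _ _ h => ee_inj (congrArg Prod.snd h)

open Classical in
noncomputable def mu (g : GG) : ℝ≥0 :=
  (if g = (1, 0) then hh else 0) + (if g = (-1, 0) then hh else 0) + Function.extend vv aa 0 g

lemma ext_zero {g : GG} (h : ¬ ∃ i, vv i = g) : Function.extend vv aa 0 g = 0 := by
  rw [Function.extend_apply' _ _ _ h]; rfl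

lemma mu_right : mu (1, 0) = hh := by
  have : ¬ ∃ i, vv i = (1, 0) := by rintro ⟨i, h⟩; simp [vv] at h
  simp [mu, ext_zero this]

lemma mu_vv (i : ℕ) : mu (vv i) = aa i := by
  have h1 : vv i ≠ (1, 0) := by simp [vv]
  have h2 : vv i ≠ (-1, 0) := by simp [vv]
  simp [mu, h1, h2, vv_inj.extend_apply]

lemma mu_ne_zero {g : GG} (h : mu g ≠ 0) : g = (1, 0) ∨ g = (-1, 0) ∨ ∃ i, vv i = g := by
  by_contra hc
  push Not at hc
  apply h
  have : ¬ ∃ i, vv i = g := by push Not; exact hc.2.2
  simp [mu, hc.1, hc.2.1, ext_zero this]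

lemma neg_vv (i : ℕ) : -vv i = vv i := by simp [vv, AA_neg]

lemma mu_symm (g : GG) : mu (-g) = mu g := by
  classical
  have h3 : Function.extend vv aa 0 (-g) = Function.extend vv aa 0 g := by
    by_cases h : ∃ i, vv i = g
    · obtain ⟨i, rfl⟩ := h
      rw [neg_vv]
    · rw [ext_zero h, ext_zero]
      rintro ⟨i, hi⟩
      exact h ⟨i, by rw [← neg_vv, hi, neg_neg]⟩
  have h1 : (-g = (1, 0)) ↔ (g = (-1, 0)) := by
    rw [neg_eq_iff_eq_neg]; simp
  have h2 : (-g = (-1, 0)) ↔ (g = (1, 0)) := by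
    rw [neg_eq_iff_eq_neg]; simp
  simp only [mu, h3, h1, h2]
  rw [add_comm (if g = (-1, 0) then hh else 0)]

lemma mu_total : HasSum (fun g => (mu g : ℝ)) 1 := by
  classical
  have h1 : HasSum (fun g : GG => if g = (1, 0) then (hh : ℝ) else 0) hh := hasSum_ite_eq _ _
  have h2 : HasSum (fun g : GG => if g = (-1, 0) then (hh : ℝ) else 0) hh := hasSum_ite_eq _ _
  have h3 : HasSum (Function.extend vv (fun j => (aa j : ℝ)) 0) (∑' j, (aa j : ℝ)) :=
    (hasSum_extend_zero vv_inj).2 aa_summable.hasSum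
  have h4 := (h1.add h2).add h3
  have e1 : (hh : ℝ) + hh + ∑' j, (aa j : ℝ) = 1 := by
    show (1 - ∑' j, (aa j : ℝ)) / 2 + (1 - ∑' j, (aa j : ℝ)) / 2 + _ = 1
    ring
  rw [e1] at h4
  convert h4 using 2 with g
  have e3 : ((Function.extend vv aa 0 g : ℝ≥0) : ℝ) =
      Function.extend vv (fun j => (aa j : ℝ)) 0 g := by
    by_cases h : ∃ i, vv i = g
    · obtain ⟨i, rfl⟩ := h
      rw [vv_inj.extend_apply, vv_inj.extend_apply]
    · rw [ext_zero h, Function.extend_apply' _ _ _ h]; rfl
  simp only [mu, NNReal.coe_add, e3]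
  congr 2 <;> split_ifs <;> simp

lemma mu_gen : AddSubgroup.closure (Function.support mu) = ⊤ := by
  set H := AddSubgroup.closure (Function.support mu)
  have h1 : ((1, 0) : GG) ∈ H := by
    apply AddSubgroup.subset_closure
    rw [Function.mem_support, mu_right]
    intro h
    have := hh_ge
    rw [h] at this
    norm_num at this
  have h2 : ∀ i, vv i ∈ H := by
    intro i
    apply AddSubgroup.subset_closure
    rw [Function.mem_support, mu_vv]
    intro h
    have := aa_pos i
    rw [h] at this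
    norm_num at this
  have h3 : ∀ a : AA, ((0, a) : GG) ∈ H := by
    intro a
    induction a using Finsupp.induction_linear with
    | zero => exact H.zero_mem
    | add f g hf hg => simpa using H.add_mem hf hg
    | single i x =>
      have : x = 0 ∨ x = 1 := by revert x; decide
      rcases this with rfl | rfl
      · rw [Finsupp.single_zero]; exact H.zero_mem
      · exact h2 i
  rw [eq_top_iff]
  rintro ⟨x, a⟩ -
  have : ((x, a) : GG) = x • ((1, 0) : GG) + (0, a) := by simp
  rw [this]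
  exact H.add_mem (H.zsmul_mem h1 x) (h3 a)

lemma mu_generating : IsGenerating mu := ⟨mu_total, mu_symm, mu_gen⟩

lemma weight_mk (g h : GG) : edgeWeight mu s(g, h) = mu (-g + h) := by
  have : mu (-h + g) = mu (-g + h) := by rw [← mu_symm]; congr 1; abel
  simp only [edgeWeight, Sym2.lift_mk, this]
  ring

open Classical in
noncomputable def strip : ℕ → AA → Finset AA
  | 0, b => {b}
  | j + 1, b => strip j b ∪ strip j (b + ee j)

lemma mem_strip {j : ℕ} {b c : AA} : c ∈ strip j b ↔ ∀ i, j ≤ i → c i = b i := by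
  induction j generalizing b with
  | zero =>
    simp only [strip, mem_singleton, zero_le, forall_const]
    exact ⟨fun h i => by rw [h], fun h => Finsupp.ext h⟩
  | succ j ih =>
    simp only [strip, mem_union, ih, Finsupp.coe_add, Pi.add_apply]
    constructor
    · rintro (h | h) i hi
      · exact h i (by omega)
      · rw [h i (by omega), ee_apply_ne (by omega), add_zero]
    · intro h
      have : ∀ x y : ZMod 2, x = y ∨ x = y + 1 := by decide
      rcases this (c j) (b j) with h1 | h1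
      · left
        intro i hi
        rcases hi.eq_or_lt with rfl | hlt
        · exact h1
        · exact h i hlt
      · right
        intro i hi
        rcases hi.eq_or_lt with rfl | hlt
        · rw [h1, ee_apply_self]
        · rw [h i hlt, ee_apply_ne (by omega), add_zero]

lemma strip_disj {j : ℕ} {b c : AA} (h1 : c ∈ strip j b) (h2 : c ∈ strip j (b + ee j)) : False := by
  have a1 := mem_strip.1 h1 j le_rfl
  have a2 := mem_strip.1 h2 j le_rfl
  rw [Finsupp.coe_add, Pi.add_apply, ee_apply_self, a1] at a2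
  have : ∀ x : ZMod 2, x ≠ x + 1 := by decide
  exact this _ a2

lemma card_strip (j : ℕ) (b : AA) : (strip j b).card = 2 ^ j := by
  classical
  induction j generalizing b with
  | zero => simp [strip]
  | succ j ih =>
    have : Disjoint (strip j b) (strip j (b + ee j)) :=
      disjoint_left.2 fun c h1 h2 => strip_disj h1 h2
    simp only [strip]
    convert (card_union_of_disjoint this).trans _
    rw [ih, ih]; ring

lemma self_mem_strip (j : ℕ) (b : AA) : b ∈ strip j b := mem_strip.2 fun _ _ => rfl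

lemma add_mem_strip {i j : ℕ} {b c : AA} (hc : c ∈ strip j b) (hi : i < j) :
    c + ee i ∈ strip j b := by
  rw [mem_strip] at hc ⊢
  intro k hk
  rw [Finsupp.coe_add, Pi.add_apply, ee_apply_ne (by omega), add_zero, hc k hk]

lemma not_both {j : ℕ} {b c : AA} (h1 : c ∈ strip j b) (h2 : c + ee j ∈ strip j b) : False := by
  have a1 := mem_strip.1 h1 j le_rfl
  have a2 := mem_strip.1 h2 j le_rfl
  rw [Finsupp.coe_add, Pi.add_apply, ee_apply_self, a1] at a2
  have : ∀ x : ZMod 2, x + 1 ≠ x := by decide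
  exact this _ a2

lemma strip_subset (T : Set AA) (m : ℕ) (hT : ∀ i < m, ∀ t ∈ T, t + ee i ∈ T) :
    ∀ b ∈ T, ∀ c ∈ strip m b, c ∈ T := by
  induction m with
  | zero => intro b hb c hc; simp only [strip, mem_singleton] at hc; rwa [hc]
  | succ m ih =>
    intro b hb c hc
    have ih' := ih (fun i hi => hT i (by omega))
    simp only [strip, mem_union] at hc
    rcases hc with hc | hc
    · exact ih' b hb c hc
    · exact ih' _ (hT m (by omega) b hb) c hc

lemma term_le (S : Finset GG) (g s : GG) (hs : g + s ∉ S) :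
    (mu s : ℝ) ≤ ∑' h : {h : GG // h ∉ S}, (mu (-g + h.1) : ℝ) := by
  have h1 : Summable (fun h : GG => (mu (-g + h) : ℝ)) :=
    (Equiv.addLeft (-g)).summable_iff.2 mu_total.summable
  have h2 : Summable (fun h : {h : GG // h ∉ S} => (mu (-g + h.1) : ℝ)) := h1.subtype _
  have := h2.le_tsum ⟨g + s, hs⟩ (fun _ _ => (mu _).2)
  simpa using this

lemma boundary_ge (S B : Finset GG) (hB : B ⊆ S) (w : ℝ)
    (hw : ∀ g ∈ B, ∃ s, g + s ∉ S ∧ w ≤ mu s) : B.card * w ≤ boundary mu S := by
  unfold boundary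
  calc (B.card : ℝ) * w = ∑ _g ∈ B, w := by simp
    _ ≤ ∑ g ∈ B, ∑' h : {h : GG // h ∉ S}, (mu (-g + h.1) : ℝ) := by
        apply sum_le_sum
        intro g hg
        obtain ⟨s, hs, hs'⟩ := hw g hg
        exact hs'.trans (term_le S g s hs)
    _ ≤ _ := sum_le_sum_of_subset_of_nonneg hB
        (fun _ _ _ => tsum_nonneg fun _ => (mu _).2)

theorem iso (S : Finset GG) (hS : S.Nonempty) :
    1 / 16 * Real.log S.card < boundary mu S := by
  classical
  set R := S.image Prod.snd with hR
  set Cc := S.image Prod.fst with hC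
  set r := R.card with hr
  have hrpos : 0 < r := card_pos.2 (hS.image _)
  have hN : S.card ≤ Cc.card * r := by
    rw [hr, ← card_product]
    apply card_le_card
    intro g hg
    exact mem_product.2 ⟨mem_image_of_mem _ hg, mem_image_of_mem _ hg⟩
  have hb1 : (r : ℝ) * (1 / 4) ≤ boundary mu S := by
    set B := S.filter (fun g => g + (1, 0) ∉ S)
    have h1 := boundary_ge S B (filter_subset _ _) (1 / 4) (fun g hg =>
      ⟨(1, 0), (mem_filter.1 hg).2, by rw [mu_right]; exact hh_ge⟩)
    have h2 : r ≤ B.card := by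
      refine le_trans (card_le_card ?_) (card_image_le (f := Prod.snd) (s := B))
      intro a ha
      obtain ⟨g0, hg0, rfl⟩ := mem_image.1 ha
      obtain ⟨g, hg, hmax⟩ := exists_max_image (S.filter (fun g => g.2 = g0.2)) Prod.fst
        ⟨g0, mem_filter.2 ⟨hg0, rfl⟩⟩
      obtain ⟨hgS, hg2⟩ := mem_filter.1 hg
      refine mem_image.2 ⟨g, mem_filter.2 ⟨hgS, fun h => ?_⟩, hg2⟩
      have := hmax _ (mem_filter.2 ⟨h, by simpa using hg2⟩)
      simp at this
    have h3 : (r : ℝ) ≤ B.card := by exact_mod_cast h2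
    linarith
  have hb2 : (Cc.card : ℝ) * (1 / 8 ^ r) ≤ boundary mu S := by
    set B := S.filter (fun g => ∃ i, 2 ^ i ≤ r ∧ g + vv i ∉ S)
    have h1 := boundary_ge S B (filter_subset _ _) (1 / 8 ^ r) (fun g hg => by
      obtain ⟨i, hi, hi'⟩ := (mem_filter.1 hg).2
      exact ⟨vv i, hi', by rw [mu_vv]; exact aa_ge i r hi⟩)
    have h2 : Cc.card ≤ B.card := by
      refine le_trans (card_le_card ?_) (card_image_le (f := Prod.fst) (s := B))
      intro x hx
      obtain ⟨g0, hg0, rfl⟩ := mem_image.1 hx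
      by_contra hcon
      have hcl : ∀ i < Nat.log 2 r + 1, ∀ t ∈ {t : AA | (g0.1, t) ∈ S},
          t + ee i ∈ {t : AA | (g0.1, t) ∈ S} := by
        intro i hi t ht
        by_contra hno
        apply hcon
        refine mem_image.2 ⟨(g0.1, t), mem_filter.2 ⟨ht, i, ?_, ?_⟩, rfl⟩
        · exact (Nat.pow_le_pow_right (by norm_num) (by omega)).trans
            (Nat.pow_log_le_self 2 hrpos.ne')
        · simpa [vv] using hno
      have hsub : strip (Nat.log 2 r + 1) g0.2 ⊆ R := by
        intro c hc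
        have := strip_subset _ _ hcl g0.2 hg0 c hc
        exact mem_image.2 ⟨_, this, rfl⟩
      have h4 := card_le_card hsub
      rw [card_strip] at h4
      have h5 : r < 2 ^ (Nat.log 2 r + 1) := Nat.lt_pow_succ_log_self (by norm_num) r
      omega
    have h3 : (Cc.card : ℝ) ≤ B.card := by exact_mod_cast h2
    refine le_trans ?_ h1
    gcongr
  have hNpos : (0 : ℝ) < S.card := by exact_mod_cast hS.card_pos
  by_cases hcase : Real.log S.card < 4 * r
  · linarith
  · push Not at hcase
    have hrR : (0 : ℝ) < r := by exact_mod_cast hrpos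
    have h1 : (S.card : ℝ) ≤ Cc.card * r := by exact_mod_cast hN
    have h2 : (r : ℝ) * 8 ^ r ≤ Real.exp (3 * r) := by
      have a1 : (r : ℝ) ≤ 2 ^ r := by exact_mod_cast (Nat.lt_two_pow_self (n := r)).le
      have a2 : (16 : ℝ) ≤ Real.exp 3 := by
        have := Real.exp_one_gt_d9
        have e : Real.exp 3 = Real.exp 1 ^ 3 := by rw [← Real.exp_nat_mul]; norm_num
        rw [e]
        have : (2.7 : ℝ) ^ 3 ≤ Real.exp 1 ^ 3 := pow_le_pow_left₀ (by norm_num) (by linarith) 3
        linarith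
      calc (r : ℝ) * 8 ^ r ≤ 2 ^ r * 8 ^ r := by gcongr
        _ = 16 ^ r := by rw [← mul_pow]; norm_num
        _ ≤ Real.exp 3 ^ r := by gcongr
        _ = Real.exp (3 * r) := by rw [← Real.exp_nat_mul]; ring_nf
    have h3 : Real.exp (Real.log S.card / 4) ≤ (Cc.card : ℝ) * (1 / 8 ^ r) := by
      have b1 : Real.exp (Real.log S.card / 4) * Real.exp (3 * r) ≤ S.card := by
        rw [← Real.exp_add]
        calc _ ≤ Real.exp (Real.log S.card) := Real.exp_le_exp.2 (by linarith)
          _ = _ := Real.exp_log hNpos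
      have b2 : Real.exp (Real.log S.card / 4) * ((r : ℝ) * 8 ^ r) ≤ Cc.card * r :=
        (mul_le_mul_of_nonneg_left h2 (Real.exp_pos _).le).trans (b1.trans h1)
      rw [mul_one_div, le_div_iff₀ (by positivity)]
      have b3 : (Real.exp (Real.log S.card / 4) * 8 ^ r) * r ≤ Cc.card * r := by linarith
      exact le_of_mul_le_mul_right b3 hrR
    have h4 := Real.add_one_le_exp (Real.log S.card / 4)
    linarith

end Pool.Agent.H950Z.Lrp
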