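import Mathlib

/-! Events depending on a set of coordinates of a product of Poisson laws. -/

namespace Pool.Agent.H950Z.Lrp

open MeasureTheory ProbabilityTheory
open scoped NNReal

variable {ι : Type}

/-- product of Poisson laws -/
noncomputable def PP (r : ι → ℝ≥0) : Measure (ι → ℕ) :=
  Measure.infinitePi (fun e => poissonMeasure (r e))

instance (r : ι → ℝ≥0) : IsProbabilityMeasure (PP r) := by
  unfold PP; infer_instance

/-- the sigma-algebra of one coordinate -/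
@[reducible] def sig (i : ι) : MeasurableSpace (ι → ℕ) :=
  MeasurableSpace.comap (fun ω : ι → ℕ => ω i) inferInstance

/-- `A` depends only on the coordinates in `E` -/
def Dep (E : Set ι) (A : Set (ι → ℕ)) : Prop := MeasurableSet[⨆ i ∈ E, sig i] A

lemma sig_le (i : ι) : sig i ≤ (inferInstance : MeasurableSpace (ι → ℕ)) :=
  (measurable_pi_apply i).comap_le

lemma Dep.mono {E F : Set ι} {A : Set (ι → ℕ)} (h : Dep E A) (hEF : E ⊆ F) : Dep F A := by
  have : (⨆ i ∈ E, sig i) ≤ ⨆ i ∈ F, sig i := biSup_mono hEF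
  exact this A h

lemma Dep.meas {E : Set ι} {A : Set (ι → ℕ)} (h : Dep E A) : MeasurableSet A := by
  have : (⨆ i ∈ E, sig i) ≤ (inferInstance : MeasurableSpace (ι → ℕ)) :=
    iSup₂_le fun i _ => sig_le i
  exact this A h

lemma Dep.inter {E : Set ι} {A B : Set (ι → ℕ)} (h : Dep E A) (h' : Dep E B) : Dep E (A ∩ B) :=
  MeasurableSet.inter h h'

lemma Dep.compl {E : Set ι} {A : Set (ι → ℕ)} (h : Dep E A) : Dep E Aᶜ :=
  MeasurableSet.compl h

lemma Dep.univ (E : Set ι) : Dep E Set.univ := @MeasurableSet.univ _ (⨆ i ∈ E, sig i)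

lemma Dep.biUnion {κ : Type} {E : Set ι} (s : Finset κ) {A : κ → Set (ι → ℕ)}
    (h : ∀ k ∈ s, Dep E (A k)) : Dep E (⋃ k ∈ s, A k) :=
  @Finset.measurableSet_biUnion _ _ (⨆ i ∈ E, sig i) A s h

lemma Dep.biInter {κ : Type} {E : Set ι} (s : Finset κ) {A : κ → Set (ι → ℕ)}
    (h : ∀ k ∈ s, Dep E (A k)) : Dep E (⋂ k ∈ s, A k) :=
  @Finset.measurableSet_biInter _ _ (⨆ i ∈ E, sig i) A s h

lemma Dep.closed {E : Set ι} {e : ι} (he : e ∈ E) : Dep E {ω | ω e = 0} := by
  have h1 : MeasurableSet[sig e] {ω : ι → ℕ | ω e = 0} :=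
    ⟨{0}, MeasurableSet.singleton 0, rfl⟩
  have : sig e ≤ ⨆ i ∈ E, sig i := le_biSup (f := fun i => sig i) he
  exact this _ h1

lemma Dep.allClosed {E : Set ι} (F : Finset ι) (hF : ∀ e ∈ F, e ∈ E) :
    Dep E {ω | ∀ e ∈ F, ω e = 0} := by
  have : {ω : ι → ℕ | ∀ e ∈ F, ω e = 0} = ⋂ e ∈ F, {ω | ω e = 0} := by
    ext ω; simp
  rw [this]
  exact Dep.biInter F fun e he => Dep.closed (hF e he)

lemma indep_real (r : ι → ℝ≥0) {E F : Set ι} (hEF : Disjoint E F) {A B : Set (ι → ℕ)}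
    (hA : Dep E A) (hB : Dep F B) :
    (PP r).real (A ∩ B) = (PP r).real A * (PP r).real B := by
  have h1 : iIndepFun (fun i (ω : ι → ℕ) => ω i) (PP r) :=
    iIndepFun_infinitePi (X := fun _ x => x) (fun _ => measurable_id)
  have h2 : iIndep (fun i : ι => sig i) (PP r) := h1.iIndep
  have h3 := indep_iSup_of_disjoint sig_le h2 hEF
  have h4 := (Indep_iff _ _ _).1 h3 A B hA hB
  simp only [measureReal_def, h4, ENNReal.toReal_mul]

lemma allClosed_real (r : ι → ℝ≥0) (F : Finset ι) :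
    (PP r).real {ω | ∀ e ∈ F, ω e = 0} = Real.exp (-∑ e ∈ F, (r e : ℝ)) := by
  have : {ω : ι → ℕ | ∀ e ∈ F, ω e = 0} = Set.pi (F : Set ι) (fun _ => {0}) := by
    ext ω; simp [Set.mem_pi]
  rw [this, measureReal_def, PP, Measure.infinitePi_pi _ (fun _ _ => MeasurableSet.singleton 0),
    ENNReal.toReal_prod, ← Finset.sum_neg_distrib, Real.exp_sum]
  refine Finset.prod_congr rfl fun e _ => ?_
  rw [← measureReal_def, poissonMeasure_real_singleton]
  simp

lemma closed_real (r : ι → ℝ≥0) (e : ι) :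
    (PP r).real {ω | ω e = 0} = Real.exp (-(r e : ℝ)) := by
  have := allClosed_real r {e}
  simpa using this

lemma open_le (r : ι → ℝ≥0) (e : ι) : PP r {ω | ω e ≠ 0} ≤ (r e : ENNReal) := by
  have hm : MeasurableSet {ω : ι → ℕ | ω e = 0} := (Dep.closed (E := Set.univ) trivial).meas
  have h1 : (PP r).real {ω | ω e ≠ 0} = 1 - Real.exp (-(r e : ℝ)) := by
    have : {ω : ι → ℕ | ω e ≠ 0} = {ω : ι → ℕ | ω e = 0}ᶜ := rfl
    rw [this, measureReal_compl hm, closed_real]
    simp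
  have h2 : (PP r).real {ω | ω e ≠ 0} ≤ r e := by
    rw [h1]
    have := Real.add_one_le_exp (-(r e : ℝ))
    linarith
  rw [← ENNReal.ofReal_toReal (measure_ne_top (PP r) _), ← ENNReal.ofReal_coe_nnreal]
  exact ENNReal.ofReal_le_ofReal h2

/-- independent trials -/
lemma none_le (r : ι → ℝ≥0) (E : ℕ → Set ι) (A : ℕ → Set (ι → ℕ)) (q : ℝ)
    (hE : ∀ i j, i < j → Disjoint (E i) (E j)) (hA : ∀ i, Dep (E i) (A i))
    (hq : ∀ i, q ≤ (PP r).real (A i)) (n : ℕ) :
    (PP r).real (⋃ i ∈ Finset.range n, A i)ᶜ ≤ (1 - q) ^ n := by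
  induction n with
  | zero => simp
  | succ n ih =>
    have e1 : (⋃ i ∈ Finset.range (n + 1), A i)ᶜ = (⋃ i ∈ Finset.range n, A i)ᶜ ∩ (A n)ᶜ := by
      rw [Finset.range_add_one, Finset.set_biUnion_insert, Set.compl_union, Set.inter_comm]
    have d1 : Dep (⋃ i ∈ Finset.range n, E i) (⋃ i ∈ Finset.range n, A i)ᶜ := by
      apply Dep.compl
      apply Dep.biUnion
      intro k hk
      exact (hA k).mono (Set.subset_biUnion_of_mem (u := E) (s := ↑(Finset.range n)) hk)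
    have d2 : Disjoint (⋃ i ∈ Finset.range n, E i) (E n) := by
      rw [Set.disjoint_iUnion₂_left]
      intro i hi
      exact hE i n (Finset.mem_range.1 hi)
    rw [e1, indep_real r d2 d1 (hA n).compl, pow_succ]
    have h3 : (PP r).real (A n)ᶜ ≤ 1 - q := by
      rw [measureReal_compl (hA n).meas]
      have := hq n
      simp only [probReal_univ]
      linarith
    exact mul_le_mul ih h3 measureReal_nonneg (measureReal_nonneg.trans ih)

lemma some_ge (r : ι → ℝ≥0) (E : ℕ → Set ι) (A : ℕ → Set (ι → ℕ)) (q : ℝ)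
    (hE : ∀ i j, i < j → Disjoint (E i) (E j)) (hA : ∀ i, Dep (E i) (A i))
    (hq : ∀ i, q ≤ (PP r).real (A i)) (n : ℕ) :
    1 - (1 - q) ^ n ≤ (PP r).real (⋃ i ∈ Finset.range n, A i) := by
  have h := none_le r E A q hE hA hq n
  have hm : MeasurableSet (⋃ i ∈ Finset.range n, A i) :=
    Finset.measurableSet_biUnion _ fun i _ => (hA i).meas
  rw [measureReal_compl hm] at h
  simp only [probReal_univ] at h
  linarith

/-- the recursion for the cut probabilities returns above a fixed level infinitely often -/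
lemma recur (p : ℝ) (hp0 : 0 < p) (hp1 : p ≤ 1) (q : ℕ → ℝ) (h0 : q 0 = p)
    (hs : ∀ j, q (j + 1) = p * (1 - (1 - q j) ^ (2 ^ 2 ^ j)) ^ 2) (J : ℕ) :
    ∃ j, J ≤ j ∧ p / 4 ≤ q j := by
  have hq : ∀ j, 0 < q j ∧ q j ≤ 1 := by
    intro j
    induction j with
    | zero => rw [h0]; exact ⟨hp0, hp1⟩
    | succ j ih =>
      rw [hs]
      have a1 : 0 ≤ 1 - q j := by linarith [ih.2]
      have a2 : (1 - q j) ^ (2 ^ 2 ^ j) < 1 :=
        pow_lt_one₀ a1 (by linarith [ih.1]) (by positivity)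
      have a3 : 0 ≤ (1 - q j) ^ (2 ^ 2 ^ j) := by positivity
      refine ⟨mul_pos hp0 (pow_pos (by linarith) 2), ?_⟩
      have : (1 - (1 - q j) ^ (2 ^ 2 ^ j)) ^ 2 ≤ 1 := pow_le_one₀ (by linarith) (by linarith)
      nlinarith
  have hb : ∀ j, (2 ^ 2 ^ j : ℕ) * q j / (1 + (2 ^ 2 ^ j : ℕ) * q j) ≤
      1 - (1 - q j) ^ (2 ^ 2 ^ j) := by
    intro j
    set n : ℕ := 2 ^ 2 ^ j
    have h1 := (hq j).1
    have h2 := (hq j).2
    have hpos : 0 < 1 + (n : ℝ) * q j := by positivity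
    have b1 : 1 + (n : ℝ) * q j ≤ (1 + q j) ^ n := one_add_mul_le_pow (by linarith) n
    have b2 : (1 - q j) ^ n * (1 + q j) ^ n ≤ 1 := by
      rw [← mul_pow]
      apply pow_le_one₀ <;> nlinarith
    have b3 : 0 ≤ (1 - q j) ^ n := pow_nonneg (by linarith) n
    have b4 : (1 - q j) ^ n * (1 + (n : ℝ) * q j) ≤ 1 :=
      (mul_le_mul_of_nonneg_left b1 b3).trans b2
    rw [div_le_iff₀ hpos]
    nlinarith
  by_contra hcon
  push Not at hcon
  have hstep : ∀ j, J ≤ j → ((2 : ℝ) ^ 2 ^ j) ^ 2 * (p / 4 * q j) ^ 2 ≤ p / 4 * q (j + 1) := by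
    intro j hj
    have h1 := (hq j).1
    have hlt := hcon (j + 1) (by omega)
    have hb' := hb j
    push_cast at hb'
    set t : ℝ := 2 ^ 2 ^ j * q j with ht
    have htpos : 0 < t := by positivity
    have hy : 0 ≤ t / (1 + t) := by positivity
    have hsq : (t / (1 + t)) ^ 2 ≤ (1 - (1 - q j) ^ (2 ^ 2 ^ j)) ^ 2 := pow_le_pow_left₀ hy hb' 2
    have ht1 : t ≤ 1 := by
      by_contra h
      push Not at h
      have : 1 / 2 ≤ t / (1 + t) := by
        rw [le_div_iff₀ (by positivity)]; linarith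
      have h4 : (1 / 2 : ℝ) ^ 2 ≤ (t / (1 + t)) ^ 2 := pow_le_pow_left₀ (by norm_num) this 2
      rw [hs] at hlt
      nlinarith
    have h5 : t / 2 ≤ t / (1 + t) := by
      apply div_le_div_of_nonneg_left htpos.le (by positivity) (by linarith)
    have h6 : (t / 2) ^ 2 ≤ (t / (1 + t)) ^ 2 := pow_le_pow_left₀ (by positivity) h5 2
    have h7 : p * (t / 2) ^ 2 ≤ q (j + 1) := by
      rw [hs]; exact mul_le_mul_of_nonneg_left (h6.trans hsq) hp0.le
    calc ((2 : ℝ) ^ 2 ^ j) ^ 2 * (p / 4 * q j) ^ 2 = p / 4 * (p * (t / 2) ^ 2) := by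
          rw [ht]; ring
      _ ≤ _ := mul_le_mul_of_nonneg_left h7 (by positivity)
  have hvpos : 0 < p / 4 * q J := mul_pos (by positivity) (hq J).1
  obtain ⟨m, hm⟩ := exists_pow_lt_of_lt_one hvpos (by norm_num : (1 / 2 : ℝ) < 1)
  have hind : ∀ k, ((2 : ℝ) ^ k * (1 / 2) ^ m) ^ 2 ^ (J + k) ≤ p / 4 * q (J + k) := by
    intro k
    induction k with
    | zero =>
      simp only [pow_zero, one_mul, add_zero]
      refine le_trans ?_ hm.le
      apply pow_le_of_le_one (by positivity) (pow_le_one₀ (by norm_num) (by norm_num))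
      positivity
    | succ k ih =>
      refine le_trans ?_ (hstep (J + k) (by omega))
      have h8 : (((2 : ℝ) ^ k * (1 / 2) ^ m) ^ 2 ^ (J + k)) ^ 2 ≤ (p / 4 * q (J + k)) ^ 2 :=
        pow_le_pow_left₀ (by positivity) ih 2
      refine le_trans (le_of_eq ?_) (mul_le_mul_of_nonneg_left h8 (by positivity))
      rw [← mul_pow, ← mul_pow, ← pow_mul, ← add_assoc, pow_succ 2 (J + k)]
      congr 1
      ring
  have h9 := hind m
  have h10 : (2 : ℝ) ^ m * (1 / 2) ^ m = 1 := by rw [← mul_pow]; norm_num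
  rw [h10, one_pow] at h9
  have := (hq (J + m)).2
  have := (hq (J + m)).1
  nlinarith

end Pool.Agent.H950Z.Lrp
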