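import Pool.Agent.H950Z.LrpGeom
import Pool.Agent.H950Z.LrpProb

/-! No percolation at any intensity: strips of height `2^j` are cut recursively. -/

namespace Pool.Agent.H950Z.Lrp

open scoped NNReal
open Finset MeasureTheory

noncomputable def hor (y : ℤ) (a : AA) : Sym2 GG := s((y, a), (y + 1, a))
noncomputable def rung (y : ℤ) (a : AA) (i : ℕ) : Sym2 GG := s((y, a), (y, a + ee i))

lemma weight_hor (y : ℤ) (a : AA) : edgeWeight mu (hor y a) = hh := by
  rw [hor, weight_mk, ← mu_right]; congr 1; ext <;> simp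

lemma weight_rung (y : ℤ) (a : AA) (i : ℕ) : edgeWeight mu (rung y a i) = aa i := by
  rw [rung, weight_mk, ← mu_vv]; congr 1; ext <;> simp [vv]

def lo : Sym2 GG → ℤ := Sym2.lift ⟨fun g h => min g.1 h.1, fun _ _ => min_comm _ _⟩

lemma lo_hor (y : ℤ) (a : AA) : lo (hor y a) = y := by simp [lo, hor]
lemma lo_rung (y : ℤ) (a : AA) (i : ℕ) : lo (rung y a i) = y := by simp [lo, rung]

open Classical in
noncomputable def rungs (j : ℕ) (b : AA) (x : ℤ) (L : ℕ) : Finset (Sym2 GG) :=
  (Ico x (x + L) ×ˢ strip (j + 1) b).image (fun p => rung p.1 p.2 j)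

noncomputable def Cut : ℕ → AA → ℤ → Set (Sym2 GG → ℕ)
  | 0, b, x => {ω | ω (hor x b) = 0}
  | j + 1, b, x => {ω | ∀ e ∈ rungs j b x (ll (j + 1)), ω e = 0} ∩
      ((⋃ i ∈ range (nn j), Cut j b (x + i * ll j)) ∩
        (⋃ i ∈ range (nn j), Cut j (b + ee j) (x + i * ll j)))

def InS (j : ℕ) (b : AA) : Set (Sym2 GG) := {ε | ∀ v ∈ ε, v.2 ∈ strip j b}

def Box (j : ℕ) (b : AA) (x : ℤ) : Set (Sym2 GG) :=
  {ε | x ≤ lo ε ∧ lo ε < x + ll j} ∩ InS j b

lemma InS_left (j : ℕ) (b : AA) : InS j b ⊆ InS (j + 1) b := by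
  classical
  intro ε h v hv
  simp only [strip, mem_union]
  exact Or.inl (h v hv)

lemma InS_right (j : ℕ) (b : AA) : InS j (b + ee j) ⊆ InS (j + 1) b := by
  classical
  intro ε h v hv
  simp only [strip, mem_union]
  exact Or.inr (h v hv)

lemma window {j i : ℕ} (hi : i < nn j) (x y : ℤ) (h1 : x + i * ll j ≤ y)
    (h2 : y < x + i * ll j + ll j) : x ≤ y ∧ y < x + ll (j + 1) := by
  have a1 : (0 : ℤ) ≤ i * ll j := by positivity
  have a2 : ((i : ℤ) + 1) * ll j ≤ nn j * ll j := by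
    have : (i : ℤ) + 1 ≤ nn j := by exact_mod_cast hi
    gcongr
  rw [ll]; push_cast
  constructor <;> nlinarith

lemma dep_cut (j : ℕ) : ∀ b x, Dep (Box j b x) (Cut j b x) := by
  classical
  induction j with
  | zero =>
    intro b x
    apply Dep.closed
    refine ⟨by simp [lo_hor, ll], ?_⟩
    intro v hv
    simp only [hor, Sym2.mem_iff] at hv
    rcases hv with rfl | rfl <;> exact self_mem_strip _ _
  | succ j ih =>
    intro b x
    refine Dep.inter (Dep.allClosed _ ?_) (Dep.inter ?_ ?_)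
    · intro e he
      obtain ⟨p, hp, rfl⟩ := mem_image.1 he
      obtain ⟨hp1, hp2⟩ := mem_product.1 hp
      refine ⟨by simpa [lo_rung] using hp1, ?_⟩
      intro v hv
      simp only [rung, Sym2.mem_iff] at hv
      rcases hv with rfl | rfl
      · exact hp2
      · exact add_mem_strip hp2 (by omega)
    · refine Dep.biUnion _ fun i hi => (ih _ _).mono ?_
      rintro ε ⟨⟨h1, h2⟩, h3⟩
      exact ⟨window (mem_range.1 hi) x _ h1 h2, InS_left j b h3⟩
    · refine Dep.biUnion _ fun i hi => (ih _ _).mono ?_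
      rintro ε ⟨⟨h1, h2⟩, h3⟩
      exact ⟨window (mem_range.1 hi) x _ h1 h2, InS_right j b h3⟩

noncomputable def qq (p : ℝ) : ℕ → ℝ
  | 0 => p
  | j + 1 => p * (1 - (1 - qq p j) ^ (2 ^ 2 ^ j)) ^ 2

noncomputable def rate (lam : ℝ≥0) : Sym2 GG → ℝ≥0 := fun e => lam * edgeWeight mu e

lemma box_disj (j : ℕ) (b : AA) (x : ℤ) (i k : ℕ) (h : i < k) :
    Disjoint (Box j b (x + i * ll j)) (Box j b (x + k * ll j)) := by
  rw [Set.disjoint_left]
  rintro ε ⟨⟨-, h2⟩, -⟩ ⟨⟨h3, -⟩, -⟩
  have a : ((i : ℤ) + 1) * ll j ≤ k * ll j := by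
    have : (i : ℤ) + 1 ≤ k := by exact_mod_cast h
    gcongr
  nlinarith

lemma cut_ge (lam : ℝ≥0) (j : ℕ) : (0 ≤ qq (Real.exp (-lam)) j) ∧
    ∀ b x, qq (Real.exp (-lam)) j ≤ (PP (rate lam)).real (Cut j b x) := by
  classical
  induction j with
  | zero =>
    refine ⟨(Real.exp_pos _).le, fun b x => ?_⟩
    rw [Cut, closed_real, qq, rate, weight_hor]
    apply Real.exp_le_exp.2
    have := hh_le
    have h0 : (0 : ℝ) ≤ lam := lam.2
    push_cast
    nlinarith
  | succ j ih =>
    obtain ⟨ih0, ih⟩ := ih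
    refine ⟨by rw [qq]; positivity, fun b x => ?_⟩
    set q := qq (Real.exp (-lam)) j
    have hq1 : q ≤ 1 := (ih b x).trans measureReal_le_one
    have hy : 0 ≤ 1 - (1 - q) ^ nn j := by
      have : (1 - q) ^ nn j ≤ 1 := pow_le_one₀ (by linarith) (by linarith)
      linarith
    have hU : ∀ c, 1 - (1 - q) ^ nn j ≤
        (PP (rate lam)).real (⋃ i ∈ range (nn j), Cut j c (x + i * ll j)) := fun c =>
      some_ge _ (fun i => Box j c (x + i * ll j)) (fun i => Cut j c (x + i * ll j)) q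
        (box_disj j c x) (fun i => dep_cut j c _) (fun i => ih c _) (nn j)
    have dU : ∀ c, Dep (InS j c) (⋃ i ∈ range (nn j), Cut j c (x + i * ll j)) := fun c =>
      Dep.biUnion _ fun i _ => (dep_cut j c _).mono Set.inter_subset_right
    have d12 : Disjoint (InS j b) (InS j (b + ee j)) := by
      rw [Set.disjoint_left]
      intro ε h1 h2
      induction ε using Sym2.ind with
      | h u v => exact strip_disj (h1 u (Sym2.mem_mk_left _ _)) (h2 u (Sym2.mem_mk_left _ _))
    have dR : Dep (InS j b ∪ InS j (b + ee j))ᶜ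
        {ω | ∀ e ∈ rungs j b x (ll (j + 1)), ω e = 0} := by
      apply Dep.allClosed
      intro e he
      obtain ⟨p, -, rfl⟩ := mem_image.1 he
      rintro (h | h)
      · exact not_both (h _ (Sym2.mem_mk_left _ _)) (h _ (Sym2.mem_mk_right _ _))
      · exact not_both (h _ (Sym2.mem_mk_left _ _)) (h _ (Sym2.mem_mk_right _ _))
    have hR : Real.exp (-lam) ≤
        (PP (rate lam)).real {ω | ∀ e ∈ rungs j b x (ll (j + 1)), ω e = 0} := by
      rw [allClosed_real]
      apply Real.exp_le_exp.2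
      have h1 : ∀ e ∈ rungs j b x (ll (j + 1)), (rate lam e : ℝ) = lam * aa j := by
        intro e he
        obtain ⟨p, -, rfl⟩ := mem_image.1 he
        rw [rate, weight_rung]; simp
      rw [sum_congr rfl h1, sum_const, nsmul_eq_mul]
      have h2 : (rungs j b x (ll (j + 1))).card ≤ ll (j + 1) * 2 ^ (j + 1) := by
        refine card_image_le.trans ?_
        rw [card_product, card_strip]; simp
      have h3 : ((rungs j b x (ll (j + 1))).card : ℝ) ≤ ll (j + 1) * 2 ^ (j + 1) := by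
        exact_mod_cast h2
      have h4 : ((rungs j b x (ll (j + 1))).card : ℝ) * aa j ≤ 1 := by
        refine (mul_le_mul_of_nonneg_right h3 (aa_pos j).le).trans ?_
        rw [aa_coe]
        have : (0 : ℝ) < ll (j + 1) := by exact_mod_cast ll_pos _
        rw [mul_one_div, div_le_one (by positivity)]
        gcongr <;> norm_num
      have h0 : (0 : ℝ) ≤ lam := lam.2
      nlinarith
    rw [Cut, indep_real _ disjoint_compl_left dR
      (((dU b).mono Set.subset_union_left).inter ((dU _).mono Set.subset_union_right)),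
      indep_real _ d12 (dU b) (dU _), qq, sq]
    exact mul_le_mul hR (mul_le_mul (hU b) (hU _) hy measureReal_nonneg) (mul_nonneg hy hy)
      measureReal_nonneg

/-- a cut is a barrier -/
lemma cut_fun (ω : Sym2 GG → ℕ) (j : ℕ) : ∀ b x, ω ∈ Cut j b x → ∃ f : AA → ℤ,
    ∀ a ∈ strip j b, (x ≤ f a ∧ f a < x + ll j) ∧ ω (hor (f a) a) = 0 ∧
      ∀ i < j, ∀ y, ω (rung y a i) ≠ 0 → (y ≤ f a ↔ y ≤ f (a + ee i)) := by
  classical
  induction j with
  | zero =>
    intro b x h
    refine ⟨fun _ => x, fun a ha => ?_⟩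
    simp only [strip, mem_singleton] at ha
    subst ha
    exact ⟨by simp [ll], h, fun i hi => absurd hi (by omega)⟩
  | succ j ih =>
    rintro b x ⟨hR, h1, h2⟩
    simp only [Set.mem_iUnion] at h1 h2
    obtain ⟨i1, hi1, h1⟩ := h1
    obtain ⟨i2, hi2, h2⟩ := h2
    obtain ⟨f1, hf1⟩ := ih _ _ h1
    obtain ⟨f2, hf2⟩ := ih _ _ h2
    set f : AA → ℤ := fun a => if a ∈ strip j b then f1 a else f2 a with hf
    have e1 : ∀ a ∈ strip j b, f a = f1 a := fun a ha => by simp [hf, ha]
    have e2 : ∀ a ∈ strip j (b + ee j), f a = f2 a := fun a ha => by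
      have : a ∉ strip j b := fun h => strip_disj h ha
      simp [hf, this]
    have hrange : ∀ a ∈ strip (j + 1) b, x ≤ f a ∧ f a < x + ll (j + 1) := by
      intro a ha
      simp only [strip, mem_union] at ha
      rcases ha with ha | ha
      · rw [e1 a ha]
        exact window (mem_range.1 hi1) x _ (hf1 a ha).1.1 (hf1 a ha).1.2
      · rw [e2 a ha]
        exact window (mem_range.1 hi2) x _ (hf2 a ha).1.1 (hf2 a ha).1.2
    refine ⟨f, fun a ha => ⟨hrange a ha, ?_, ?_⟩⟩
    · simp only [strip, mem_union] at ha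
      rcases ha with ha | ha
      · rw [e1 a ha]; exact (hf1 a ha).2.1
      · rw [e2 a ha]; exact (hf2 a ha).2.1
    · intro i hi y hy
      rcases (Nat.lt_succ_iff.1 hi).eq_or_lt with rfl | hlt
      · have r1 := hrange a ha
        have r2 := hrange _ (add_mem_strip ha hi)
        have hy' : ¬ (x ≤ y ∧ y < x + ll (i + 1)) := by
          intro hh'
          apply hy
          apply hR
          exact mem_image.2 ⟨(y, a), mem_product.2 ⟨mem_Ico.2 hh', ha⟩, rfl⟩
        constructor <;> intro h <;> omega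
      · simp only [strip, mem_union] at ha
        rcases ha with ha | ha
        · rw [e1 a ha, e1 _ (add_mem_strip ha hlt)]; exact (hf1 a ha).2.2 i hlt y hy
        · rw [e2 a ha, e2 _ (add_mem_strip ha hlt)]; exact (hf2 a ha).2.2 i hlt y hy

lemma finite_of_cuts (ω : Sym2 GG → ℕ) (hz : ∀ e, edgeWeight mu e = 0 → ω e = 0)
    (j : ℕ) (x0 : ℤ) (b : AA) (xl xr : ℤ) (hl : xl + ll j ≤ x0) (hr : x0 ≤ xr)
    (cl : ω ∈ Cut j b xl) (cr : ω ∈ Cut j b xr)
    (hexit : ∀ y, xl ≤ y → y < xr + ll j → ∀ a ∈ strip j b, ∀ i, j ≤ i → ω (rung y a i) = 0) :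
    {h | (SimpleGraph.fromEdgeSet {e | ω e ≠ 0}).Reachable (x0, b) h}.Finite := by
  obtain ⟨fl, hfl⟩ := cut_fun ω j b xl cl
  obtain ⟨fr, hfr⟩ := cut_fun ω j b xr cr
  set T : Set GG := {v | v.2 ∈ strip j b ∧ fl v.2 < v.1 ∧ v.1 ≤ fr v.2} with hT
  have hfin : T.Finite := by
    refine (Finset.finite_toSet (Ico xl (xr + ll j) ×ˢ strip j b)).subset ?_
    rintro ⟨y, a⟩ ⟨h1, h2, h3⟩
    have r1 := (hfl a h1).1
    have r2 := (hfr a h1).1
    simp only [coe_product, coe_Ico, Set.mem_prod, Set.mem_Ico, mem_coe]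
    exact ⟨⟨by simp only at h2; omega, by simp only at h3; omega⟩, h1⟩
  have hstep : ∀ u v : GG, u ∈ T → (SimpleGraph.fromEdgeSet {e | ω e ≠ 0}).Adj u v → v ∈ T := by
    rintro ⟨y, a⟩ v ⟨h1, h2, h3⟩ hadj
    simp only at h1 h2 h3
    rw [SimpleGraph.fromEdgeSet_adj] at hadj
    have hω : ω s((y, a), v) ≠ 0 := hadj.1
    have hw : mu (-(y, a) + v) ≠ 0 := by
      rw [← weight_mk]; exact fun h => hω (hz _ h)
    rcases mu_ne_zero hw with h | h | ⟨i, h⟩
    · have hv : v = (y + 1, a) := by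
        rw [neg_add_eq_iff_eq_add] at h; rw [h]; simp
      subst hv
      refine ⟨h1, by simp only; omega, ?_⟩
      have : y ≠ fr a := by
        rintro rfl
        exact hω (hfr a h1).2.1
      simp only; omega
    · have hv : v = (y - 1, a) := by
        rw [neg_add_eq_iff_eq_add] at h; rw [h]; simp [sub_eq_add_neg]
      subst hv
      refine ⟨h1, ?_, by simp only; omega⟩
      have : y - 1 ≠ fl a := by
        intro hy
        apply hω
        have := (hfl a h1).2.1
        rw [← hy, hor, sub_add_cancel, Sym2.eq_swap] at this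
        exact this
      simp only; omega
    · have hv : v = (y, a + ee i) := by
        rw [eq_comm, neg_add_eq_iff_eq_add] at h; rw [h]; simp [vv]
      subst hv
      have hω' : ω (rung y a i) ≠ 0 := hω
      by_cases hij : i < j
      · have r1 := (hfl a h1).2.2 i hij y hω'
        have r2 := (hfr a h1).2.2 i hij y hω'
        refine ⟨add_mem_strip h1 hij, ?_, r2.1 h3⟩
        by_contra hc
        have := r1.2 (not_lt.1 hc)
        omega
      · exfalso
        have r1 := (hfl a h1).1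
        have r2 := (hfr a h1).1
        exact hω' (hexit y (by omega) (by omega) a h1 i (by omega))
  have h0 : ((x0, b) : GG) ∈ T := by
    have r1 := (hfl b (self_mem_strip j b)).1
    have r2 := (hfr b (self_mem_strip j b)).1
    exact ⟨self_mem_strip j b, by simp only; omega, by simp only; omega⟩
  refine hfin.subset fun h hh' => ?_
  have hh'' := (SimpleGraph.reachable_iff_reflTransGen _ _).1 hh'
  clear hh'
  induction hh'' with
  | refl => exact h0
  | tail _ hadj ih => exact hstep _ _ ih hadj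

lemma exit_le (lam : ℝ≥0) (j : ℕ) (b : AA) (x : ℤ) (L : ℕ) :
    (PP (rate lam)).real (⋃ p ∈ Ico x (x + L) ×ˢ strip j b, ⋃ i : ℕ,
      {ω | ω (rung p.1 p.2 (j + i)) ≠ 0}) ≤ lam * L / ll (j + 1) := by
  have hl : (0 : ℝ) < ll (j + 1) := by exact_mod_cast ll_pos _
  have h0 : (0 : ℝ) ≤ lam := lam.2
  have h1 : ∀ p : ℤ × AA, (PP (rate lam)).real (⋃ i : ℕ, {ω | ω (rung p.1 p.2 (j + i)) ≠ 0})
      ≤ lam / ll (j + 1) * (1 / 2) ^ j := by
    intro p
    set c : ℝ := lam / ll (j + 1) * (1 / 2) ^ j / 2 with hc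
    have hc0 : 0 ≤ c := by positivity
    have h2 : ∀ i : ℕ, PP (rate lam) {ω | ω (rung p.1 p.2 (j + i)) ≠ 0}
        ≤ ENNReal.ofReal (c * (1 / 2) ^ i) := by
      intro i
      refine (open_le _ _).trans ?_
      rw [← ENNReal.ofReal_coe_nnreal]
      apply ENNReal.ofReal_le_ofReal
      rw [rate, weight_rung]
      push_cast
      have := aa_le j (j + i) (by omega)
      refine (mul_le_mul_of_nonneg_left this h0).trans ?_
      rw [hc, pow_add, pow_add]
      have a : (0 : ℝ) ≤ lam / ll (j + 1) * (1 / 2) ^ j * (1 / 2) ^ i := by positivity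
      calc (lam : ℝ) * (1 / ↑(ll (j + 1)) * ((1 / 2) ^ j * (1 / 2) ^ i * (1 / 2) ^ 2))
          = (lam / ll (j + 1) * (1 / 2) ^ j * (1 / 2) ^ i) / 4 := by ring
        _ ≤ (lam / ll (j + 1) * (1 / 2) ^ j * (1 / 2) ^ i) / 2 := by linarith
        _ = _ := by ring
    have h3 := (measure_iUnion_le _).trans (ENNReal.tsum_le_tsum h2)
    rw [← ENNReal.ofReal_tsum_of_nonneg (fun i => by positivity)
      (summable_geometric_two.mul_left _), tsum_mul_left, tsum_geometric_two] at h3
    have h4 := ENNReal.toReal_le_of_le_ofReal (by positivity) h3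
    rw [measureReal_def]
    refine h4.trans (le_of_eq ?_)
    rw [hc]; ring
  refine (measureReal_biUnion_finset_le _ _).trans ?_
  refine (sum_le_sum fun p _ => h1 p).trans ?_
  rw [sum_const, nsmul_eq_mul, card_product, card_strip]
  simp only [Int.card_Ico, add_sub_cancel_left, Int.toNat_natCast]
  push_cast
  apply le_of_eq
  have : (2 : ℝ) ^ j * (1 / 2) ^ j = 1 := by rw [← mul_pow]; norm_num
  calc (L : ℝ) * 2 ^ j * (lam / ll (j + 1) * (1 / 2) ^ j)
      = L * (lam / ll (j + 1)) * (2 ^ j * (1 / 2) ^ j) := by ring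
    _ = _ := by rw [this]; ring

lemma cluster_null (lam : ℝ≥0) (g : GG) :
    PP (rate lam) ({ω | ∀ e, edgeWeight mu e = 0 → ω e = 0} ∩
      {ω | {h | (SimpleGraph.fromEdgeSet {e | ω e ≠ 0}).Reachable g h}.Infinite}) = 0 := by
  obtain ⟨x0, b⟩ := g
  rw [← measureReal_eq_zero_iff (measure_ne_top _ _)]
  refine le_antisymm (le_of_forall_pos_le_add fun ε hε => ?_) measureReal_nonneg
  set p := Real.exp (-lam) with hp
  have hp0 : 0 < p := Real.exp_pos _
  have h0 : (0 : ℝ) ≤ lam := lam.2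
  have hp1 : p ≤ 1 := Real.exp_le_one_iff.2 (by linarith)
  obtain ⟨K, hK⟩ := exists_pow_lt_of_lt_one (show 0 < ε / 3 by positivity)
    (show 1 - p / 4 < 1 by linarith)
  obtain ⟨J, hJ⟩ := exists_nat_ge (lam * (2 * K) / (ε / 3))
  obtain ⟨j, hjJ, hj⟩ := recur p hp0 hp1 (qq p) rfl (fun _ => rfl) J
  have hge := (cut_ge lam j).2
  have hN : ∀ x : ℤ, (PP (rate lam)).real (⋃ i ∈ range K, Cut j b (x + i * ll j))ᶜ ≤ ε / 3 :=
    fun x => (none_le _ (fun i => Box j b (x + i * ll j)) (fun i => Cut j b (x + i * ll j)) (p / 4)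
      (box_disj j b x) (fun i => dep_cut j b _) (fun i => hj.trans (hge b _)) K).trans hK.le
  have hE := exit_le lam j b (x0 - K * ll j) (2 * K * ll j)
  have hE' : (lam : ℝ) * (2 * K * ll j : ℕ) / ll (j + 1) ≤ ε / 3 := by
    have hl : (0 : ℝ) < ll j := by exact_mod_cast ll_pos _
    have hn : (J : ℝ) < nn j := by
      have : j < 2 ^ j := Nat.lt_two_pow_self
      have h2 : 2 ^ j < 2 ^ 2 ^ j := Nat.lt_two_pow_self
      have : J < nn j := by unfold nn; omega
      exact_mod_cast this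
    have hnpos : (0 : ℝ) < nn j := lt_of_le_of_lt (by positivity) hn
    rw [ll]; push_cast
    rw [div_le_iff₀ (by positivity)]
    rw [div_le_iff₀ (by positivity)] at hJ
    have : (lam : ℝ) * (2 * K) ≤ nn j * (ε / 3) := hJ.trans (by gcongr)
    nlinarith
  have hsub : ({ω | ∀ e, edgeWeight mu e = 0 → ω e = 0} ∩
      {ω | {h | (SimpleGraph.fromEdgeSet {e | ω e ≠ 0}).Reachable (x0, b) h}.Infinite}) ⊆
      ((⋃ i ∈ range K, Cut j b ((x0 - K * ll j) + i * ll j))ᶜ ∪
        (⋃ i ∈ range K, Cut j b (x0 + i * ll j))ᶜ) ∪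
      (⋃ p ∈ Ico (x0 - K * ll j) ((x0 - K * ll j) + (2 * K * ll j : ℕ)) ×ˢ strip j b, ⋃ i : ℕ,
        {ω | ω (rung p.1 p.2 (j + i)) ≠ 0}) := by
    rintro ω ⟨hz, hinf⟩
    by_contra hc
    rw [Set.mem_union, Set.mem_union, not_or, not_or, Set.mem_compl_iff, Set.mem_compl_iff,
      not_not, not_not] at hc
    obtain ⟨⟨hc1, hc2⟩, hex⟩ := hc
    simp only [Set.mem_iUnion] at hc1 hc2
    obtain ⟨i1, hi1, c1⟩ := hc1
    obtain ⟨i2, hi2, c2⟩ := hc2
    simp only [Set.mem_iUnion, not_exists, Set.mem_ofPred_eq, not_not] at hex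
    have hi1' : ((i1 : ℤ) + 1) * ll j ≤ K * ll j := by
      have : (i1 : ℤ) + 1 ≤ K := by exact_mod_cast mem_range.1 hi1
      gcongr
    have hi2' : ((i2 : ℤ) + 1) * ll j ≤ K * ll j := by
      have : (i2 : ℤ) + 1 ≤ K := by exact_mod_cast mem_range.1 hi2
      gcongr
    have p1 : (0 : ℤ) ≤ i1 * ll j := by positivity
    have p2 : (0 : ℤ) ≤ i2 * ll j := by positivity
    apply hinf
    refine finite_of_cuts ω hz j x0 b _ _ (by nlinarith) (by linarith) c1 c2 ?_
    intro y hy1 hy2 a ha i hi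
    have := hex (y, a) (mem_product.2 ⟨mem_Ico.2 ⟨by simp only; linarith,
      by push_cast; nlinarith⟩, ha⟩) (i - j)
    rwa [Nat.add_sub_cancel' hi] at this
  refine (measureReal_mono hsub (measure_ne_top _ _)).trans ?_
  refine (measureReal_union_le _ _).trans ?_
  have := measureReal_union_le (μ := PP (rate lam))
    (⋃ i ∈ range K, Cut j b ((x0 - K * ll j) + i * ll j))ᶜ (⋃ i ∈ range K, Cut j b (x0 + i * ll j))ᶜ
  have a1 := hN (x0 - K * ll j)
  have a2 := hN x0
  linarith

theorem no_perc (lam : ℝ≥0) : edgeLaw mu lam {ω | HasInfiniteComponent ω} = 0 := by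
  show PP (rate lam) _ = 0
  have h1 : PP (rate lam) (⋃ e : {e // edgeWeight mu e = 0}, {ω | ω e.1 ≠ 0}) = 0 := by
    rw [measure_iUnion_null_iff]
    intro e
    have := open_le (rate lam) e.1
    rw [rate, e.2] at this
    simpa using this
  have h2 : PP (rate lam) (⋃ g : GG, ({ω | ∀ e, edgeWeight mu e = 0 → ω e = 0} ∩
      {ω | {h | (SimpleGraph.fromEdgeSet {e | ω e ≠ 0}).Reachable g h}.Infinite})) = 0 :=
    measure_iUnion_null fun g => cluster_null lam g
  refine measure_mono_null ?_ (measure_union_null h1 h2)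
  rintro ω ⟨g, hg⟩
  by_cases hz : ∀ e, edgeWeight mu e = 0 → ω e = 0
  · exact Or.inr (Set.mem_iUnion.2 ⟨g, hz, hg⟩)
  · push Not at hz
    obtain ⟨e, he, he'⟩ := hz
    exact Or.inl (Set.mem_iUnion.2 ⟨⟨e, he⟩, he'⟩)

end Pool.Agent.H950Z.Lrp
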