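import Mathlib

/-! Counting permutations with prescribed values, and a family of permutations close to the span of
the 1-cosets but far from every large union of 1-cosets. -/

namespace Pool.Agent.H950Z.PermCount

open Finset Equiv

variable {n : ℕ}

lemma card_fix (D : Finset (Fin n)) :
    (univ.filter (fun τ : Perm (Fin n) => ∀ a ∈ D, τ a = a)).card = (n - D.card).factorial := by
  classical
  have e := Perm.subtypeEquivSubtypePerm (fun a : Fin n => a ∉ D)
  have h1 : Fintype.card (Perm {a : Fin n // a ∉ D}) = (n - D.card).factorial := by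
    rw [Fintype.card_perm]
    congr 1
    rw [Fintype.card_subtype_compl]
    simp
  rw [← h1, Fintype.card_congr e, Fintype.card_subtype]
  congr 1
  ext τ
  simp

lemma card_agree (D : Finset (Fin n)) (σ₀ : Perm (Fin n)) :
    (univ.filter (fun σ : Perm (Fin n) => ∀ a ∈ D, σ a = σ₀ a)).card = (n - D.card).factorial := by
  classical
  rw [← card_fix D]
  refine Finset.card_bij (fun σ _ => σ₀⁻¹ * σ) ?_ ?_ ?_
  · intro σ hσ
    simp only [mem_filter, mem_univ, true_and] at hσ ⊢
    intro a ha
    simp [hσ a ha]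
  · intro σ _ τ _ h
    exact mul_left_cancel h
  · intro τ hτ
    simp only [mem_filter, mem_univ, true_and] at hτ
    refine ⟨σ₀ * τ, ?_, by simp⟩
    simp only [mem_filter, mem_univ, true_and]
    intro a ha
    simp [hτ a ha]

lemma cnt_le (D : Finset (Fin n)) (P : Perm (Fin n) → Prop) [DecidablePred P]
    (hP : ∀ σ τ, P σ → P τ → ∀ a ∈ D, σ a = τ a) :
    (univ.filter P).card ≤ (n - D.card).factorial := by
  classical
  rcases (univ.filter P).eq_empty_or_nonempty with h | ⟨σ₀, hσ₀⟩
  · rw [h]; simp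
  · rw [← card_agree D σ₀]
    apply card_le_card
    intro σ hσ
    simp only [mem_filter, mem_univ, true_and] at hσ hσ₀ ⊢
    exact hP σ σ₀ hσ hσ₀

lemma cnt1 (a b : Fin n) :
    (univ.filter (fun σ : Perm (Fin n) => σ a = b)).card = (n - 1).factorial := by
  classical
  have := card_agree {a} (swap a b)
  simp only [mem_singleton, forall_eq, swap_apply_left, card_singleton] at this
  exact this

lemma cnt2 (a b a' b' : Fin n) (ha : a ≠ a') (hb : b ≠ b') :
    (univ.filter (fun σ : Perm (Fin n) => σ a = b ∧ σ a' = b')).card = (n - 2).factorial := by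
  classical
  obtain ⟨σ₀, h0⟩ := Perm.exists_extending_pair (α := Bool) (β := Fin n)
    (f := fun x => if x then a else a') (g := fun x => if x then b else b')
    (by intro x y; cases x <;> cases y <;> simp [ha, ha.symm])
    (by intro x y; cases x <;> cases y <;> simp [hb, hb.symm])
  have h1 : σ₀ a = b := by simpa using h0 true
  have h2 : σ₀ a' = b' := by simpa using h0 false
  have := card_agree {a, a'} σ₀
  rw [card_pair ha] at this
  rw [← this]
  congr 1
  ext σ
  simp [h1, h2]

lemma cnt3 (a b : Fin n) (p q : Fin n × Fin n) (hp : p.1 ≠ a) (hq : q.1 ≠ a) (hpq : p ≠ q) :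
    (univ.filter (fun σ : Perm (Fin n) => σ a = b ∧ σ p.1 = p.2 ∧ σ q.1 = q.2)).card
      ≤ (n - 3).factorial := by
  classical
  by_cases h : p.1 = q.1
  · have : univ.filter (fun σ : Perm (Fin n) => σ a = b ∧ σ p.1 = p.2 ∧ σ q.1 = q.2) = ∅ := by
      apply filter_eq_empty_iff.2
      rintro σ - ⟨-, h1, h2⟩
      apply hpq
      ext
      · rw [h]
      · rw [← h1, ← h2, h]
    rw [this]; simp
  · have hc : ({a, p.1, q.1} : Finset (Fin n)).card = 3 := by
      rw [card_eq_three]
      exact ⟨a, p.1, q.1, hp.symm, hq.symm, h, rfl⟩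
    have := cnt_le {a, p.1, q.1} (fun σ : Perm (Fin n) => σ a = b ∧ σ p.1 = p.2 ∧ σ q.1 = q.2) (by
      rintro σ τ ⟨h1, h2, h3⟩ ⟨k1, k2, k3⟩ x hx
      simp only [mem_insert, mem_singleton] at hx
      rcases hx with rfl | rfl | rfl
      · rw [h1, k1]
      · rw [h2, k2]
      · rw [h3, k3])
    rwa [hc] at this

/-- Bonferroni: inside the coset of `(a, a)`, a union of `K` further compatible cosets has at least
`K (n-2)! - K^2 (n-3)!` elements. -/
lemma bonf (a : Fin n) (T : Finset (Fin n × Fin n)) (hT : ∀ p ∈ T, p.1 ≠ a ∧ p.2 ≠ a) :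
    (T.card : ℝ) * (n - 2).factorial - (T.card : ℝ) ^ 2 * (n - 3).factorial ≤
      ((univ.filter (fun σ : Perm (Fin n) => σ a = a ∧ ∃ p ∈ T, σ p.1 = p.2)).card : ℝ) := by
  classical
  set I : Perm (Fin n) → Fin n × Fin n → ℝ :=
    fun σ p => if σ a = a ∧ σ p.1 = p.2 then 1 else 0 with hI
  have hpt : ∀ σ : Perm (Fin n),
      2 * (∑ p ∈ T, I σ p) - (∑ p ∈ T, I σ p) ^ 2 ≤
        (if σ a = a ∧ ∃ p ∈ T, σ p.1 = p.2 then (1 : ℝ) else 0) := by
    intro σ
    split_ifs with h
    · nlinarith [sq_nonneg ((∑ p ∈ T, I σ p) - 1)]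
    · have : ∑ p ∈ T, I σ p = 0 := by
        apply sum_eq_zero
        intro p hp
        simp only [hI]
        rw [if_neg]
        rintro ⟨h1, h2⟩
        exact h ⟨h1, p, hp, h2⟩
      rw [this]; simp
  have hsum := sum_le_sum (s := univ) (fun σ _ => hpt σ)
  rw [sum_boole] at hsum
  refine le_trans ?_ hsum
  have h1 : ∀ p ∈ T, ∑ σ : Perm (Fin n), I σ p = (n - 2).factorial := by
    intro p hp
    simp only [hI]
    rw [sum_boole, cnt2 a a p.1 p.2 (hT p hp).1.symm (hT p hp).2.symm]
  have h2 : ∀ p ∈ T, ∀ q ∈ T, ∑ σ : Perm (Fin n), I σ p * I σ q ≤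
      (if p = q then ((n - 2).factorial : ℝ) else 0) + (n - 3).factorial := by
    intro p hp q hq
    by_cases hpq : p = q
    · subst hpq
      rw [if_pos rfl]
      have : ∀ σ : Perm (Fin n), I σ p * I σ p = I σ p := by
        intro σ; simp only [hI]; split_ifs <;> simp
      simp_rw [this]
      rw [h1 p hp]
      have : (0 : ℝ) ≤ (n - 3).factorial := by positivity
      linarith
    · rw [if_neg hpq, zero_add]
      have : ∀ σ : Perm (Fin n), I σ p * I σ q =
          if σ a = a ∧ σ p.1 = p.2 ∧ σ q.1 = q.2 then (1 : ℝ) else 0 := by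
        intro σ; simp only [hI]
        by_cases h1 : σ a = a <;> by_cases h2 : σ p.1 = p.2 <;> by_cases h3 : σ q.1 = q.2 <;>
          simp [h1, h2, h3]
      simp_rw [this]
      rw [sum_boole]
      exact_mod_cast cnt3 a a p q (hT p hp).1 (hT q hq).1 hpq
  have h3 : ∑ σ : Perm (Fin n), (∑ p ∈ T, I σ p) = T.card * (n - 2).factorial := by
    rw [sum_comm, sum_congr rfl h1]; simp
  have h4 : ∑ σ : Perm (Fin n), (∑ p ∈ T, I σ p) ^ 2 ≤
      T.card * (n - 2).factorial + (T.card : ℝ) ^ 2 * (n - 3).factorial := by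
    have : ∀ σ : Perm (Fin n), (∑ p ∈ T, I σ p) ^ 2 = ∑ p ∈ T, ∑ q ∈ T, I σ p * I σ q := by
      intro σ; rw [sq, sum_mul_sum]
    simp_rw [this]
    rw [sum_comm]
    have : ∀ p ∈ T, ∑ σ : Perm (Fin n), ∑ q ∈ T, I σ p * I σ q ≤
        (n - 2).factorial + T.card * (n - 3).factorial := by
      intro p hp
      rw [sum_comm]
      refine (sum_le_sum (fun q hq => h2 p hp q hq)).trans ?_
      rw [sum_add_distrib, sum_ite_eq, if_pos hp]
      simp
    refine (sum_le_sum this).trans ?_
    simp only [sum_const, nsmul_eq_mul]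
    apply le_of_eq; ring
  rw [sum_sub_distrib, ← mul_sum, h3]
  linarith

end Pool.Agent.H950Z.PermCount
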