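import Pool.Agent.H950Z.PermCount

/-! The complement of the union of two compatible 1-cosets is within `1/(n(n-1))` of the span of
the 1-cosets, but far from every union of at least `n - 2` 1-cosets. -/

namespace Pool.Agent.H950Z.PermCount

open Finset Equiv

theorem far (C₀ : ℝ) (hC : 0 < C₀) : ∃ n : ℕ, 1 ≤ n ∧ ∃ A : Finset (Equiv.Perm (Fin n)),
    ∃ ε : ℝ, 0 ≤ ε ∧
    (∃ a : Fin n → Fin n → ℝ,
      (1 / (n.factorial : ℝ)) * ∑ σ : Equiv.Perm (Fin n),
          ((if σ ∈ A then (1:ℝ) else 0) - ∑ i : Fin n, a i (σ i)) ^ 2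
        ≤ ε * ((A.card : ℝ) / ((n - 1).factorial : ℝ)) / n) ∧
    ∀ S : Finset (Fin n × Fin n),
      (S.card : ℤ) = round ((A.card : ℝ) / ((n - 1).factorial : ℝ)) →
      C₀ * ε * ((A.card : ℝ) / ((n - 1).factorial : ℝ)) / n <
      (1 / (n.factorial : ℝ)) * ∑ σ : Equiv.Perm (Fin n),
          ((if σ ∈ A then (1:ℝ) else 0) - (if ∃ p ∈ S, σ p.1 = p.2 then (1:ℝ) else 0)) ^ 2 := by
  classical
  obtain ⟨K, hK⟩ : ∃ K : ℕ, 2 * C₀ ≤ K := exists_nat_ge _
  have hKpos : (0 : ℝ) < K := by linarith
  set n : ℕ := 2 * K + 4 with hn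
  have hn2 : 2 ≤ n := by omega
  let z : Fin n := ⟨0, by omega⟩
  let o : Fin n := ⟨1, by omega⟩
  have hzo : z ≠ o := by simp [z, o, Fin.ext_iff]
  set A : Finset (Perm (Fin n)) := univ.filter (fun σ => σ z ≠ z ∧ σ o ≠ o) with hA
  have hf1 : (n.factorial : ℝ) = n * (n - 1).factorial := by
    rw [← Nat.mul_factorial_pred (by omega : n ≠ 0)]; push_cast; ring
  have hf2 : ((n - 2).factorial : ℝ) = (2 * K + 2) * (n - 3).factorial := by
    have : n - 2 = (n - 3) + 1 := by omega
    rw [this, Nat.factorial_succ]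
    have h3 : n - 3 + 1 = 2 * K + 2 := by omega
    rw [h3]; push_cast; ring
  have hp1 : (0 : ℝ) < (n - 1).factorial := by positivity
  have hp3 : (0 : ℝ) < (n - 3).factorial := by positivity
  have hp0 : (0 : ℝ) < n.factorial := by positivity
  have hnR : (n : ℝ) = 2 * K + 4 := by rw [hn]; push_cast; ring
  have hnpos : (0 : ℝ) < n := by rw [hnR]; linarith
  have hAcard : ((n : ℝ) - 2) * (n - 1).factorial ≤ A.card := by
    have h1 : (univ : Finset (Perm (Fin n))) ⊆
        A ∪ (univ.filter (fun σ : Perm (Fin n) => σ z = z) ∪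
          univ.filter (fun σ : Perm (Fin n) => σ o = o)) := by
      intro σ _
      simp only [hA, mem_union, mem_filter, mem_univ, true_and]
      tauto
    have h2 := card_le_card h1
    have h3 := card_union_le A (univ.filter (fun σ : Perm (Fin n) => σ z = z) ∪
          univ.filter (fun σ : Perm (Fin n) => σ o = o))
    have h4 := card_union_le (univ.filter (fun σ : Perm (Fin n) => σ z = z))
          (univ.filter (fun σ : Perm (Fin n) => σ o = o))
    rw [cnt1, cnt1] at h4
    rw [card_univ, Fintype.card_perm, Fintype.card_fin] at h2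
    have h5 : n.factorial ≤ A.card + ((n - 1).factorial + (n - 1).factorial) := by omega
    have h6 : (n.factorial : ℝ) ≤ A.card + ((n - 1).factorial + (n - 1).factorial) := by
      exact_mod_cast h5
    rw [hf1] at h6
    linarith
  set c : ℝ := (A.card : ℝ) / ((n - 1).factorial : ℝ) with hc
  have hcge : (n : ℝ) - 2 ≤ c := by
    rw [hc, le_div_iff₀ hp1]; exact hAcard
  have hcpos : 0 < c := by linarith
  set ε : ℝ := ((n - 2).factorial : ℝ) / n.factorial * n / c with hε
  have hεc : ε * c / n = ((n - 2).factorial : ℝ) / n.factorial := by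
    rw [hε]; field_simp
  refine ⟨n, by omega, A, ε, by positivity, ?_, ?_⟩
  · refine ⟨fun i j => (if i = z then 1 - (if j = z then 1 else 0) else 0) +
      (if i = o then - (if j = o then 1 else 0) else 0), ?_⟩
    rw [← hc, hεc]
    have : ∀ σ : Perm (Fin n), ((if σ ∈ A then (1:ℝ) else 0) - ∑ i : Fin n,
        ((if i = z then 1 - (if σ i = z then 1 else 0) else 0) +
          (if i = o then - (if σ i = o then (1:ℝ) else 0) else 0))) ^ 2 =
        if σ z = z ∧ σ o = o then 1 else 0 := by
      intro σ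
      rw [sum_add_distrib, sum_ite_eq', sum_ite_eq']
      simp only [mem_univ, if_true, hA, mem_filter, true_and]
      by_cases h1 : σ z = z <;> by_cases h2 : σ o = o <;> simp [h1, h2]
    simp_rw [this]
    rw [sum_boole, cnt2 z z o o hzo hzo]
    apply le_of_eq; ring
  · intro S hS
    rw [← hc] at hS
    have hSge : n - 2 ≤ S.card := by
      have h1 : ((n - 2 : ℕ) : ℤ) ≤ round c := by
        rw [round_eq, Int.le_floor]
        have : (((n - 2 : ℕ) : ℤ) : ℝ) = (n : ℝ) - 2 := by
          rw [Int.cast_natCast, Nat.cast_sub hn2]; norm_num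
        rw [this]; linarith
      rw [← hS] at h1
      exact_mod_cast h1
    have hex : ∃ a : Fin n, (a = z ∨ a = o) ∧
        K ≤ (S.filter (fun p => p.1 ≠ a ∧ p.2 ≠ a)).card := by
      by_contra hcon
      push Not at hcon
      have h1 := hcon z (Or.inl rfl)
      have h2 := hcon o (Or.inr rfl)
      have h3 : S ⊆ (S.filter (fun p => p.1 ≠ z ∧ p.2 ≠ z) ∪
          S.filter (fun p => p.1 ≠ o ∧ p.2 ≠ o)) ∪ {(z, o), (o, z)} := by
        rintro ⟨x, y⟩ hp
        simp only [mem_union, mem_filter, hp, true_and, mem_insert, mem_singleton, Prod.mk.injEq]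
        by_cases a1 : x = z <;> by_cases a2 : y = z <;> by_cases a3 : x = o <;>
          by_cases a4 : y = o <;> simp_all
      have h4 := card_le_card h3
      have h5 := card_union_le (S.filter (fun p => p.1 ≠ z ∧ p.2 ≠ z) ∪
          S.filter (fun p => p.1 ≠ o ∧ p.2 ≠ o)) {(z, o), (o, z)}
      have h6 := card_union_le (S.filter (fun p => p.1 ≠ z ∧ p.2 ≠ z))
          (S.filter (fun p => p.1 ≠ o ∧ p.2 ≠ o))
      have h7 : ({(z, o), (o, z)} : Finset (Fin n × Fin n)).card ≤ 2 := card_le_two
      omega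
    obtain ⟨a, ha, hKa⟩ := hex
    obtain ⟨T, hTs, hTc⟩ := exists_subset_card_eq hKa
    have hb := bonf a T (fun p hp => (mem_filter.1 (hTs hp)).2)
    rw [hTc] at hb
    have hle : ((univ.filter (fun σ : Perm (Fin n) => σ a = a ∧ ∃ p ∈ T, σ p.1 = p.2)).card : ℝ)
        ≤ ∑ σ : Equiv.Perm (Fin n),
          ((if σ ∈ A then (1:ℝ) else 0) - (if ∃ p ∈ S, σ p.1 = p.2 then (1:ℝ) else 0)) ^ 2 := by
      rw [← sum_boole]
      apply sum_le_sum
      intro σ _
      split_ifs with h1 h2 h3 h3 h2 h3 h3 <;> try norm_num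
      all_goals
        obtain ⟨h4, p, hp, h5⟩ := h1
        first
        | exact h3 ⟨p, (mem_filter.1 (hTs hp)).1, h5⟩
        | (simp only [hA, mem_filter, mem_univ, true_and] at h2
           rcases ha with rfl | rfl
           · exact h2.1 h4
           · exact h2.2 h4)
    have e1 : C₀ * ε * c / n = C₀ * (ε * c / n) := by ring
    rw [← hc, e1, hεc]
    have key : C₀ * ((n - 2).factorial : ℝ) <
        (K : ℝ) * (n - 2).factorial - (K : ℝ) ^ 2 * (n - 3).factorial := by
      rw [hf2]
      have : C₀ * (2 * K + 2) < K * (2 * K + 2) - (K : ℝ) ^ 2 := by nlinarith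
      nlinarith
    have := lt_of_lt_of_le key (hb.trans hle)
    calc C₀ * (((n - 2).factorial : ℝ) / n.factorial)
        = (1 / (n.factorial : ℝ)) * (C₀ * ((n - 2).factorial : ℝ)) := by ring
      _ < _ := by
        apply mul_lt_mul_of_pos_left this
        positivity

end Pool.Agent.H950Z.PermCount
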